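import Pool.Agent.J4H1.LG.Cls
import Pool.Agent.J4H8.LH.Aut
import Pool.Agent.J4H34.HF.H11

/-!
# Project LG: automorphic L-functions form a class
-/

set_option autoImplicit false

open Complex MeasureTheory Filter Topology Set
open scoped ComplexConjugate

namespace Pool.Agent.J4H1.LG

open Pool.Agent.J4H1.LH
open Pool.Agent.J4H34.HF (DR Xi)

variable {m : ℕ} {K : ℝ}

/-- the zeros of the flow are in the critical strip -/
lemma strip (hm : 1 ≤ m) {N : ℝ} {μ : Fin m → ℂ} {α : Fin m → ℕ → ℂ} {ε : ℂ} {Λ : ℂ → ℂ}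
    (d : DR K N μ α ε Λ) {τ : ℝ} (hτ : 0 < τ) {s : ℂ} (hs : Pool.Agent.J4H34.HF.heat τ (Xi N Λ) s = 0) :
    |s.re - 1 / 2| ≤ 1 / 2 := by
  obtain ⟨hXd, hfe, hbdd, hXe, hgr⟩ := Pool.Agent.J4H34.HF.basic hm d.dat
  have hne := Pool.Agent.J4H34.HF.xi_ne hm d.dat
  have hZ : Pool.Agent.J4H34.HF.ZS (1 / 2) (Xi N Λ) := by
    refine ⟨hXd, ⟨ε, hfe⟩, hgr, fun z hz => ?_⟩
    by_contra hcon
    push Not at hcon
    have h1 : 1 < z.re := by linarith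
    rw [(Pool.Agent.J4H34.HF.xi_eq hm d).2 z h1] at hz
    exact mul_ne_zero ((H353.E.gaf_GP hm d.dat.one_le d.dat.re_le).ne z h1.le)
      (Complex.exp_ne_zero _) hz
  have h1 := Pool.Agent.J4H34.HF.heat_ne hXd hgr hne hτ
  have h2 := hZ.heat hτ h1
  have h3 := h2.zer s hs
  have hfe2 := Pool.Agent.J4H34.HF.heat_fe (f := Xi N Λ) hfe (τ := τ)
  have hε : ε ≠ 0 := by
    have := d.dat.norm_eq
    intro h0
    rw [h0, norm_zero] at this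
    norm_num at this
  have h4 : Pool.Agent.J4H34.HF.heat τ (Xi N Λ) (1 - conj s) = 0 := by
    have h5 := hfe2 s
    rw [hs] at h5
    rcases mul_eq_zero.mp h5.symm with h | h
    · exact absurd h hε
    · exact (map_eq_zero _).mp h
  have h5 := h2.zer _ h4
  rw [sub_re, Complex.conj_re, one_re] at h5
  rw [abs_le]
  constructor <;> linarith

/-- all zeros are on the line when `τ log C ≥ 2` -/
lemma late (hm : 1 ≤ m) (hK : 0 ≤ K) : ∃ C₀ : ℝ, ∀ (N : ℝ) (μ : Fin m → ℂ) (α : Fin m → ℕ → ℂ) (ε : ℂ)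
    (Λ : ℂ → ℂ), DR K N μ α ε Λ → ∀ (τ T : ℝ), 0 < τ → τ ≤ 1 →
      C₀ ≤ Real.log (Pool.Agent.J4H34.HF.cond N μ T) → 2 ≤ τ * Real.log (Pool.Agent.J4H34.HF.cond N μ T) →
      ∀ s : ℂ, |s.im - T| ≤ 1 → Pool.Agent.J4H34.HF.heat τ (Xi N Λ) s = 0 → s.re = 1 / 2 := by
  obtain ⟨C₁, hC₁, H⟩ := Pool.Agent.J4H34.HF.flow_local m hm hK (η := 1 / 4) (by norm_num) (by norm_num)
  refine ⟨4 * (C₁ + m * Real.log 2), ?_⟩
  intro N μ α ε Λ d τ T h0 h1 h2 h3 s hs hz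
  refine (H N μ α ε Λ d τ s h0 h1 ?_ hz).1
  have h4 := log_cond_shift' (μ := μ) d.dat.one_le T (s.im - T)
  rw [add_sub_cancel] at h4
  have h5 : m * Real.log (1 + |s.im - T|) ≤ m * Real.log 2 := by
    apply mul_le_mul_of_nonneg_left _ (Nat.cast_nonneg m)
    exact Real.log_le_log (by positivity) (by linarith)
  have h6 : τ * (Real.log (Pool.Agent.J4H34.HF.cond N μ T) - m * Real.log 2) ≤
      τ * Real.log (Pool.Agent.J4H34.HF.cond N μ s.im) := mul_le_mul_of_nonneg_left (by linarith) h0.le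
  have h7 : τ * (C₁ + m * Real.log 2) ≤ τ * (Real.log (Pool.Agent.J4H34.HF.cond N μ T) / 4) :=
    mul_le_mul_of_nonneg_left (by linarith) h0.le
  nlinarith

/-- the class of automorphic L-functions -/
def PD {m : ℕ} (K : ℝ) (N : ℝ) (μ : Fin m → ℂ) (Λ : ℂ → ℂ) : Prop :=
  ∃ (α : Fin m → ℕ → ℂ) (ε : ℂ), DR K N μ α ε Λ

theorem cls_dr (hm : 1 ≤ m) (hK : 0 ≤ K) : Cls m 2 (PD (m := m) K) := by
  obtain ⟨K1, K2, hK1, H1, H2⟩ := Pool.Agent.J4H8.LH.t_aut m K hm hK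
  obtain ⟨C₀, HC⟩ := late (K := K) hm hK
  refine
    { hX0 := le_rfl
      one_le := ?_
      ent := ?_
      aut := ⟨K1, K2, hK1, ?_, ?_⟩
      strip := ?_
      late := ⟨C₀, ?_⟩
      re1 := ?_ }
  · rintro N μ Λ ⟨α, ε, d⟩
    exact d.dat.one_le
  · rintro N μ Λ ⟨α, ε, d⟩
    exact d.dat.entire
  · rintro N μ Λ ⟨α, ε, d⟩ T
    exact H1 N μ α ε Λ d T
  · intro κ η R h1 h2 h3 h4
    obtain ⟨ℓ0, H⟩ := H2 κ η R h1 h2 h3 h4
    refine ⟨ℓ0, ?_⟩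
    rintro N μ Λ ⟨α, ε, d⟩ T hT
    exact H N μ α ε Λ d T hT
  · rintro N μ Λ ⟨α, ε, d⟩ τ hτ s hs
    exact strip hm d hτ hs
  · rintro N μ Λ ⟨α, ε, d⟩ τ T h1 h2 h3 h4 s h5 h6
    exact HC N μ α ε Λ d τ T h1 h2 h3 h4 s h5 h6
  · rintro N μ Λ ⟨α, ε, d⟩ s hs
    rw [(Pool.Agent.J4H34.HF.xi_eq hm d).2 s hs]
    exact mul_ne_zero ((H353.E.gaf_GP hm d.dat.one_le d.dat.re_le).ne s hs.le) (Complex.exp_ne_zero _)

end Pool.Agent.J4H1.LG
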