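import Pool.Agent.J4H1.LG.Zeta4

/-!
# Project LG: the Riemann zeta function belongs to the class
-/

set_option autoImplicit false

open Complex Set MeasureTheory Filter Topology
open scoped ComplexConjugate

namespace Pool.Agent.J4H1.LG

open H353.E H353.F
open Pool.Agent.J4H1.LH
open Pool.Agent.J4H1.JP (XX m4 m4_re XX_fe XX_sharp XX_half diff_XX XX_eq)
open Pool.Agent.J4H34.HF
open Pool.Agent.W169.HF (S_PROF)

/-- the zeros at height `t` are on the line when `τ log C(t) ≥ 1 + η` -/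
theorem flow_zeta {η : ℝ} (hη : 0 < η) (hη1 : η ≤ 1) : ∃ C₀ : ℝ, 1 ≤ C₀ ∧ ∀ (τ : ℝ) (s : ℂ), 0 < τ →
    τ ≤ 1 → C₀ ≤ Real.log (cond 1 m4 s.im) → 1 + η ≤ τ * Real.log (cond 1 m4 s.im) →
    heat τ XX s = 0 → s.re = 1 / 2 := by
  obtain ⟨C, A, hC, hA, hHL⟩ := hl_zeta hη hη1
  obtain ⟨ℓ₀, hloc⟩ := local_main C A hC hA hη hη1
  refine ⟨max (max 1 ℓ₀) ((2 * (C + A) + 1) ^ 2), (le_max_left _ _).trans (le_max_left _ _), fun τ => ?_⟩
  have key : ∀ t : ℝ, 0 < τ → τ ≤ 1 → max (max 1 ℓ₀) ((2 * (C + A) + 1) ^ 2) ≤ Real.log (cond 1 m4 t) →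
      1 + η ≤ τ * Real.log (cond 1 m4 t) →
      (∀ x : ℝ, 0 < x → Hf (fun v : ℝ => XX (1 / 2 + t * I + v)) τ x ≠ 0) := by
    intro t hτ hτ1 hℓC hτℓ
    obtain ⟨ℓ, hℓ⟩ : ∃ ℓ : ℝ, ℓ = Real.log (cond 1 m4 t) := ⟨_, rfl⟩
    rw [← hℓ] at hℓC hτℓ
    have h1 : 1 ≤ ℓ := ((le_max_left _ _).trans (le_max_left _ _)).trans hℓC
    have h2 : ℓ₀ ≤ ℓ := ((le_max_right _ _).trans (le_max_left _ _)).trans hℓC
    have h3 : (2 * (C + A) + 1) ^ 2 ≤ ℓ := (le_max_right _ _).trans hℓC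
    have h4 : 2 * (C + A) + 1 ≤ Real.sqrt ℓ := Real.le_sqrt_of_sq_le h3
    have h5 : 1 ≤ Real.sqrt ℓ := Real.one_le_sqrt.2 h1
    have h6 : Real.sqrt ℓ * Real.sqrt ℓ = ℓ := Real.mul_self_sqrt (by linarith)
    have hbig : C + A * Real.sqrt ℓ ≤ ℓ / 2 := by nlinarith
    obtain ⟨p, hp⟩ := hHL t ℓ hℓ h1 hbig
    exact (hloc _ p _ _ _ ℓ τ 1 hp norm_one (fun v => by
      rw [XX_fe]
      congr 3
      push_cast
      rw [map_add, map_add, map_mul, Complex.conj_I, Complex.conj_ofReal, map_neg, Complex.conj_ofReal,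
        map_div₀, map_one, map_ofNat]
      ring) h2 hτ hτ1 hτℓ le_rfl le_rfl le_rfl).1
  have hright : ∀ s : ℂ, 0 < τ → τ ≤ 1 → max (max 1 ℓ₀) ((2 * (C + A) + 1) ^ 2) ≤ Real.log (cond 1 m4 s.im) →
      1 + η ≤ τ * Real.log (cond 1 m4 s.im) →
      heat τ XX s = 0 → s.re ≤ 1 / 2 := fun s hτ hτ1 hℓC hℓ hz => by
    by_contra hcon
    push Not at hcon
    have h1 := key s.im hτ hτ1 hℓC hℓ (s.re - 1 / 2) (by linarith)
    have e : s = (1 / 2 + s.im * I) + ((s.re - 1 / 2 : ℝ) : ℂ) := by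
      apply Complex.ext <;> simp
    rw [e, heat_local hτ] at hz
    have hq : 0 < Real.sqrt (4 * Real.pi * τ) := Real.sqrt_pos.mpr (by positivity)
    rcases mul_eq_zero.mp hz with h2 | h2
    · have h3 : (Real.sqrt (4 * Real.pi * τ))⁻¹ * Real.exp (-((s.re - 1 / 2) ^ 2 / (4 * τ))) = 0 := by
        exact_mod_cast h2
      have h4 : 0 < (Real.sqrt (4 * Real.pi * τ))⁻¹ * Real.exp (-((s.re - 1 / 2) ^ 2 / (4 * τ))) := by
        positivity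
      linarith
    · exact h1 h2
  intro s hτ hτ1 hℓC hℓ hz
  apply le_antisymm (hright s hτ hτ1 hℓC hℓ hz)
  have hz' : heat τ XX (1 - conj s) = 0 := by
    have h1 := heat_fe (f := XX) XX_fe (τ := τ) (1 - conj s)
    have e : (1 : ℂ) - conj (1 - conj s) = s := by simp
    rw [e, hz, map_zero, mul_zero] at h1
    exact h1
  have him : (1 - conj s).im = s.im := by simp
  have h2 := hright (1 - conj s) hτ hτ1 (by rw [him]; exact hℓC) (by rw [him]; exact hℓ) hz'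
  rw [sub_re, one_re, Complex.conj_re] at h2
  linarith

lemma late_zeta : ∃ C₀ : ℝ, ∀ (τ T : ℝ), 0 < τ → τ ≤ 1 →
      C₀ ≤ Real.log (cond 1 m4 T) → 2 ≤ τ * Real.log (cond 1 m4 T) →
      ∀ s : ℂ, |s.im - T| ≤ 1 → heat τ XX s = 0 → s.re = 1 / 2 := by
  obtain ⟨C₁, hC₁, H⟩ := flow_zeta (η := 1 / 4) (by norm_num) (by norm_num)
  refine ⟨4 * (C₁ + (1 : ℕ) * Real.log 2), ?_⟩
  intro τ T h0 h1 h2 h3 s hs hz
  have h4 := log_cond_shift' (μ := m4) le_rfl T (s.im - T)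
  rw [add_sub_cancel] at h4
  have h5 : ((1 : ℕ) : ℝ) * Real.log (1 + |s.im - T|) ≤ (1 : ℕ) * Real.log 2 := by
    apply mul_le_mul_of_nonneg_left _ (Nat.cast_nonneg 1)
    exact Real.log_le_log (by positivity) (by linarith)
  have hl2 : 0 ≤ Real.log 2 := Real.log_nonneg (by norm_num)
  push_cast at h2 h4 h5
  refine H τ s h0 h1 (by linarith) ?_ hz
  have h6 : τ * (Real.log (cond 1 m4 T) - Real.log 2) ≤
      τ * Real.log (cond 1 m4 s.im) := mul_le_mul_of_nonneg_left (by linarith) h0.le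
  have h7 : τ * Real.log 2 ≤ τ * (Real.log (cond 1 m4 T) / 4) :=
    mul_le_mul_of_nonneg_left (by linarith) h0.le
  nlinarith

/-- the class with one element -/
def PZ (N : ℝ) (μ : Fin 1 → ℂ) (Λ : ℂ → ℂ) : Prop := N = 1 ∧ μ = m4 ∧ Λ = XX

theorem cls_zeta (hpr : S_PROF) : Cls 1 2 PZ := by
  obtain ⟨K1, K2, hK1, H1, H2⟩ := aut_zeta hpr
  obtain ⟨C₀, HC⟩ := late_zeta
  refine
    { hX0 := le_rfl
      one_le := ?_
      ent := ?_
      aut := ⟨K1, K2, hK1, ?_, ?_⟩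
      strip := ?_
      late := ⟨C₀, ?_⟩
      re1 := ?_ }
  · rintro N μ Λ ⟨rfl, rfl, rfl⟩
    exact le_rfl
  · rintro N μ Λ ⟨rfl, rfl, rfl⟩
    exact diff_XX
  · rintro N μ Λ ⟨rfl, rfl, rfl⟩ T
    exact H1 T
  · intro κ η R h1 h2 h3 h4
    obtain ⟨ℓ0, H⟩ := H2 κ η R h1 h2 h3 h4
    refine ⟨ℓ0, ?_⟩
    rintro N μ Λ ⟨rfl, rfl, rfl⟩ T hT
    exact H T hT
  · rintro N μ Λ ⟨rfl, rfl, rfl⟩ τ hτ s hs
    rw [Xi_one] at hs
    exact strip_zeta hτ hs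
  · rintro N μ Λ ⟨rfl, rfl, rfl⟩ τ T h1 h2 h3 h4 s h5 h6
    rw [Xi_one] at h6
    exact HC τ T h1 h2 h3 h4 s h5 h6
  · rintro N μ Λ ⟨rfl, rfl, rfl⟩ s hs
    rw [Xi_one]
    exact XX_ne hs.le

end Pool.Agent.J4H1.LG
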