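import Pool.Agent.J4H1.LG.E
import Pool.Agent.J4H1.LG.Dr
import Pool.Agent.J4H1.LG.Zeta5
import Pool.Agent.J4H8.LH.Aut
import Pool.Agent.J4H8.LH.Tcz
import Pool.Agent.J4H8.DT.Sad
import Pool.Agent.W169.HF.Asm
import Pool.Agent.W351.HF.TC
import Pool.Agent.W397.HF.Lcx
import Pool.Agent.W45.HF.Prof
import Pool.Agent.W363.HF.JU
import Pool.Agent.W736.HF.JL
import Pool.Agent.W816.HF.JU2
import Pool.Agent.W816.HF.JL2
import Pool.Agent.W131.HF.Fwd2
import Pool.Agent.W327.HF.Fwd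
import Pool.Agent.W85.HF.Bwd
import Pool.Agent.W565.HF.Hup
import Pool.Agent.W565.HF.Inv
import Pool.Agent.W366.HF.Hlo
import Pool.Agent.W583.HF.InvX
import Pool.Agent.W193.HF.Net
import Pool.Agent.W320.HF.Rect
import Pool.Agent.W160.HF.Hpx

/-!
# Project LG: assembly of the parts
-/

set_option autoImplicit false

open Complex MeasureTheory Filter Topology Set
open scoped ComplexConjugate

namespace Pool.Agent.J4H1.LG

open Pool.Agent.J4H1.LH

theorem allS : AllS := by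
  have prof : Pool.Agent.W169.HF.S_PROF :=
    Pool.Agent.W45.HF.prof_of Pool.Agent.W351.HF.tc Pool.Agent.W397.HF.lcx
  have ju : Pool.Agent.W169.HF.S_JU := Pool.Agent.W363.HF.ju
  have sad : Pool.Agent.W169.HF.S_SADL := Pool.Agent.J4H8.DT.t_sadl
  have jl : Pool.Agent.W169.HF.S_JL := Pool.Agent.W736.HF2.jl_of sad
  have inv : Pool.Agent.W169.HF.S_INV :=
    Pool.Agent.W565.HF.inv Pool.Agent.W169.HF.hs_all Pool.Agent.W169.HF.sg_all Pool.Agent.W169.HF.heat_all
  have hup : Pool.Agent.W169.HF.S_HUP := Pool.Agent.W565.HF.hup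
  have hlo : Pool.Agent.W169.HF.S_HLO := Pool.Agent.W366.HF.hlo_of prof ju jl
  exact
    { off := off_of Pool.Agent.W160.HF.hpx hlo
      tcz := Pool.Agent.J4H8.LH.t_tcz
      hup := hup
      hlo := hlo
      invx := Pool.Agent.W583.HF.invx_of hup inv
      net := Pool.Agent.W193.HF.net_of Pool.Agent.W320.HF.rect
      rect := Pool.Agent.W320.HF.rect
      fwd2 := Pool.Agent.W131.HF.fwd2_of Pool.Agent.W816.HF.ju2 (Pool.Agent.W816.HF.jl2_of sad)
      fwd := W327.HF.fwd_of prof ju jl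
      bwd := Pool.Agent.W85.HF.bwd_of sad Pool.Agent.W351.HF.tc hup hlo inv }

theorem prof : Pool.Agent.W169.HF.S_PROF :=
  Pool.Agent.W45.HF.prof_of Pool.Agent.W351.HF.tc Pool.Agent.W397.HF.lcx

theorem clsZ : Cls 1 2 PZ := cls_zeta prof

end Pool.Agent.J4H1.LG
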