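import Pool.Agent.J4H1.LG.Cls
import Pool.Agent.J4H1.LH.CoreA

/-!
# Project LG: few zeros give the size, for families
-/

set_option autoImplicit false

open Complex MeasureTheory Filter Topology Set
open scoped ComplexConjugate

namespace Pool.Agent.J4H1.LG

open Pool.Agent.W169.HF (UD Pf Cnt phx Slow S_HLO S_HUP S_INVX S_TCZ)
open Pool.Agent.J4H1.LH
open Pool.Agent.J4H34.HF (Xi)

/-- the zeros of the flow, seen from the height `T` -/
lemma cnt_of {τ : ℝ} (hτ : 0 < τ) {F : ℂ → ℂ} (c : ℂ) {A : Set ℂ} {a : ℝ}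
    (h : Cnt (Pool.Agent.J4H34.HF.heat τ F) A a) :
    Cnt (Pool.Agent.W169.HF.heat τ (fun u => F (c + u))) {z | c + z ∈ A} a := by
  classical
  have he : Pool.Agent.W169.HF.heat τ (fun u => F (c + u)) =
      fun u => Pool.Agent.J4H34.HF.heat τ F (c + u) := by
    funext u; exact (heat_eq hτ F c u).symm
  intro S hS
  rw [he] at hS ⊢
  have h1 := h (S.image (fun z => c + z)) (by
    intro s hs
    rw [Finset.mem_image] at hs
    obtain ⟨z, hz, rfl⟩ := hs
    exact hS z hz)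
  rw [Finset.sum_image (fun z _ z' _ he => add_left_cancel he)] at h1
  refine le_trans (le_of_eq ?_) h1
  refine Finset.sum_congr rfl fun z _ => ?_
  rw [order_shift]

lemma cnt_to {τ : ℝ} (hτ : 0 < τ) {F : ℂ → ℂ} (c : ℂ) {A B : Set ℂ} {a : ℝ}
    (h : Cnt (Pool.Agent.W169.HF.heat τ (fun u => F (c + u))) B a)
    (hAB : ∀ s ∈ A, Pool.Agent.J4H34.HF.heat τ F s = 0 → s - c ∈ B) :
    Cnt (Pool.Agent.J4H34.HF.heat τ F) A a := by
  classical
  have he : Pool.Agent.W169.HF.heat τ (fun u => F (c + u)) =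
      fun u => Pool.Agent.J4H34.HF.heat τ F (c + u) := by
    funext u; exact (heat_eq hτ F c u).symm
  rw [he] at h
  intro S hS
  have h1 := h (S.image (fun z => z - c)) (by
    intro s hs
    rw [Finset.mem_image] at hs
    obtain ⟨z, hz, rfl⟩ := hs
    refine ⟨?_, hAB z (hS z hz).2 (hS z hz).1⟩
    simp only [add_sub_cancel]
    exact (hS z hz).1)
  rw [Finset.sum_image (fun z _ z' _ he => sub_left_injective he)] at h1
  refine le_trans (le_of_eq ?_) h1
  refine Finset.sum_congr rfl fun z _ => ?_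
  rw [order_shift, add_sub_cancel]

/-- comparison of the exponents -/
lemma ex1 {κ e r : ℝ} (hκ : 0 < κ) (he : 0 ≤ e) (hr : 0 ≤ r) :
    max (κ + e - r) 0 ^ 2 / (2 * (κ + e)) ≤ max (κ - r) 0 ^ 2 / (2 * κ) + 2 * e := by
  obtain ⟨a, ha⟩ : ∃ a : ℝ, a = max (κ - r) 0 := ⟨_, rfl⟩
  obtain ⟨b, hb⟩ : ∃ b : ℝ, b = max (κ + e - r) 0 := ⟨_, rfl⟩
  have ha0 : 0 ≤ a := by rw [ha]; exact le_max_right _ _
  have hb0 : 0 ≤ b := by rw [hb]; exact le_max_right _ _
  have haκ : a ≤ κ := by rw [ha]; exact max_le (by linarith) hκ.le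
  have hba : b ≤ a + e := by
    rw [hb]
    apply max_le
    · have := le_max_left (κ - r) 0
      rw [← ha] at this
      linarith
    · linarith
  rw [← ha, ← hb]
  have h1 : b ^ 2 ≤ (a + e) ^ 2 := pow_le_pow_left₀ hb0 hba 2
  have h2 : b ^ 2 / (2 * (κ + e)) ≤ (a + e) ^ 2 / (2 * (κ + e)) := by gcongr
  have h3 : (a + e) ^ 2 / (2 * (κ + e)) = a ^ 2 / (2 * (κ + e)) + (2 * a * e + e ^ 2) / (2 * (κ + e)) := by
    rw [← add_div]; congr 1; ring
  have h4 : a ^ 2 / (2 * (κ + e)) ≤ a ^ 2 / (2 * κ) :=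
    div_le_div_of_nonneg_left (sq_nonneg a) (by positivity) (by linarith)
  have h5 : (2 * a * e + e ^ 2) / (2 * (κ + e)) ≤ 2 * e := by
    rw [div_le_iff₀ (by positivity)]
    have : a * e ≤ κ * e := mul_le_mul_of_nonneg_right haκ he
    nlinarith
  linarith

section

variable {m : ℕ} {X0 : ℝ} {P : ℝ → (Fin m → ℂ) → (ℂ → ℂ) → Prop}

/-- the trivial bound -/
lemma gen_bd {K1 : ℝ} (hK1 : 1 ≤ K1) {N : ℝ} {μ : Fin m → ℂ} {Λ : ℂ → ℂ} {T : ℝ} (hN : 1 ≤ N)
    (hud : UD K1 (3 / 2) (lT N μ T) (GT N μ T) (fT N Λ T))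
    (hgi : ∀ u : ℂ, 0 ≤ u.re → ‖(gT N μ T u)⁻¹‖ ≤
      (GT N μ T)⁻¹ * Real.exp (-(lT N μ T * u.re) + K1 * (1 + ‖u‖ ^ 2))) {r : ℝ} (hr0 : 0 ≤ r)
    (hr : r ≤ 1 / 2) {E : ℝ} (hE : ‖fT N Λ T r‖ ≤ GT N μ T * Real.exp E) :
    ‖Lf μ Λ (1 / 2 + r + T * I)‖ ≤ Real.exp (E - lT N μ T * r + 2 * K1) := by
  have hG := hud.hG
  rw [Lf_eq (by linarith : 0 < N), norm_mul]
  have e1 : (1 / 2 + (r : ℂ) + T * I) = 1 / 2 + T * I + (r : ℂ) := by ring
  rw [e1]
  have h1 := hgi (r : ℂ) (by rw [Complex.ofReal_re]; exact hr0)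
  rw [Complex.ofReal_re] at h1
  have h2 : ‖(r : ℂ)‖ ^ 2 ≤ 1 := by
    rw [Complex.norm_real, Real.norm_eq_abs, sq_abs]
    nlinarith
  have h3 : K1 * (1 + ‖(r : ℂ)‖ ^ 2) ≤ 2 * K1 := by nlinarith
  calc ‖fT N Λ T r‖ * ‖(gT N μ T r)⁻¹‖
      ≤ (GT N μ T * Real.exp E) * ((GT N μ T)⁻¹ * Real.exp (-(lT N μ T * r) + K1 * (1 + ‖(r : ℂ)‖ ^ 2))) :=
        mul_le_mul hE h1 (norm_nonneg _) (by positivity)
    _ = Real.exp (E + (-(lT N μ T * r) + K1 * (1 + ‖(r : ℂ)‖ ^ 2))) := by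
        rw [Real.exp_add E]
        field_simp
    _ ≤ _ := Real.exp_le_exp.2 (by linarith)

/-- few zeros give the size -/
theorem few_to_size (hT : S_TCZ) (hU : S_HUP) (hL : S_HLO) (hI : S_INVX) (hP : Cls m X0 P)
    {ι : Type} {N : ι → ℝ} {μ : ι → Fin m → ℂ} {Λ : ι → ℂ → ℂ} (hD : ∀ i, P (N i) (μ i) (Λ i)) {κ : ℝ} (hκ : 0 < κ)
    (h : ∀ κ' : ℝ, κ < κ' → ∀ δ : ℝ, 0 < δ → Few (fun i => Xi (N i) (Λ i))
      (fun i => Pool.Agent.J4H34.HF.cond (N i) (μ i)) κ' δ) :
    Size (fun i => Lf (μ i) (Λ i)) (fun i => Pool.Agent.J4H34.HF.cond (N i) (μ i)) κ := by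
  classical
  obtain ⟨K1, K2, hK1, H1, -⟩ := hP.aut
  intro ε0 hε0
  obtain ⟨e, he⟩ : ∃ e : ℝ, e = min κ (ε0 / 4) := ⟨_, rfl⟩
  have he0 : 0 < e := by rw [he]; exact lt_min hκ (by positivity)
  have heε : e ≤ ε0 / 4 := by rw [he]; exact min_le_right _ _
  have heκ : e ≤ κ := by rw [he]; exact min_le_left _ _
  obtain ⟨a, R, ℓ1, ha, hR, HF⟩ := few_size hT hU hL hI K1 (3 / 2) (κ + e) (max 1 (κ + e)) (ε0 / 4) hK1
    (by norm_num) (by norm_num) (by positivity) (le_max_left _ _) (by positivity)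
  obtain ⟨M, hM⟩ := exists_nat_ge (R + 1)
  have hM0 : (0 : ℝ) ≤ M := Nat.cast_nonneg M
  obtain ⟨C₀, HC⟩ := h (κ + e / 2) (by linarith) a ha (a / (4 * (2 * M + 1))) (by positivity)
  obtain ⟨w, hw⟩ : ∃ w : ℝ, w = m * Real.log (1 + M) := ⟨_, rfl⟩
  have hw0 : 0 ≤ w := by
    rw [hw]; exact mul_nonneg (Nat.cast_nonneg m) (Real.log_nonneg (by linarith))
  -- the threshold for `log C`
  obtain ⟨Q, hQ⟩ : ∃ Q : ℝ, Q = 2 * |ℓ1| + (|C₀| + w) + w + (κ + e) + 2 * (κ + e) * w / e + 1 := ⟨_, rfl⟩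
  have q1 : 0 ≤ 2 * (κ + e) * w / e := by positivity
  have hQ0 : 0 < Q := by rw [hQ]; positivity
  refine ⟨Real.exp (3 * Q + 4 * K1), ?_⟩
  intro i T r hr0 hr
  obtain ⟨c, hc⟩ : ∃ c : ℝ, c = Pool.Agent.J4H34.HF.cond (N i) (μ i) T := ⟨_, rfl⟩
  have hN := hP.one_le (hD i)
  have hc1 : 1 ≤ c := by rw [hc]; exact Pool.Agent.J4H34.HF.cond_ge hN T
  have hℓc : lT (N i) (μ i) T = Real.log c / 2 := by rw [lT, hc]
  have hlc0 : 0 ≤ Real.log c := Real.log_nonneg hc1
  obtain ⟨hud, hgi, hgu⟩ := H1 (N i) (μ i) (Λ i) (hD i) T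
  have hG := hud.hG
  simp only
  rw [← hc]
  have hexp0 : 0 ≤ max (κ - r) 0 ^ 2 / (4 * κ) + ε0 := by positivity
  have hexp : c ^ (max (κ - r) 0 ^ 2 / (4 * κ) + ε0) =
      Real.exp (Real.log c * (max (κ - r) 0 ^ 2 / (4 * κ) + ε0)) := by
    rw [Real.rpow_def_of_pos (by linarith)]
  rw [hexp, ← Real.exp_add]
  rcases lt_or_ge (Real.log c) Q with hs | hs
  · -- small conductor
    have hE : ‖fT (N i) (Λ i) T r‖ ≤ GT (N i) (μ i) T * Real.exp (3 / 2 * lT (N i) (μ i) T + 2 * K1) := by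
      refine (hud.up r).trans ?_
      apply mul_le_mul_of_nonneg_left _ hG.le
      apply Real.exp_le_exp.2
      have h1 : max |(r : ℂ).re| (3 / 2 : ℝ) = 3 / 2 := by
        rw [Complex.ofReal_re, abs_of_nonneg hr0]
        exact max_eq_right (by linarith)
      rw [h1]
      have h2 : ‖(r : ℂ)‖ ^ 2 ≤ 1 := by
        rw [Complex.norm_real, Real.norm_eq_abs, sq_abs]
        nlinarith
      nlinarith
    refine (gen_bd hK1 hN hud hgi hr0 hr hE).trans ?_
    apply Real.exp_le_exp.2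
    rw [hℓc]
    have h3 : 0 ≤ Real.log c * (max (κ - r) 0 ^ 2 / (4 * κ) + ε0) := mul_nonneg hlc0 hexp0
    have h4 : 0 ≤ Real.log c / 2 * r := by positivity
    linarith
  · -- large conductor
    have hlQ : 0 < Real.log c := by linarith
    have hlc1 : 2 * |ℓ1| ≤ Real.log c := by
      have := abs_nonneg C₀; linarith
    have hlc2 : |C₀| + w ≤ Real.log c := by
      have := abs_nonneg ℓ1; linarith
    have hlc3 : w ≤ Real.log c := by
      have := abs_nonneg ℓ1; have := abs_nonneg C₀; linarith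
    have hlc4 : κ + e ≤ Real.log c := by
      have := abs_nonneg ℓ1; have := abs_nonneg C₀; linarith
    have hlc5 : (κ + e) * w ≤ e / 2 * Real.log c := by
      have h5 : 2 * (κ + e) * w / e ≤ Real.log c := by
        have := abs_nonneg ℓ1; have := abs_nonneg C₀; linarith
      rw [div_le_iff₀ he0] at h5
      linarith
    obtain ⟨τ, hτ⟩ : ∃ τ : ℝ, τ = (κ + e) / Real.log c := ⟨_, rfl⟩
    have hτ0 : 0 < τ := by rw [hτ]; positivity
    have hτ1 : τ ≤ 1 := by rw [hτ, div_le_one hlQ]; exact hlc4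
    have hτc : τ * Real.log c = κ + e := by rw [hτ]; field_simp
    have h2tℓ : 2 * τ * lT (N i) (μ i) T = κ + e := by rw [hℓc, ← hτc]; ring
    -- the zeros
    have hcnt : Cnt (Pool.Agent.W169.HF.heat τ (fT (N i) (Λ i) T))
        {z : ℂ | a ≤ z.re ∧ z.re ≤ R ∧ |z.im| ≤ R} (a * lT (N i) (μ i) T) := by
      intro S hS
      have hmaps : ∀ z ∈ S, round z.im ∈ Finset.Icc (-(M : ℤ)) M := by
        intro z hz
        obtain ⟨-, -, -, h3⟩ := hS z hz
        have h4 := abs_sub_round z.im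
        have h6 : |(round z.im : ℝ)| ≤ M := by
          have := abs_sub_abs_le_abs_sub (round z.im : ℝ) z.im
          rw [abs_sub_comm] at this
          linarith
        rw [Finset.mem_Icc]
        rw [abs_le] at h6
        constructor
        · exact_mod_cast h6.1
        · exact_mod_cast h6.2
      rw [← Finset.sum_fiberwise_of_maps_to hmaps]
      have hb : ∀ k ∈ Finset.Icc (-(M : ℤ)) M, ∑ z ∈ S with round z.im = k,
          (analyticOrderNatAt (Pool.Agent.W169.HF.heat τ (fT (N i) (Λ i) T)) z : ℝ) ≤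
          a / (2 * M + 1) * lT (N i) (μ i) T := by
        intro k hk
        rw [Finset.mem_Icc] at hk
        have hkM : |(k : ℝ)| ≤ M := by
          rw [abs_le]; constructor
          · exact_mod_cast hk.1
          · exact_mod_cast hk.2
        have hlk : m * Real.log (1 + |(k : ℝ)|) ≤ w := by
          rw [hw]
          apply mul_le_mul_of_nonneg_left _ (Nat.cast_nonneg m)
          exact Real.log_le_log (by positivity) (by linarith)
        have h5 := log_cond_shift (μ := μ i) hN T k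
        have h6 := log_cond_shift' (μ := μ i) hN T k
        rw [← hc] at h5 h6
        have h7 := HC i (T + k) τ (by
          have := le_abs_self C₀
          linarith) hτ0 hτ1 (by
          have h8 : τ * (Real.log c - w) ≤ τ * Real.log (Pool.Agent.J4H34.HF.cond (N i) (μ i) (T + k)) :=
            mul_le_mul_of_nonneg_left (by linarith) hτ0.le
          have h9 : τ * w ≤ e / 2 := by
            rw [hτ, div_mul_eq_mul_div, div_le_iff₀ hlQ]
            exact hlc5
          nlinarith)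
        have h10 := cnt_of hτ0 (1 / 2 + (T : ℂ) * I) h7
        have h11 := h10 (S.filter fun z => round z.im = k) (by
          intro z hz
          rw [Finset.mem_filter] at hz
          obtain ⟨hz1, hz2, hz3, hz4⟩ := hS z hz.1
          refine ⟨hz1, ?_⟩
          have hre : (1 / 2 + (T : ℂ) * I + z).re = 1 / 2 + z.re := by simp
          have him : (1 / 2 + (T : ℂ) * I + z).im = T + z.im := by simp
          simp only [Set.mem_ofPred_eq]
          rw [hre, him]
          refine ⟨by linarith, ?_, ?_⟩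
          · rw [add_sub_cancel_left, abs_of_nonneg (by linarith)]
            exact hz2
          · have h12 := abs_sub_round z.im
            rw [hz.2] at h12
            have e2 : T + z.im - (T + (k : ℝ)) = z.im - k := by ring
            rw [e2]
            linarith)
        refine h11.trans ?_
        have h12 : Real.log (Pool.Agent.J4H34.HF.cond (N i) (μ i) (T + k)) ≤ 2 * Real.log c := by linarith
        rw [hℓc]
        calc a / (4 * (2 * M + 1)) * Real.log (Pool.Agent.J4H34.HF.cond (N i) (μ i) (T + k))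
            ≤ a / (4 * (2 * M + 1)) * (2 * Real.log c) := mul_le_mul_of_nonneg_left h12 (by positivity)
          _ = a / (2 * M + 1) * (Real.log c / 2) := by field_simp; ring
      refine (Finset.sum_le_sum hb).trans (le_of_eq ?_)
      rw [Finset.sum_const, Int.card_Icc, nsmul_eq_mul]
      have e3 : (((M : ℤ) + 1 - -(M : ℤ)).toNat : ℝ) = 2 * M + 1 := by
        have : ((M : ℤ) + 1 - -(M : ℤ)).toNat = 2 * M + 1 := by omega
        rw [this]; push_cast; ring
      rw [e3]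
      field_simp
    have hE := HF (lT (N i) (μ i) T) (GT (N i) (μ i) T) τ (fT (N i) (Λ i) T) (by
        rw [hℓc]; have := le_abs_self ℓ1; linarith) hud hτ0 (by rw [h2tℓ]) (by
        rw [h2tℓ]; exact le_max_right _ _) hcnt r hr0 (by linarith)
    rw [h2tℓ] at hE
    refine (gen_bd hK1 hN hud hgi hr0 hr hE).trans ?_
    apply Real.exp_le_exp.2
    have h13 := ex1 hκ he0.le hr0
    have h14 : phx (κ + e) r = r + max (κ + e - r) 0 ^ 2 / (2 * (κ + e)) := rfl
    rw [h14, hℓc]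
    have h15 : max (κ - r) 0 ^ 2 / (2 * κ) = 2 * (max (κ - r) 0 ^ 2 / (4 * κ)) := by
      field_simp
      ring
    rw [h15] at h13
    have h16 := mul_le_mul_of_nonneg_left h13 hlc0
    have h17 := mul_le_mul_of_nonneg_left heε hlc0
    nlinarith

end

end Pool.Agent.J4H1.LG
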