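import Pool.Agent.J4H1.LH.Fam
import Pool.Agent.J4H1.LH.Stm

/-!
# Project LG: the properties of a class of L-functions used for the flow criterion
-/

set_option autoImplicit false

open Complex MeasureTheory Filter Topology Set
open scoped ComplexConjugate

namespace Pool.Agent.J4H1.LG

open Pool.Agent.J4H1.LH
open Pool.Agent.W169.HF (UD Pf)
open Pool.Agent.J4H34.HF (Xi)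

/-- the properties of the class `P` of data `(N, μ, Λ)` -/
structure Cls (m : ℕ) (X0 : ℝ) (P : ℝ → (Fin m → ℂ) → (ℂ → ℂ) → Prop) : Prop where
  hX0 : 2 ≤ X0
  one_le : ∀ {N : ℝ} {μ : Fin m → ℂ} {Λ : ℂ → ℂ}, P N μ Λ → 1 ≤ N
  ent : ∀ {N : ℝ} {μ : Fin m → ℂ} {Λ : ℂ → ℂ}, P N μ Λ → Differentiable ℂ Λ
  aut : ∃ (K1 : ℝ) (K2 : ℝ → ℝ), 1 ≤ K1 ∧
    (∀ (N : ℝ) (μ : Fin m → ℂ) (Λ : ℂ → ℂ), P N μ Λ → ∀ T : ℝ,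
      UD K1 (3 / 2) (lT N μ T) (GT N μ T) (fT N Λ T) ∧
      (∀ u : ℂ, 0 ≤ u.re → ‖(gT N μ T u)⁻¹‖ ≤
        (GT N μ T)⁻¹ * Real.exp (-(lT N μ T * u.re) + K1 * (1 + ‖u‖ ^ 2))) ∧
      (∀ ρ : ℝ, 0 < ρ → ∀ u : ℂ, ρ ≤ u.re → gT N μ T u ≠ 0 ∧
        ‖gT N μ T u‖ ≤ GT N μ T * Real.exp (lT N μ T * u.re + K2 ρ * (1 + ‖u‖ ^ 2)))) ∧
    (∀ κ η R : ℝ, 0 < κ → 0 < η → η ≤ 1 → 1 ≤ R → ∃ ℓ0 : ℝ,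
      ∀ (N : ℝ) (μ : Fin m → ℂ) (Λ : ℂ → ℂ), P N μ Λ → ∀ T : ℝ,
        ℓ0 ≤ lT N μ T → Pf κ (1 / 2 + η) R (lT N μ T) (GT N μ T) (fT N Λ T))
  strip : ∀ {N : ℝ} {μ : Fin m → ℂ} {Λ : ℂ → ℂ}, P N μ Λ → ∀ {τ : ℝ}, 0 < τ → ∀ {s : ℂ},
    Pool.Agent.J4H34.HF.heat τ (Xi N Λ) s = 0 → |s.re - 1 / 2| ≤ 1 / 2
  late : ∃ C₀ : ℝ, ∀ (N : ℝ) (μ : Fin m → ℂ) (Λ : ℂ → ℂ), P N μ Λ → ∀ (τ T : ℝ), 0 < τ → τ ≤ 1 →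
      C₀ ≤ Real.log (Pool.Agent.J4H34.HF.cond N μ T) → X0 ≤ τ * Real.log (Pool.Agent.J4H34.HF.cond N μ T) →
      ∀ s : ℂ, |s.im - T| ≤ 1 → Pool.Agent.J4H34.HF.heat τ (Xi N Λ) s = 0 → s.re = 1 / 2
  re1 : ∀ {N : ℝ} {μ : Fin m → ℂ} {Λ : ℂ → ℂ}, P N μ Λ → ∀ s : ℂ, 1 < s.re → Xi N Λ s ≠ 0

end Pool.Agent.J4H1.LG
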