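import Pool.Agent.J4H1.LG.E

/-!
# Project LG: comparable conductors
-/

set_option autoImplicit false

open Complex MeasureTheory Filter Topology Set
open scoped ComplexConjugate

namespace Pool.Agent.J4H1.LG

open Pool.Agent.J4H1.LH
open Pool.Agent.W169.HF (Cnt)

variable {ι : Type} {X : ι → ℂ → ℂ} {C C' : ι → ℝ → ℝ} {b κ κ' δ ϑ : ℝ}

lemma few_down (hb : 0 ≤ b) (h1 : ∀ i t, Real.log (C' i t) ≤ Real.log (C i t))
    (h2 : ∀ i t, Real.log (C i t) ≤ Real.log (C' i t) + b) (h : Few X C κ δ) : Few X C' κ δ := by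
  intro ε hε
  obtain ⟨C₀, H⟩ := h (ε / 2) (by positivity)
  refine ⟨max C₀ b, fun i T τ hC hτ0 hτ1 hκτ => ?_⟩
  have hC1 : C₀ ≤ Real.log (C' i T) := (le_max_left _ _).trans hC
  have hC2 : b ≤ Real.log (C' i T) := (le_max_right _ _).trans hC
  have h3 := h1 i T
  have h4 := h2 i T
  have h5 : τ * Real.log (C' i T) ≤ τ * Real.log (C i T) := mul_le_mul_of_nonneg_left h3 hτ0.le
  refine Cnt_mono (H i T τ (by linarith) hτ0 hτ1 (by linarith)) (fun z hz => hz) ?_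
  nlinarith

lemma time_up {c c' τ : ℝ} (hb : 0 ≤ b) (hκ : κ < κ') (hτ0 : 0 < τ) (hc : c ≤ c' + b) (h : κ' ≤ τ * c)
    (hbig : |κ| * (b + 1) / (κ' - κ) ≤ c') : κ ≤ τ * c' := by
  have hd : 0 < κ' - κ := by linarith
  have h1 : τ * c ≤ τ * (c' + b) := mul_le_mul_of_nonneg_left hc hτ0.le
  rcases le_or_gt (τ * b) (κ' - κ) with h2 | h2
  · nlinarith
  · have h3 : κ' - κ < τ * (b + 1) := by nlinarith
    rw [div_le_iff₀ hd] at hbig
    have hc0 : 0 ≤ c' := by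
      by_contra hcon
      push Not at hcon
      have : 0 ≤ |κ| * (b + 1) := by positivity
      nlinarith
    have h4 : |κ| * (b + 1) ≤ c' * (τ * (b + 1)) := hbig.trans (mul_le_mul_of_nonneg_left h3.le hc0)
    have h5 : (b + 1) * |κ| ≤ (b + 1) * (τ * c') := by linarith
    have h6 := le_of_mul_le_mul_left h5 (by linarith)
    exact (le_abs_self κ).trans h6

lemma few_up (hb : 0 ≤ b) (h1 : ∀ i t, Real.log (C' i t) ≤ Real.log (C i t))
    (h2 : ∀ i t, Real.log (C i t) ≤ Real.log (C' i t) + b) (hκ : κ < κ') (h : Few X C' κ δ) :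
    Few X C κ' δ := by
  intro ε hε
  obtain ⟨C₀, H⟩ := h ε hε
  refine ⟨max C₀ (|κ| * (b + 1) / (κ' - κ)) + b, fun i T τ hC hτ0 hτ1 hκτ => ?_⟩
  have h3 := h1 i T
  have h4 := h2 i T
  have hC' : max C₀ (|κ| * (b + 1) / (κ' - κ)) ≤ Real.log (C' i T) := by linarith
  have hC1 : C₀ ≤ Real.log (C' i T) := (le_max_left _ _).trans hC'
  have hC2 : |κ| * (b + 1) / (κ' - κ) ≤ Real.log (C' i T) := (le_max_right _ _).trans hC'
  refine Cnt_mono (H i T τ hC1 hτ0 hτ1 (time_up hb hκ hτ0 h4 hκτ hC2)) (fun z hz => hz) ?_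
  exact mul_le_mul_of_nonneg_left h3 hε.le

lemma allon_down (h1 : ∀ i t, Real.log (C' i t) ≤ Real.log (C i t)) (h : AllOn X C κ) : AllOn X C' κ := by
  obtain ⟨C₀, H⟩ := h
  refine ⟨C₀, fun i s τ hC hτ0 hτ1 hκτ hz => ?_⟩
  have h3 := h1 i s.im
  have h5 : τ * Real.log (C' i s.im) ≤ τ * Real.log (C i s.im) := mul_le_mul_of_nonneg_left h3 hτ0.le
  exact H i s τ (by linarith) hτ0 hτ1 (by linarith) hz

lemma allon_up (hb : 0 ≤ b)
    (h2 : ∀ i t, Real.log (C i t) ≤ Real.log (C' i t) + b) (hκ : κ < κ') (h : AllOn X C' κ) :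
    AllOn X C κ' := by
  obtain ⟨C₀, H⟩ := h
  refine ⟨max C₀ (|κ| * (b + 1) / (κ' - κ)) + b, fun i s τ hC hτ0 hτ1 hκτ hz => ?_⟩
  have h4 := h2 i s.im
  have hC' : max C₀ (|κ| * (b + 1) / (κ' - κ)) ≤ Real.log (C' i s.im) := by linarith
  have hC1 : C₀ ≤ Real.log (C' i s.im) := (le_max_left _ _).trans hC'
  have hC2 : |κ| * (b + 1) / (κ' - κ) ≤ Real.log (C' i s.im) := (le_max_right _ _).trans hC'
  exact H i s τ hC1 hτ0 hτ1 (time_up hb hκ hτ0 h4 hκτ hC2) hz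

lemma zf_down (h1 : ∀ i t, Real.log (C' i t) ≤ Real.log (C i t)) (h : ZeroFree X C ϑ) :
    ZeroFree X C' ϑ := by
  obtain ⟨C₀, H⟩ := h
  exact ⟨C₀, fun i s hC hs => H i s (by linarith [h1 i s.im]) hs⟩

lemma zf_up (h2 : ∀ i t, Real.log (C i t) ≤ Real.log (C' i t) + b) (h : ZeroFree X C' ϑ) :
    ZeroFree X C ϑ := by
  obtain ⟨C₀, H⟩ := h
  exact ⟨C₀ + b, fun i s hC hs => H i s (by linarith [h2 i s.im]) hs⟩

end Pool.Agent.J4H1.LG
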