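import Pool.Agent.J4H1.LG.C
import Pool.Agent.W169.HF.Maj

/-!
# Project LG: bounds on the line, for families
-/

set_option autoImplicit false

open Complex MeasureTheory Filter Topology Set
open scoped ComplexConjugate

namespace Pool.Agent.J4H1.LG

open Pool.Agent.W169.HF (UD Pf Mj Cnt phx Slow S_RECT S_FWD2)
open Pool.Agent.J4H1.LH
open Pool.Agent.J4H34.HF (Xi)

variable {m : ℕ} {X0 : ℝ} {P : ℝ → (Fin m → ℂ) → (ℂ → ℂ) → Prop}

lemma Lf_diff {μ : Fin m → ℂ} {Λ : ℂ → ℂ} (hΛ : Differentiable ℂ Λ) : Differentiable ℂ (Lf μ Λ) := by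
  unfold Lf
  have h1 : ∀ j, Differentiable ℂ fun s : ℂ => (Gammaℝ (s - μ j))⁻¹ := fun j =>
    differentiable_Gammaℝ_inv.comp (differentiable_id.sub_const _)
  have h2 : Differentiable ℂ fun s : ℂ => ∏ j, (Gammaℝ (s - μ j))⁻¹ := by
    have : Differentiable ℂ (∏ j, fun s : ℂ => (Gammaℝ (s - μ j))⁻¹) :=
      Differentiable.finsetProd fun j _ => h1 j
    convert this using 1
    funext s
    simp
  exact hΛ.mul h2

lemma Pf_mono {κ ϑ R R' ℓ G : ℝ} {f : ℂ → ℂ} (h : Pf κ ϑ R ℓ G f) (hR : R' ≤ R) : Pf κ ϑ R' ℓ G f :=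
  ⟨fun u h1 h2 h3 => h.low u h1 (h2.trans hR) (h3.trans hR),
   fun u h1 h2 => h.upp u (h1.trans hR) (h2.trans hR),
   fun u h1 h2 h3 => h.der u h1 (h2.trans hR) (h3.trans hR)⟩

/-- a bound on the line gives the majorant -/
theorem line_mj (hR : S_RECT) (hP : Cls m X0 P) {ι : Type} {N : ι → ℝ}
    {μ : ι → Fin m → ℂ} {Λ : ι → ℂ → ℂ}
    (hD : ∀ i, P (N i) (μ i) (Λ i)) {θ : ℝ} (hθ : 0 ≤ θ) (hθ1 : θ ≤ 1 / 4)
    (h : LineBound (fun i => Lf (μ i) (Λ i)) (fun i => Pool.Agent.J4H34.HF.cond (N i) (μ i)) θ)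
    {η κ : ℝ} (hη : 0 < η) (hη1 : η ≤ 1) (hκ : 0 < κ) : ∃ ℓ0 : ℝ, ∀ (i : ι) (T : ℝ),
      ℓ0 ≤ Real.log (Pool.Agent.J4H34.HF.cond (N i) (μ i) T) →
      Mj κ (1 / 2 + η) (2 * θ) (lT (N i) (μ i) T) (GT (N i) (μ i) T) (fT (N i) (Λ i) T) := by
  obtain ⟨K1, K2, hK1, H1, H2⟩ := hP.aut
  obtain ⟨κ', R, ρ, ℓ1, hκ', hρ, hρ1, HM⟩ := Pool.Agent.W169.HF.maj hR (K := K1) (K1 := K1) (ϑ0 := 3 / 2)
    (b := 1 / 2 + η) (M0 := 2 * θ) (κ := κ) hK1 (by linarith) (by norm_num) (by norm_num) (by linarith)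
    (by linarith) (by linarith) (by linarith) hκ K2
  obtain ⟨R', hR'⟩ : ∃ R' : ℝ, R' = max R 1 := ⟨_, rfl⟩
  have hR'1 : 1 ≤ R' := by rw [hR']; exact le_max_right _ _
  have hRR' : R ≤ R' := by rw [hR']; exact le_max_left _ _
  obtain ⟨ℓc, HP⟩ := H2 κ' η R' hκ' hη hη1 hR'1
  obtain ⟨B, HB⟩ := h (κ' / 4) (by positivity)
  obtain ⟨W, hW⟩ : ∃ W : ℝ, W = |B| + 1 + m * Real.log (1 + R') * (1 + κ') := ⟨_, rfl⟩
  have hlR : 0 ≤ Real.log (1 + R') := Real.log_nonneg (by linarith)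
  have hW0 : 0 ≤ W := by rw [hW]; positivity
  refine ⟨2 * |ℓ1| + 2 * |ℓc| + 4 * W / κ' + 1, ?_⟩
  intro i T hC
  obtain ⟨c, hc⟩ : ∃ c : ℝ, c = Pool.Agent.J4H34.HF.cond (N i) (μ i) T := ⟨_, rfl⟩
  rw [← hc] at hC
  have q1 : 0 ≤ 4 * W / κ' := by positivity
  have a1 := abs_nonneg ℓ1
  have a3 := abs_nonneg ℓc
  have b1 := le_abs_self ℓ1
  have b3 := le_abs_self ℓc
  have hNi := hP.one_le (hD i)
  have hlc : 0 < Real.log c := by linarith
  have hℓc : lT (N i) (μ i) T = Real.log c / 2 := by rw [lT, hc]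
  obtain ⟨hud, hgi, hgu⟩ := H1 (N i) (μ i) (Λ i) (hD i) T
  have hpf := HP (N i) (μ i) (Λ i) (hD i) T (by rw [hℓc]; linarith)
  have hWℓ : W ≤ κ' / 4 * Real.log c := by
    have : 4 * W / κ' ≤ Real.log c := by linarith
    rw [div_le_iff₀ hκ'] at this
    linarith
  refine HM (lT (N i) (μ i) T) (GT (N i) (μ i) T) (fT (N i) (Λ i) T)
    (fun u => Lf (μ i) (Λ i) (1 / 2 + T * I + u)) (gT (N i) (μ i) T) (by rw [hℓc]; linarith) hud
    (Pf_mono hpf hRR') ((Lf_diff (hP.ent (hD i))).comp (by fun_prop)) (fun u => ?_) hgi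
    (fun u hu => hgu ρ hρ u hu) (fun v hv => ?_)
  · rw [Lf_eq (by linarith : 0 < N i)]
    rfl
  · have hL := HB i (T + v)
    have e2 : (1 / 2 + ((T + v : ℝ) : ℂ) * I) = 1 / 2 + T * I + (v : ℂ) * I := by
      push_cast; ring
    simp only at hL ⊢
    rw [e2] at hL
    refine hL.trans ?_
    have hcv := log_cond_shift (μ := μ i) hNi T v
    rw [← hc] at hcv
    have hcv0 : 0 < Pool.Agent.J4H34.HF.cond (N i) (μ i) (T + v) := by
      have := Pool.Agent.J4H34.HF.cond_ge (μ := μ i) hNi (T + v)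
      linarith
    have hlv : m * Real.log (1 + |v|) ≤ m * Real.log (1 + R') := by
      apply mul_le_mul_of_nonneg_left _ (Nat.cast_nonneg m)
      exact Real.log_le_log (by positivity) (by linarith)
    have hE0 : 0 ≤ θ + κ' / 4 := by positivity
    rw [Real.rpow_def_of_pos hcv0]
    calc B * Real.exp (Real.log (Pool.Agent.J4H34.HF.cond (N i) (μ i) (T + v)) * (θ + κ' / 4))
        ≤ Real.exp |B| * Real.exp ((Real.log c + m * Real.log (1 + R')) * (θ + κ' / 4)) := by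
          apply mul_le_mul
          · have := Real.add_one_le_exp |B|
            have := le_abs_self B
            linarith
          · apply Real.exp_le_exp.2
            exact mul_le_mul_of_nonneg_right (by linarith) hE0
          · exact (Real.exp_pos _).le
          · exact (Real.exp_pos _).le
      _ = Real.exp (|B| + (Real.log c + m * Real.log (1 + R')) * (θ + κ' / 4)) := by rw [← Real.exp_add]
      _ ≤ _ := by
          apply Real.exp_le_exp.2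
          rw [hℓc]
          have h16 : m * Real.log (1 + R') * (θ + κ' / 4) ≤ m * Real.log (1 + R') * (1 + κ') :=
            mul_le_mul_of_nonneg_left (by linarith) (by positivity)
          rw [hW] at hWℓ
          nlinarith

/-- the trivial bound for small conductors -/
lemma small_bd {K1 : ℝ} (hK1 : 1 ≤ K1) {N : ℝ} {μ : Fin m → ℂ} {Λ : ℂ → ℂ} {T : ℝ} (hN : 1 ≤ N)
    (hud : UD K1 (3 / 2) (lT N μ T) (GT N μ T) (fT N Λ T))
    (hgi : ∀ u : ℂ, 0 ≤ u.re → ‖(gT N μ T u)⁻¹‖ ≤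
      (GT N μ T)⁻¹ * Real.exp (-(lT N μ T * u.re) + K1 * (1 + ‖u‖ ^ 2))) {r : ℝ} (hr0 : 0 ≤ r)
    (hr : r ≤ 1 / 2) :
    ‖Lf μ Λ (1 / 2 + r + T * I)‖ ≤ Real.exp (3 / 2 * lT N μ T + 4 * K1) := by
  have hG := hud.hG
  have hE : ‖fT N Λ T r‖ ≤ GT N μ T * Real.exp (3 / 2 * lT N μ T + 2 * K1) := by
    refine (hud.up r).trans ?_
    apply mul_le_mul_of_nonneg_left _ hG.le
    apply Real.exp_le_exp.2
    have h1 : max |(r : ℂ).re| (3 / 2 : ℝ) = 3 / 2 := by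
      rw [Complex.ofReal_re, abs_of_nonneg hr0]
      exact max_eq_right (by linarith)
    rw [h1]
    have h2 : ‖(r : ℂ)‖ ^ 2 ≤ 1 := by
      rw [Complex.norm_real, Real.norm_eq_abs, sq_abs]
      nlinarith
    nlinarith
  refine (gen_bd hK1 hN hud hgi hr0 hr hE).trans ?_
  apply Real.exp_le_exp.2
  have hl : 0 ≤ lT N μ T := by
    unfold lT
    have := Real.log_nonneg (Pool.Agent.J4H34.HF.cond_ge (μ := μ) hN T)
    linarith
  have h4 : 0 ≤ lT N μ T * r := mul_nonneg hl hr0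
  linarith

/-- Lindelöf on the line gives the size for every `κ` -/
theorem line_to_size (hR : S_RECT) (hP : Cls m X0 P) {ι : Type} {N : ι → ℝ}
    {μ : ι → Fin m → ℂ} {Λ : ι → ℂ → ℂ}
    (hD : ∀ i, P (N i) (μ i) (Λ i))
    (h : LineBound (fun i => Lf (μ i) (Λ i)) (fun i => Pool.Agent.J4H34.HF.cond (N i) (μ i)) 0)
    {κ : ℝ} (hκ : 0 < κ) :
    Size (fun i => Lf (μ i) (Λ i)) (fun i => Pool.Agent.J4H34.HF.cond (N i) (μ i)) κ := by
  intro ε0 hε0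
  obtain ⟨ℓ0, HM⟩ := line_mj hR hP hD le_rfl (by norm_num) h (η := 1 / 2) (κ := ε0) (by norm_num)
    (by norm_num) hε0
  obtain ⟨K1, K2, hK1, H1, H2⟩ := hP.aut
  refine ⟨Real.exp (|ℓ0| + 4 * K1), ?_⟩
  intro i T r hr0 hr
  obtain ⟨c, hc⟩ : ∃ c : ℝ, c = Pool.Agent.J4H34.HF.cond (N i) (μ i) T := ⟨_, rfl⟩
  have hN := hP.one_le (hD i)
  have hc1 : 1 ≤ c := by rw [hc]; exact Pool.Agent.J4H34.HF.cond_ge hN T
  have hlc0 : 0 ≤ Real.log c := Real.log_nonneg hc1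
  obtain ⟨hud, hgi, hgu⟩ := H1 (N i) (μ i) (Λ i) (hD i) T
  have hG := hud.hG
  have hℓc : lT (N i) (μ i) T = Real.log c / 2 := by rw [lT, hc]
  simp only
  rw [← hc]
  have hexp : c ^ (max (κ - r) 0 ^ 2 / (4 * κ) + ε0) =
      Real.exp (Real.log c * (max (κ - r) 0 ^ 2 / (4 * κ) + ε0)) := by
    rw [Real.rpow_def_of_pos (by linarith)]
  rw [hexp, ← Real.exp_add]
  have hex0 : 0 ≤ max (κ - r) 0 ^ 2 / (4 * κ) := by positivity
  have hex1 : Real.log c * ε0 ≤ Real.log c * (max (κ - r) 0 ^ 2 / (4 * κ) + ε0) :=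
    mul_le_mul_of_nonneg_left (by linarith) hlc0
  have hlε : 0 ≤ Real.log c * ε0 := by positivity
  rcases lt_or_ge (Real.log c) ℓ0 with hs | hs
  · refine (small_bd hK1 hN hud hgi hr0 hr).trans ?_
    apply Real.exp_le_exp.2
    rw [hℓc]
    have := le_abs_self ℓ0
    linarith
  · have hmj := HM i T (by rw [← hc]; exact hs) r hr0 (by linarith)
    have hE : ‖fT (N i) (Λ i) T r‖ ≤ GT (N i) (μ i) T * Real.exp (lT (N i) (μ i) T * r + ε0 * lT (N i) (μ i) T) := by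
      refine hmj.trans (le_of_eq ?_)
      congr 2
      ring
    refine (gen_bd hK1 hN hud hgi hr0 hr hE).trans ?_
    apply Real.exp_le_exp.2
    rw [hℓc]
    have := abs_nonneg ℓ0
    linarith

/-- subconvexity gives all zeros on the line -/
theorem line_to_allon (hR : S_RECT) (hF : S_FWD2) (hP : Cls m X0 P) {ι : Type}
    {N : ι → ℝ} {μ : ι → Fin m → ℂ} {Λ : ι → ℂ → ℂ}
    (hD : ∀ i, P (N i) (μ i) (Λ i)) {θ : ℝ} (hθ : 0 ≤ θ) (hθ1 : θ ≤ 1 / 4)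
    (h : LineBound (fun i => Lf (μ i) (Λ i)) (fun i => Pool.Agent.J4H34.HF.cond (N i) (μ i)) θ)
    {κ : ℝ} (hκ : 1 < κ * (2 - 4 * θ)) :
    AllOn (fun i => Xi (N i) (Λ i)) (fun i => Pool.Agent.J4H34.HF.cond (N i) (μ i)) κ := by
  obtain ⟨K1, K2, hK1, H1, H2⟩ := hP.aut
  obtain ⟨p, hp⟩ : ∃ p : ℝ, p = κ * (2 - 4 * θ) - 1 := ⟨_, rfl⟩
  have hp0 : 0 < p := by linarith
  obtain ⟨η, hη⟩ : ∃ η : ℝ, η = min (p / 16) (1 / 2) := ⟨_, rfl⟩
  have hη0 : 0 < η := by rw [hη]; exact lt_min (by positivity) (by norm_num)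
  have hηp : η ≤ p / 16 := by rw [hη]; exact min_le_left _ _
  have hη1 : η ≤ 1 / 2 := by rw [hη]; exact min_le_right _ _
  obtain ⟨g, hg⟩ : ∃ g : ℝ, g = min (p / 4) 1 := ⟨_, rfl⟩
  have hg0 : 0 < g := by rw [hg]; exact lt_min (by positivity) one_pos
  have hgp : g ≤ p / 4 := by rw [hg]; exact min_le_left _ _
  have hg1 : g ≤ 1 := by rw [hg]; exact min_le_right _ _
  have hκ0 : 0 < κ := by
    by_contra hcon
    push Not at hcon
    have : κ * (2 - 4 * θ) ≤ 0 := mul_nonpos_of_nonpos_of_nonneg hcon (by linarith)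
    linarith
  obtain ⟨κf, Rf, ℓf, hκf, HF⟩ := hF K1 (3 / 2) (1 / 2 + η) (2 * θ) g X0 hK1 (by norm_num) (by norm_num)
    (by linarith) (by linarith) (by linarith) (by linarith) hg0 hg1 (by linarith [hP.hX0])
  obtain ⟨ℓm, HM⟩ := line_mj hR hP hD hθ hθ1 h hη0 (by linarith) hκf
  obtain ⟨R', hR'⟩ : ∃ R' : ℝ, R' = max Rf 1 := ⟨_, rfl⟩
  have hR'1 : 1 ≤ R' := by rw [hR']; exact le_max_right _ _
  have hRR' : Rf ≤ R' := by rw [hR']; exact le_max_left _ _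
  obtain ⟨ℓc, HP⟩ := H2 κf η R' hκf hη0 (by linarith) hR'1
  obtain ⟨C₁, HC⟩ := hP.late
  refine ⟨2 * |ℓf| + |ℓm| + 2 * |ℓc| + |C₁| + 1, ?_⟩
  intro i s τ hC hτ0 hτ1 hκτ hz
  simp only at hC hκτ hz
  obtain ⟨c, hc⟩ : ∃ c : ℝ, c = Pool.Agent.J4H34.HF.cond (N i) (μ i) s.im := ⟨_, rfl⟩
  rw [← hc] at hC hκτ
  have a1 := abs_nonneg ℓf
  have a2 := abs_nonneg ℓm
  have a3 := abs_nonneg ℓc
  have a4 := abs_nonneg C₁
  have b1 := le_abs_self ℓf
  have b2 := le_abs_self ℓm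
  have b3 := le_abs_self ℓc
  have b4 := le_abs_self C₁
  have hNi := hP.one_le (hD i)
  have hlc : 0 < Real.log c := by linarith
  have hℓc : lT (N i) (μ i) s.im = Real.log c / 2 := by rw [lT, hc]
  rcases lt_or_ge X0 (τ * Real.log c) with h2 | h2
  · exact HC (N i) (μ i) (Λ i) (hD i) τ s.im hτ0 hτ1 (by rw [← hc]; linarith)
        (by rw [← hc]; exact h2.le) s (by simp) hz
  by_contra hne
  obtain ⟨hud, hgi, hgu⟩ := H1 (N i) (μ i) (Λ i) (hD i) s.im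
  have hpf := HP (N i) (μ i) (Λ i) (hD i) s.im (by rw [hℓc]; linarith)
  have hst := hP.strip (hD i) hτ0 hz
  have hx : s.re - 1 / 2 ≠ 0 := fun h0 => hne (by linarith)
  have h3 := HF (lT (N i) (μ i) s.im) (GT (N i) (μ i) s.im) τ (fT (N i) (Λ i) s.im)
    (by rw [hℓc]; linarith) hud (Pf_mono hpf hRR') (HM i s.im (by rw [← hc]; linarith)) hτ0 (by
      have e1 : 2 * τ * lT (N i) (μ i) s.im = τ * Real.log c := by rw [hℓc]; ring
      rw [e1]
      have h4 : (2 * (1 / 2 + η) - 2 * θ) * κ ≤ (2 * (1 / 2 + η) - 2 * θ) * (τ * Real.log c) :=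
        mul_le_mul_of_nonneg_left hκτ (by linarith)
      have h5 : 2 * (1 / 2 + η) ^ 2 + g ≤ (2 * (1 / 2 + η) - 2 * θ) * κ := by
        have h6 : 0 ≤ η * κ := by positivity
        nlinarith
      linarith) (by rw [hℓc]; linarith) (s.re - 1 / 2) hx (by linarith)
  apply h3
  have e2 : s = (1 / 2 + (s.im : ℂ) * I) + ((s.re - 1 / 2 : ℝ) : ℂ) := by
    apply Complex.ext <;> simp
  rw [e2, heat_eq hτ0] at hz
  exact hz

end Pool.Agent.J4H1.LG
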