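import Pool.Agent.J4H1.LG.D

/-!
# Project LG: the equivalences for families
-/

set_option autoImplicit false

open Complex MeasureTheory Filter Topology Set
open scoped ComplexConjugate

namespace Pool.Agent.J4H1.LG

open Pool.Agent.W169.HF (UD Pf Mj Cnt phx Slow S_HLO S_HUP S_INVX S_TCZ S_NET S_RECT S_FWD2 S_FWD S_BWD)
open Pool.Agent.J4H1.LH
open Pool.Agent.J4H34.HF (Xi)

/-- all the statements used -/
structure AllS : Prop where
  off : S_OFF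
  tcz : S_TCZ
  hup : S_HUP
  hlo : S_HLO
  invx : S_INVX
  net : S_NET
  rect : S_RECT
  fwd2 : S_FWD2
  fwd : S_FWD
  bwd : S_BWD

/-- no zeros to the right of `1/2 + ϑ` for large conductors -/
def ZeroFree {ι : Type} (X : ι → ℂ → ℂ) (C : ι → ℝ → ℝ) (ϑ : ℝ) : Prop :=
  ∃ C₀ : ℝ, ∀ (i : ι) (s : ℂ), C₀ ≤ Real.log (C i s.im) → 1 / 2 + ϑ < s.re → X i s ≠ 0

lemma size_to_line {ι : Type} {L : ι → ℂ → ℂ} {C : ι → ℝ → ℝ} {κ : ℝ} (hκ : 0 < κ) (h : Size L C κ) :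
    LineBound L C (κ / 4) := by
  intro ε hε
  obtain ⟨B, HB⟩ := h ε hε
  refine ⟨B, fun i t => ?_⟩
  have h1 := HB i t 0 le_rfl (by norm_num)
  have e1 : (1 / 2 + ((0 : ℝ) : ℂ) + (t : ℂ) * I) = 1 / 2 + t * I := by push_cast; ring
  have e2 : max (κ - 0) 0 ^ 2 / (4 * κ) = κ / 4 := by
    rw [sub_zero, max_eq_left hκ.le]
    field_simp
  rw [e1, e2] at h1
  exact h1

lemma line_mono {ι : Type} {L : ι → ℂ → ℂ} {C : ι → ℝ → ℝ} (hC : ∀ i t, 1 ≤ C i t) {θ θ' : ℝ}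
    (hθ : θ ≤ θ') (h : LineBound L C θ) : LineBound L C θ' := by
  intro ε hε
  obtain ⟨B, HB⟩ := h ε hε
  refine ⟨|B|, fun i t => (HB i t).trans ?_⟩
  have h1 : C i t ^ (θ + ε) ≤ C i t ^ (θ' + ε) := Real.rpow_le_rpow_of_exponent_le (hC i t) (by linarith)
  have h2 : 0 ≤ C i t ^ (θ + ε) := Real.rpow_nonneg (by linarith [hC i t]) _
  calc B * C i t ^ (θ + ε) ≤ |B| * C i t ^ (θ + ε) := mul_le_mul_of_nonneg_right (le_abs_self _) h2
    _ ≤ |B| * C i t ^ (θ' + ε) := mul_le_mul_of_nonneg_left h1 (abs_nonneg _)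

section fam

variable {m : ℕ} {X0 : ℝ} {P : ℝ → (Fin m → ℂ) → (ℂ → ℂ) → Prop} {ι : Type} {N : ι → ℝ}
  {μ : ι → Fin m → ℂ} {Λ : ι → ℂ → ℂ}

lemma allon_to_few (hP : Cls m X0 P) (hD : ∀ i, P (N i) (μ i) (Λ i)) {κ κ' : ℝ} (hκ : κ < κ') (hκ' : 0 < κ')
    (h : AllOn (fun i => Xi (N i) (Λ i)) (fun i => Pool.Agent.J4H34.HF.cond (N i) (μ i)) κ) :
    Few (fun i => Xi (N i) (Λ i)) (fun i => Pool.Agent.J4H34.HF.cond (N i) (μ i)) κ' 0 := by
  obtain ⟨C₀, H⟩ := h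
  intro ε0 hε0
  obtain ⟨w, hw⟩ : ∃ w : ℝ, w = m * Real.log 2 := ⟨_, rfl⟩
  have hw0 : 0 ≤ w := by
    rw [hw]; exact mul_nonneg (Nat.cast_nonneg m) (Real.log_nonneg (by norm_num))
  refine ⟨|C₀| + w + κ' * w / (κ' - κ) + 1, ?_⟩
  intro i T τ hC hτ0 hτ1 hκτ
  simp only at hC hκτ ⊢
  obtain ⟨c, hc⟩ : ∃ c : ℝ, c = Pool.Agent.J4H34.HF.cond (N i) (μ i) T := ⟨_, rfl⟩
  rw [← hc] at hC hκτ ⊢
  have hκd : 0 < κ' - κ := by linarith
  have q1 : 0 ≤ κ' * w / (κ' - κ) := by positivity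
  have a1 := abs_nonneg C₀
  have b1 := le_abs_self C₀
  have hlc : 0 < Real.log c := by linarith
  have hlw : κ' * w ≤ (κ' - κ) * Real.log c := by
    have : κ' * w / (κ' - κ) ≤ Real.log c := by linarith
    rw [div_le_iff₀ hκd] at this
    linarith
  intro S hS
  have hS0 : S = ∅ := by
    rw [Finset.eq_empty_iff_forall_notMem]
    intro s hs
    obtain ⟨h3, h4, -, h5⟩ := hS s hs
    apply h4
    have h6 := log_cond_shift' (μ := μ i) (hP.one_le (hD i)) T (s.im - T)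
    rw [add_sub_cancel, ← hc] at h6
    have h7 : m * Real.log (1 + |s.im - T|) ≤ w := by
      rw [hw]
      apply mul_le_mul_of_nonneg_left _ (Nat.cast_nonneg m)
      exact Real.log_le_log (by positivity) (by linarith)
    refine H i s τ (by simp only; linarith) hτ0 hτ1 ?_ h3
    simp only
    -- `τ log C(s.im) ≥ τ (log c - w) ≥ κ`
    have h8 : τ * (Real.log c - w) ≤ τ * Real.log (Pool.Agent.J4H34.HF.cond (N i) (μ i) s.im) :=
      mul_le_mul_of_nonneg_left (by linarith) hτ0.le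
    have h9 : 0 ≤ Real.log c - w := by linarith
    have h10 : κ * Real.log c ≤ κ' * (Real.log c - w) := by nlinarith
    have h11 : κ' * (Real.log c - w) ≤ τ * Real.log c * (Real.log c - w) :=
      mul_le_mul_of_nonneg_right hκτ h9
    have h12 : κ * Real.log c ≤ τ * (Real.log c - w) * Real.log c := by nlinarith
    have h13 := le_of_mul_le_mul_right h12 hlc
    linarith
  rw [hS0, Finset.sum_empty]
  positivity

/-- zero-free half-planes give zeros of the flow on the line -/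
theorem zf_to_allon (hA : AllS) (hP : Cls m X0 P)
    (hD : ∀ i, P (N i) (μ i) (Λ i)) {ϑ κ : ℝ} (hϑ : 0 ≤ ϑ) (hϑ1 : ϑ ≤ 1 / 2)
    (hκ : 2 * ϑ < κ) (h : ZeroFree (fun i => Xi (N i) (Λ i))
      (fun i => Pool.Agent.J4H34.HF.cond (N i) (μ i)) ϑ) :
    AllOn (fun i => Xi (N i) (Λ i)) (fun i => Pool.Agent.J4H34.HF.cond (N i) (μ i)) κ := by
  obtain ⟨K1, K2, hK1, H1, H2⟩ := hP.aut
  obtain ⟨C₀, H⟩ := h
  obtain ⟨R, ℓf, HF⟩ := hA.fwd K1 (3 / 2) ϑ (κ - 2 * ϑ) X0 hK1 (by norm_num) (by norm_num) hϑ (by linarith)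
    (by linarith) (by linarith [hP.hX0])
  obtain ⟨C₁, HC⟩ := hP.late
  obtain ⟨w, hw⟩ : ∃ w : ℝ, w = m * Real.log (1 + |R|) := ⟨_, rfl⟩
  have hw0 : 0 ≤ w := by
    rw [hw]
    exact mul_nonneg (Nat.cast_nonneg m) (Real.log_nonneg (by linarith [abs_nonneg R]))
  refine ⟨2 * |ℓf| + |C₁| + |C₀| + w + 1, ?_⟩
  intro i s τ hC hτ0 hτ1 hκτ hz
  simp only at hC hκτ hz
  obtain ⟨c, hc⟩ : ∃ c : ℝ, c = Pool.Agent.J4H34.HF.cond (N i) (μ i) s.im := ⟨_, rfl⟩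
  rw [← hc] at hC hκτ
  have a1 := abs_nonneg ℓf
  have a3 := abs_nonneg C₀
  have a4 := abs_nonneg C₁
  have b1 := le_abs_self ℓf
  have b3 := le_abs_self C₀
  have b4 := le_abs_self C₁
  have hNi := hP.one_le (hD i)
  have hlc : 0 < Real.log c := by linarith
  have hℓc : lT (N i) (μ i) s.im = Real.log c / 2 := by rw [lT, hc]
  rcases lt_or_ge X0 (τ * Real.log c) with h2 | h2
  · exact HC (N i) (μ i) (Λ i) (hD i) τ s.im hτ0 hτ1 (by rw [← hc]; linarith)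
        (by rw [← hc]; exact h2.le) s (by simp) hz
  by_contra hne
  obtain ⟨hud, hgi, hgu⟩ := H1 (N i) (μ i) (Λ i) (hD i) s.im
  have hst := hP.strip (hD i) hτ0 hz
  have hx : s.re - 1 / 2 ≠ 0 := fun h0 => hne (by linarith)
  have h3 := HF (lT (N i) (μ i) s.im) (GT (N i) (μ i) s.im) τ (fT (N i) (Λ i) s.im)
    (by rw [hℓc]; linarith) hud hτ0 (by rw [hℓc]; linarith) (by rw [hℓc]; linarith) (by
      intro u hu1 hu2
      refine H i (1 / 2 + s.im * I + u) ?_ ?_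
      · have him : (1 / 2 + (s.im : ℂ) * I + u).im = s.im + u.im := by simp
        simp only
        rw [him]
        have h6 := log_cond_shift' (μ := μ i) hNi s.im u.im
        rw [← hc] at h6
        have h7 : m * Real.log (1 + |u.im|) ≤ w := by
          rw [hw]
          apply mul_le_mul_of_nonneg_left _ (Nat.cast_nonneg m)
          exact Real.log_le_log (by positivity) (by linarith [le_abs_self R])
        linarith
      · have hre : (1 / 2 + (s.im : ℂ) * I + u).re = 1 / 2 + u.re := by simp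
        rw [hre]
        linarith) (s.re - 1 / 2) hx (by linarith)
  apply h3
  have e2 : s = (1 / 2 + (s.im : ℂ) * I) + ((s.re - 1 / 2 : ℝ) : ℂ) := by
    apply Complex.ext <;> simp
  rw [e2, heat_eq hτ0] at hz
  exact hz

/-- zeros of the flow on the line give zero-free half-planes -/
theorem allon_to_zf (hA : AllS) (hP : Cls m X0 P)
    (hD : ∀ i, P (N i) (μ i) (Λ i)) {κ κ' : ℝ} (hκ : κ < κ') (hκ' : 0 < κ')
    (h : AllOn (fun i => Xi (N i) (Λ i)) (fun i => Pool.Agent.J4H34.HF.cond (N i) (μ i)) κ) :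
    ZeroFree (fun i => Xi (N i) (Λ i)) (fun i => Pool.Agent.J4H34.HF.cond (N i) (μ i)) κ' := by
  obtain ⟨K1, K2, hK1, H1, H2⟩ := hP.aut
  obtain ⟨C₀, H⟩ := h
  -- `κ < κ1 < κ'`, `0 < κ1`
  obtain ⟨κ1, hκ1⟩ : ∃ κ1 : ℝ, κ1 = (max κ 0 + κ') / 2 := ⟨_, rfl⟩
  have hmx : max κ 0 < κ' := max_lt hκ hκ'
  have hmx0 : 0 ≤ max κ 0 := le_max_right _ _
  have hmxκ : κ ≤ max κ 0 := le_max_left _ _
  have hκ10 : 0 < κ1 := by linarith
  have hκκ1 : κ < κ1 := by linarith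
  have hκ1κ' : κ1 < κ' := by linarith
  obtain ⟨g, hg⟩ : ∃ g : ℝ, g = min κ1 (κ' - κ1) := ⟨_, rfl⟩
  have hg0 : 0 < g := by rw [hg]; exact lt_min hκ10 (by linarith)
  have hg1 : g ≤ κ1 := by rw [hg]; exact min_le_left _ _
  have hg2 : g ≤ κ' - κ1 := by rw [hg]; exact min_le_right _ _
  obtain ⟨R, ℓf, HF⟩ := hA.bwd K1 (3 / 2) g (max κ1 1) hK1 (by norm_num) (by norm_num) hg0
    (le_max_right _ _)
  obtain ⟨w, hw⟩ : ∃ w : ℝ, w = m * Real.log (1 + |R|) := ⟨_, rfl⟩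
  have hw0 : 0 ≤ w := by
    rw [hw]
    exact mul_nonneg (Nat.cast_nonneg m) (Real.log_nonneg (by linarith [abs_nonneg R]))
  refine ⟨2 * |ℓf| + |C₀| + w + κ1 + κ1 * w / (κ1 - κ) + 1, ?_⟩
  intro i s hC hs
  simp only at hC ⊢
  obtain ⟨c, hc⟩ : ∃ c : ℝ, c = Pool.Agent.J4H34.HF.cond (N i) (μ i) s.im := ⟨_, rfl⟩
  rw [← hc] at hC
  have hκd : 0 < κ1 - κ := by linarith
  have q1 : 0 ≤ κ1 * w / (κ1 - κ) := by positivity
  have a1 := abs_nonneg ℓf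
  have a3 := abs_nonneg C₀
  have b1 := le_abs_self ℓf
  have b3 := le_abs_self C₀
  have hNi := hP.one_le (hD i)
  have hlc : 0 < Real.log c := by linarith
  have hlw : κ1 * w ≤ (κ1 - κ) * Real.log c := by
    have : κ1 * w / (κ1 - κ) ≤ Real.log c := by linarith
    rw [div_le_iff₀ hκd] at this
    linarith
  have hℓc : lT (N i) (μ i) s.im = Real.log c / 2 := by rw [lT, hc]
  -- far to the right
  rcases lt_or_ge 1 s.re with h1 | h1
  · exact hP.re1 (hD i) s h1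
  obtain ⟨τ, hτ⟩ : ∃ τ : ℝ, τ = κ1 / Real.log c := ⟨_, rfl⟩
  have hτ0 : 0 < τ := by rw [hτ]; positivity
  have hτ1 : τ ≤ 1 := by rw [hτ, div_le_one hlc]; linarith
  have hτc : τ * Real.log c = κ1 := by rw [hτ]; field_simp
  have h2tℓ : 2 * τ * lT (N i) (μ i) s.im = κ1 := by rw [hℓc, ← hτc]; ring
  obtain ⟨hud, hgi, hgu⟩ := H1 (N i) (μ i) (Λ i) (hD i) s.im
  have h3 := HF (lT (N i) (μ i) s.im) (GT (N i) (μ i) s.im) τ (fT (N i) (Λ i) s.im)
    (by rw [hℓc]; linarith) hud hτ0 (by rw [h2tℓ]; exact hg1) (by rw [h2tℓ]; exact le_max_left _ _) (by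
      intro u hu1 hu2 hu3
      have h4 : Pool.Agent.J4H34.HF.heat τ (Xi (N i) (Λ i)) (1 / 2 + s.im * I + u) = 0 := by
        rw [heat_eq hτ0]; exact hu3
      have him : (1 / 2 + (s.im : ℂ) * I + u).im = s.im + u.im := by simp
      have hre : (1 / 2 + (s.im : ℂ) * I + u).re = 1 / 2 + u.re := by simp
      have h6 := log_cond_shift' (μ := μ i) hNi s.im u.im
      rw [← hc] at h6
      have h7 : m * Real.log (1 + |u.im|) ≤ w := by
        rw [hw]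
        apply mul_le_mul_of_nonneg_left _ (Nat.cast_nonneg m)
        exact Real.log_le_log (by positivity) (by linarith [le_abs_self R])
      have h8 := H i (1 / 2 + s.im * I + u) τ (by simp only; rw [him]; linarith) hτ0 hτ1 (by
        simp only
        rw [him]
        have h8 : τ * (Real.log c - w) ≤ τ * Real.log (Pool.Agent.J4H34.HF.cond (N i) (μ i) (s.im + u.im)) :=
          mul_le_mul_of_nonneg_left (by linarith) hτ0.le
        have h9 : τ * w ≤ κ1 - κ := by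
          rw [hτ, div_mul_eq_mul_div, div_le_iff₀ hlc]
          exact hlw
        nlinarith) h4
      rw [hre] at h8
      linarith) (s.re - 1 / 2) (by rw [h2tℓ]; linarith) (by linarith)
  intro h0
  apply h3
  unfold fT
  have e2 : (1 / 2 + (s.im : ℂ) * I) + ((s.re - 1 / 2 : ℝ) : ℂ) = s := by
    apply Complex.ext <;> simp
  rw [e2]
  exact h0

/-- the equivalence with the size -/
theorem size_iff (hA : AllS) (hP : Cls m X0 P)
    (hD : ∀ i, P (N i) (μ i) (Λ i)) {κ : ℝ} (hκ : 0 < κ) :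
    (Size (fun i => Lf (μ i) (Λ i)) (fun i => Pool.Agent.J4H34.HF.cond (N i) (μ i)) κ ↔
      ∀ κ' : ℝ, κ < κ' → Few (fun i => Xi (N i) (Λ i))
        (fun i => Pool.Agent.J4H34.HF.cond (N i) (μ i)) κ' 0) ∧
    (Size (fun i => Lf (μ i) (Λ i)) (fun i => Pool.Agent.J4H34.HF.cond (N i) (μ i)) κ ↔
      ∀ κ' : ℝ, κ < κ' → ∀ δ : ℝ, 0 < δ → Few (fun i => Xi (N i) (Λ i))
        (fun i => Pool.Agent.J4H34.HF.cond (N i) (μ i)) κ' δ) := by
  have h1 := fun (h : Size (fun i => Lf (μ i) (Λ i)) (fun i => Pool.Agent.J4H34.HF.cond (N i) (μ i)) κ)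
    (κ' : ℝ) (hκ' : κ < κ') => size_to_few hA.off hA.net hP hD hκ hκ' h
  have h2 := fun h => few_to_size hA.tcz hA.hup hA.hlo hA.invx hP hD hκ h
  exact ⟨⟨h1, fun h => h2 fun κ' hκ' δ hδ => Few_mono (h κ' hκ') le_rfl hδ.le⟩,
    ⟨fun h κ' hκ' δ hδ => Few_mono (h1 h κ' hκ') le_rfl hδ.le, h2⟩⟩

lemma cond_one (hP : Cls m X0 P) (hD : ∀ i, P (N i) (μ i) (Λ i)) (i : ι) (t : ℝ) :
    1 ≤ Pool.Agent.J4H34.HF.cond (N i) (μ i) t := Pool.Agent.J4H34.HF.cond_ge (hP.one_le (hD i)) t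

/-- the criterion for the Lindelöf hypothesis -/
theorem lindelof_iff (hA : AllS) (hP : Cls m X0 P)
    (hD : ∀ i, P (N i) (μ i) (Λ i)) :
    (LineBound (fun i => Lf (μ i) (Λ i)) (fun i => Pool.Agent.J4H34.HF.cond (N i) (μ i)) 0 ↔
      ∀ κ : ℝ, 0 < κ → Few (fun i => Xi (N i) (Λ i))
        (fun i => Pool.Agent.J4H34.HF.cond (N i) (μ i)) κ 0) ∧
    (LineBound (fun i => Lf (μ i) (Λ i)) (fun i => Pool.Agent.J4H34.HF.cond (N i) (μ i)) 0 ↔
      ∀ κ : ℝ, 0 < κ → ∀ δ : ℝ, 0 < δ → Few (fun i => Xi (N i) (Λ i))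
        (fun i => Pool.Agent.J4H34.HF.cond (N i) (μ i)) κ δ) := by
  have h1 : LineBound (fun i => Lf (μ i) (Λ i)) (fun i => Pool.Agent.J4H34.HF.cond (N i) (μ i)) 0 →
      ∀ κ : ℝ, 0 < κ → Few (fun i => Xi (N i) (Λ i))
        (fun i => Pool.Agent.J4H34.HF.cond (N i) (μ i)) κ 0 := by
    intro h κ hκ
    have h2 := line_to_size hA.rect hP hD h (κ := κ / 2) (by positivity)
    exact (size_iff hA hP hD (κ := κ / 2) (by positivity)).1.1 h2 κ (by linarith)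
  have h2 : (∀ κ : ℝ, 0 < κ → ∀ δ : ℝ, 0 < δ → Few (fun i => Xi (N i) (Λ i))
        (fun i => Pool.Agent.J4H34.HF.cond (N i) (μ i)) κ δ) →
      LineBound (fun i => Lf (μ i) (Λ i)) (fun i => Pool.Agent.J4H34.HF.cond (N i) (μ i)) 0 := by
    intro h ε0 hε0
    have h3 := (size_iff hA hP hD (κ := 2 * ε0) (by positivity)).2.2
      (fun κ' hκ' δ hδ => h κ' (by linarith) δ hδ)
    have h4 := size_to_line (by positivity) h3
    obtain ⟨B, HB⟩ := h4 (ε0 / 2) (by positivity)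
    refine ⟨B, fun i t => ?_⟩
    have h5 := HB i t
    have e : 2 * ε0 / 4 + ε0 / 2 = 0 + ε0 := by ring
    rw [e] at h5
    exact h5
  exact ⟨⟨h1, fun h => h2 fun κ hκ δ hδ => Few_mono (h κ hκ) le_rfl hδ.le⟩,
    ⟨fun h κ hκ δ hδ => Few_mono (h1 h κ hκ) le_rfl hδ.le, h2⟩⟩

/-- the criterion for subconvexity -/
theorem subconvex_iff (hA : AllS) (hP : Cls m X0 P)
    (hD : ∀ i, P (N i) (μ i) (Λ i)) :
    ((∃ θ : ℝ, θ < 1 / 4 ∧ LineBound (fun i => Lf (μ i) (Λ i))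
        (fun i => Pool.Agent.J4H34.HF.cond (N i) (μ i)) θ) ↔
      ∃ κ : ℝ, κ < 1 ∧ AllOn (fun i => Xi (N i) (Λ i))
        (fun i => Pool.Agent.J4H34.HF.cond (N i) (μ i)) κ) ∧
    ((∃ θ : ℝ, θ < 1 / 4 ∧ LineBound (fun i => Lf (μ i) (Λ i))
        (fun i => Pool.Agent.J4H34.HF.cond (N i) (μ i)) θ) ↔
      ∃ κ : ℝ, κ < 1 ∧ ∀ δ : ℝ, 0 < δ → Few (fun i => Xi (N i) (Λ i))
        (fun i => Pool.Agent.J4H34.HF.cond (N i) (μ i)) κ δ) := by
  have h1 : (∃ θ : ℝ, θ < 1 / 4 ∧ LineBound (fun i => Lf (μ i) (Λ i))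
        (fun i => Pool.Agent.J4H34.HF.cond (N i) (μ i)) θ) →
      ∃ κ : ℝ, κ < 1 ∧ AllOn (fun i => Xi (N i) (Λ i))
        (fun i => Pool.Agent.J4H34.HF.cond (N i) (μ i)) κ := by
    rintro ⟨θ, hθ, h⟩
    have h2 := line_mono (cond_one hP hD) (le_max_left θ 0) h
    have h3 : max θ 0 < 1 / 4 := max_lt hθ (by norm_num)
    have h4 : 0 ≤ max θ 0 := le_max_right _ _
    obtain ⟨q, hq⟩ : ∃ q : ℝ, q = max θ 0 := ⟨_, rfl⟩
    rw [← hq] at h2 h3 h4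
    refine ⟨3 / 4 + q, by linarith, line_to_allon hA.rect hA.fwd2 hP hD h4 h3.le h2 ?_⟩
    nlinarith
  have h2 : (∃ κ : ℝ, κ < 1 ∧ AllOn (fun i => Xi (N i) (Λ i))
        (fun i => Pool.Agent.J4H34.HF.cond (N i) (μ i)) κ) →
      ∃ κ : ℝ, κ < 1 ∧ ∀ δ : ℝ, 0 < δ → Few (fun i => Xi (N i) (Λ i))
        (fun i => Pool.Agent.J4H34.HF.cond (N i) (μ i)) κ δ := by
    rintro ⟨κ, hκ, h⟩
    have hmx : max κ 0 < 1 := max_lt hκ one_pos
    have h3 : κ ≤ max κ 0 := le_max_left _ _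
    have h4 : 0 ≤ max κ 0 := le_max_right _ _
    refine ⟨(max κ 0 + 1) / 2, by linarith, fun δ hδ => ?_⟩
    exact Few_mono (allon_to_few hP hD (κ' := (max κ 0 + 1) / 2) (by linarith) (by linarith) h) le_rfl hδ.le
  have h3 : (∃ κ : ℝ, κ < 1 ∧ ∀ δ : ℝ, 0 < δ → Few (fun i => Xi (N i) (Λ i))
        (fun i => Pool.Agent.J4H34.HF.cond (N i) (μ i)) κ δ) →
      (∃ θ : ℝ, θ < 1 / 4 ∧ LineBound (fun i => Lf (μ i) (Λ i))
        (fun i => Pool.Agent.J4H34.HF.cond (N i) (μ i)) θ) := by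
    rintro ⟨κ, hκ, h⟩
    have hmx : max κ (1 / 2) < 1 := max_lt hκ (by norm_num)
    have h5 : κ ≤ max κ (1 / 2) := le_max_left _ _
    have h4 : 1 / 2 ≤ max κ (1 / 2) := le_max_right _ _
    refine ⟨max κ (1 / 2) / 4, by linarith, size_to_line (by linarith) ?_⟩
    exact (size_iff hA hP hD (by linarith)).2.2
      (fun κ' hκ' δ hδ => Few_mono (h δ hδ) (by linarith) le_rfl)
  exact ⟨⟨h1, fun h => h3 (h2 h)⟩, ⟨fun h => h2 (h1 h), h3⟩⟩

end fam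

end Pool.Agent.J4H1.LG
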