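import Pool.Agent.J4H1.LG.Sim

/-!
# Project LG: the final form of the criterion for all zeros of the flow
-/

set_option autoImplicit false

open Complex Set MeasureTheory Filter Topology
open scoped ComplexConjugate

namespace Pool.Agent.J4H1.LG

open Pool.Agent.J4H1.LH
open Pool.Agent.J4H1.JP (XX)
open Pool.Agent.J4H34.HF (Xi)

lemma AllS'.mono {ι : Type} {X : ι → ℂ → ℂ} {C : ι → ℝ → ℝ} {κ κ' : ℝ} (hκ : κ ≤ κ') (h : AllS' X C κ) :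
    AllS' X C κ' := by
  obtain ⟨C₀, H⟩ := h
  exact ⟨C₀, fun i s τ h1 h2 h3 h4 h5 => H i s τ h1 h2 h3 (by linarith) h5⟩

lemma alls_down {ι : Type} {X : ι → ℂ → ℂ} {C C' : ι → ℝ → ℝ} {κ : ℝ}
    (h1 : ∀ i t, Real.log (C' i t) ≤ Real.log (C i t)) (h : AllS' X C κ) : AllS' X C' κ := by
  obtain ⟨C₀, H⟩ := h
  refine ⟨C₀, fun i s τ hC hτ0 hτ1 hκτ hz => ?_⟩
  have h3 := h1 i s.im
  have h5 : τ * Real.log (C' i s.im) ≤ τ * Real.log (C i s.im) := mul_le_mul_of_nonneg_left h3 hτ0.le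
  exact H i s τ (by linarith) hτ0 hτ1 (by linarith) hz

section fam

variable {m : ℕ} {X0 : ℝ} {P : ℝ → (Fin m → ℂ) → (ℂ → ℂ) → Prop} {ι : Type} {N : ι → ℝ}
  {μ : ι → Fin m → ℂ} {Λ : ι → ℂ → ℂ}

/-- from all zeros on the line, for all `κ' > κ`, to simple zeros -/
theorem on_to_alls (hP : ClsS m X0 P) (hD : ∀ i, P (N i) (μ i) (Λ i)) {κ κ' : ℝ} (hκ : 0 < κ)
    (hκκ : κ < κ') (h : ∀ κ' : ℝ, κ < κ' → AllOn (fun i => Xi (N i) (Λ i))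
      (fun i => Pool.Agent.J4H34.HF.cond (N i) (μ i)) κ') :
    AllS' (fun i => Xi (N i) (Λ i)) (fun i => Pool.Agent.J4H34.HF.cond (N i) (μ i)) κ' :=
  (alls_iff allS sad prof hP hD hκ).2 ((allon_iff allS sad prof hP.toCls hD hκ).1 h) κ' hκκ

theorem line_to_alls (hP : ClsS m X0 P) (hD : ∀ i, P (N i) (μ i) (Λ i)) {θ κ : ℝ} (hθ : 0 ≤ θ)
    (hθ1 : θ ≤ 1 / 4) (hκ : 1 < κ * (2 - 4 * θ))
    (h : LineBound (fun i => Lf (μ i) (Λ i)) (fun i => Pool.Agent.J4H34.HF.cond (N i) (μ i)) θ) :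
    AllS' (fun i => Xi (N i) (Λ i)) (fun i => Pool.Agent.J4H34.HF.cond (N i) (μ i)) κ := by
  have h2 : 0 < 2 - 4 * θ := by linarith
  have h3 : 1 / (2 - 4 * θ) < κ := by rw [div_lt_iff₀ h2]; exact hκ
  refine on_to_alls hP hD (κ := 1 / (2 - 4 * θ)) (by positivity) h3 fun κ' hκ' => ?_
  rw [div_lt_iff₀ h2] at hκ'
  exact line_to_allon allS.rect allS.fwd2 hP.toCls hD hθ hθ1 h hκ'

theorem zf_to_alls (hP : ClsS m X0 P) (hD : ∀ i, P (N i) (μ i) (Λ i)) {ϑ κ : ℝ} (hϑ : 0 ≤ ϑ)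
    (hϑ1 : ϑ ≤ 1 / 2) (hκ : 2 * ϑ < κ) (h : ZeroFree (fun i => Xi (N i) (Λ i))
      (fun i => Pool.Agent.J4H34.HF.cond (N i) (μ i)) ϑ) :
    AllS' (fun i => Xi (N i) (Λ i)) (fun i => Pool.Agent.J4H34.HF.cond (N i) (μ i)) κ := by
  refine on_to_alls hP hD (κ := (2 * ϑ + κ) / 2) (by linarith) (by linarith) fun κ' hκ' => ?_
  exact zf_to_allon allS hP.toCls hD hϑ hϑ1 (by linarith) h

theorem subconvex_alls (hP : ClsS m X0 P) (hD : ∀ i, P (N i) (μ i) (Λ i)) :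
    (∃ θ : ℝ, θ < 1 / 4 ∧ LineBound (fun i => Lf (μ i) (Λ i))
        (fun i => Pool.Agent.J4H34.HF.cond (N i) (μ i)) θ) ↔
      ∃ κ : ℝ, κ < 1 ∧ AllS' (fun i => Xi (N i) (Λ i))
        (fun i => Pool.Agent.J4H34.HF.cond (N i) (μ i)) κ := by
  constructor
  · intro h
    obtain ⟨κ, hκ, H⟩ := (subconvex_iff allS hP.toCls hD).1.1 h
    have hmx : max κ 0 < 1 := max_lt hκ one_pos
    have h3 : κ ≤ max κ 0 := le_max_left _ _
    have h4 : 0 ≤ max κ 0 := le_max_right _ _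
    obtain ⟨C₀, HC⟩ := H
    refine ⟨(max κ 0 + 3) / 4, by linarith, ?_⟩
    refine on_to_alls hP hD (κ := (max κ 0 + 1) / 2) (by linarith) (by linarith) fun κ' hκ' => ?_
    exact ⟨C₀, fun i s τ q1 q2 q3 q4 q5 => HC i s τ q1 q2 q3 (by linarith) q5⟩
  · rintro ⟨κ, hκ, H⟩
    exact (subconvex_iff allS hP.toCls hD).1.2 ⟨κ, hκ, H.on⟩

theorem quasi_alls (hP : ClsS m X0 P) (hD : ∀ i, P (N i) (μ i) (Λ i)) :
    (∀ ϑ : ℝ, 0 < ϑ → ZeroFree (fun i => Xi (N i) (Λ i))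
      (fun i => Pool.Agent.J4H34.HF.cond (N i) (μ i)) ϑ) ↔
    ∀ κ : ℝ, 0 < κ → AllS' (fun i => Xi (N i) (Λ i))
      (fun i => Pool.Agent.J4H34.HF.cond (N i) (μ i)) κ := by
  constructor
  · intro h κ hκ
    have h1 : 0 < min (κ / 4) (1 / 2) := lt_min (by positivity) (by norm_num)
    have h2 : min (κ / 4) (1 / 2) ≤ κ / 4 := min_le_left _ _
    exact zf_to_alls hP hD h1.le (min_le_right _ _) (by linarith) (h _ h1)
  · intro h ϑ hϑ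
    exact allon_to_zf allS hP.toCls hD (κ := ϑ / 2) (by linarith) hϑ (h (ϑ / 2) (by positivity)).on

end fam

/-! ### zeta -/

theorem zeta_alls_iff {κ : ℝ} (hκ : 0 < κ) : (∀ κ' : ℝ, κ < κ' → AllS' XZ CT κ') ↔
    SizeZ κ ∧ ∀ ϑ : ℝ, κ < ϑ → ZeroFree XZ CT ϑ := by
  constructor
  · intro h
    exact (zeta_allon_iff hκ).1 fun κ' hκ' => (h κ' hκ').on
  · intro h κ' hκ'
    have h1 := (zeta_allon_iff hκ).2 h
    have h2 : ∀ κ' : ℝ, κ < κ' → AllOn (fun i : Unit => Xi ((fun _ : Unit => (1 : ℝ)) i) ((fun _ : Unit => XX) i))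
        CZ κ' := by
      intro κ' hκ'
      rw [XZ_eq]
      exact allon_up (κ := (κ + κ') / 2) log5 log_up (by linarith) (h1 _ (by linarith))
    have h3 := on_to_alls clsS_zeta hDZ hκ hκ' h2
    rw [XZ_eq] at h3
    exact alls_down log_lo h3

theorem zeta_on_to_alls {κ κ' : ℝ} (hκ : 0 < κ) (hκκ : κ < κ') (h : ∀ κ' : ℝ, κ < κ' → AllOn XZ CT κ') :
    AllS' XZ CT κ' := (zeta_alls_iff hκ).2 ((zeta_allon_iff hκ).1 h) κ' hκκ

theorem zeta_alls_uncond {κ : ℝ} (hκ : 27 / 40 < κ) : AllS' XZ CT κ :=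
  zeta_on_to_alls (κ := 27 / 40) (by norm_num) hκ fun _ hκ' => zeta_allon_uncond hκ'

/-- zeta satisfies a subconvex bound -/
theorem zeta_subconvex : ∃ θ : ℝ, 0 ≤ θ ∧ θ < 1 / 4 ∧ LineZ θ := by
  have h0 : AllOn XZ CZ (8 / 10) := allon_up (κ := 7 / 10) log5 log_up (by norm_num)
    (zeta_allon_uncond (by norm_num))
  have h1 : AllOn (fun i : Unit => Xi ((fun _ : Unit => (1 : ℝ)) i) ((fun _ : Unit => XX) i)) CZ (8 / 10) := by
    rw [XZ_eq]; exact h0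
  obtain ⟨θ, hθ, H⟩ := (subconvex_iff allS clsZ hDZ).1.2 ⟨8 / 10, by norm_num, h1⟩
  refine ⟨max θ 0, le_max_right _ _, max_lt hθ (by norm_num), ?_⟩
  exact (lineZ_iff (le_max_right θ 0)).2 (line_mono (cond_one clsZ hDZ) (le_max_left θ 0) H)

end Pool.Agent.J4H1.LG
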