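import Pool.Agent.W816.HF.JU2
import Pool.Agent.W816.HF.JL2
import Pool.Agent.W131.HF.Fwd2
import Pool.Agent.W169.HF.DefsD

/-!
# Project LG: all zeros of the flow on the line from the size exponent `phx`

`b` is the beginning of the profile, `x` the size exponent; the time satisfies `2 t ℓ ≥ max x b + g`.
After the modules `Pool.Agent.W816.HF.JU2`, `Pool.Agent.W816.HF.JL2` and `Pool.Agent.W131.HF.Fwd2`.
-/

set_option autoImplicit false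

open Complex MeasureTheory Filter Topology Set
open scoped ComplexConjugate

namespace Pool.Agent.J4H1.LG

open Pool.Agent.W169.HF (UD Pf phx J heat S_SADL)

/-- majorant on the real segment `[0, b]` -/
def Mx (κ b x ℓ G : ℝ) (f : ℂ → ℂ) : Prop := ∀ r : ℝ, 0 ≤ r → r ≤ b →
  ‖f r‖ ≤ G * Real.exp (ℓ * phx x r + κ * ℓ)

/-- the quadratic inequality -/
lemma qx {b x g X τ r : ℝ} (hx : 0 < x) (hg : 0 < g) (hτX : τ ≤ X) (hr0 : 0 ≤ r)
    (hr1 : r ≤ b) (h1 : x + g ≤ τ) (h2 : b + g ≤ τ) :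
    g ^ 2 / (2 * X) ≤ (τ - r) ^ 2 / (2 * τ) - max (x - r) 0 ^ 2 / (2 * x) := by
  have hτ : 0 < τ := by linarith
  have hX : 0 < X := by linarith
  have h3 : g ^ 2 / (2 * X) ≤ g ^ 2 / (2 * τ) := by gcongr
  refine h3.trans ?_
  rcases le_or_gt x r with h | h
  · rw [max_eq_right (by linarith)]
    have h4 : g ^ 2 ≤ (τ - r) ^ 2 := pow_le_pow_left₀ hg.le (by linarith) 2
    have h5 : g ^ 2 / (2 * τ) ≤ (τ - r) ^ 2 / (2 * τ) := by gcongr
    simpa using h5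
  · rw [max_eq_left (by linarith)]
    have e : (τ - r) ^ 2 / (2 * τ) - (x - r) ^ 2 / (2 * x) = (τ - x) * (x * τ - r ^ 2) / (2 * x * τ) := by
      field_simp
      ring
    rw [e, div_le_div_iff₀ (by positivity) (by positivity)]
    have h4 : x * (τ - x) ≤ x * τ - r ^ 2 := by nlinarith
    have h5 : g ≤ τ - x := by linarith
    have h6 : g ^ 2 * x ≤ (τ - x) * (x * τ - r ^ 2) := by
      have h7 : g * g ≤ (τ - x) * (τ - x) := mul_self_le_mul_self hg.le h5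
      have h8 : (τ - x) * (x * (τ - x)) ≤ (τ - x) * (x * τ - r ^ 2) :=
        mul_le_mul_of_nonneg_left h4 (by linarith)
      nlinarith
    have h9 := mul_le_mul_of_nonneg_right h6 (by positivity : (0 : ℝ) ≤ 2 * τ)
    nlinarith

/-- the exponent near the origin -/
lemma qx2 {b x g X ζ t ℓ α r : ℝ} (hx : 0 < x) (hg : 0 < g) (hX : 0 < X) (ht : 0 < t) (hℓ : 0 < ℓ)
    (h2 : 2 * t * ℓ ≤ X) (hr0 : 0 ≤ r) (hr1 : r ≤ b) (h1 : x + g ≤ 2 * t * ℓ) (h1b : b + g ≤ 2 * t * ℓ)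
    (hζ : 0 ≤ ζ) (hζX : ζ * X ≤ g ^ 2 / (4 * X)) (hα : -(ζ * ℓ) ≤ α) :
    -(r ^ 2 / (4 * t)) + α * r + ℓ * phx x r ≤ t * (ℓ + α) ^ 2 - g ^ 2 / (4 * X) * ℓ := by
  obtain ⟨τ, hτd⟩ : ∃ τ : ℝ, τ = 2 * t * ℓ := ⟨_, rfl⟩
  have hτ : 0 < τ := by rw [hτd]; positivity
  rw [← hτd] at h1 h2 h1b
  have hq := qx (b := b) hx hg h2 hr0 hr1 h1 h1b
  obtain ⟨σ, hσd⟩ : ∃ σ : ℝ, σ = 2 * t * α := ⟨_, rfl⟩
  have hσ : -(ζ * τ) ≤ σ := by
    have := mul_le_mul_of_nonneg_left hα (by positivity : (0 : ℝ) ≤ 2 * t)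
    rw [hσd, hτd]
    linarith
  have hsq : (τ - r) ^ 2 - 2 * ζ * τ ^ 2 ≤ (τ + σ - r) ^ 2 := by
    have h3 : 0 ≤ τ - r := by linarith
    have h4 : -(ζ * τ) * (τ - r) ≤ σ * (τ - r) := mul_le_mul_of_nonneg_right hσ h3
    have h5 : ζ * τ * r ≥ 0 := by positivity
    nlinarith [sq_nonneg σ]
  have hdiv : (τ - r) ^ 2 / (2 * τ) - ζ * τ ≤ (τ + σ - r) ^ 2 / (2 * τ) := by
    have h3 : (τ - r) ^ 2 / (2 * τ) - ζ * τ = ((τ - r) ^ 2 - 2 * ζ * τ ^ 2) / (2 * τ) := by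
      field_simp
    rw [h3]
    gcongr
  have hζτ : ζ * τ ≤ g ^ 2 / (4 * X) := (mul_le_mul_of_nonneg_left h2 hζ).trans hζX
  have h288 : g ^ 2 / (2 * X) = g ^ 2 / (4 * X) + g ^ 2 / (4 * X) := by
    field_simp
    ring
  have hkey : max (x - r) 0 ^ 2 / (2 * x) + g ^ 2 / (4 * X) ≤ (τ + σ - r) ^ 2 / (2 * τ) := by linarith
  have hkey2 := mul_le_mul_of_nonneg_left hkey hℓ.le
  have e1 : ℓ * ((τ + σ - r) ^ 2 / (2 * τ)) = (r - 2 * t * (ℓ + α)) ^ 2 / (4 * t) := by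
    rw [hσd, hτd]
    field_simp
    ring
  have e2 : -(r ^ 2 / (4 * t)) + α * r + ℓ * r = t * (ℓ + α) ^ 2 - (r - 2 * t * (ℓ + α)) ^ 2 / (4 * t) := by
    field_simp
    ring
  rw [e1] at hkey2
  unfold phx
  nlinarith

/-- upper bound for the half-line integral with the majorant -/
theorem ju3 {K ϑ0 b x g X Y : ℝ} (hK : 1 ≤ K) (_hϑ01 : 1 / 2 ≤ ϑ0) (hϑ02 : ϑ0 ≤ 2)
    (hx : 0 < x) (hb3 : b ≤ 3) (hg : 0 < g) (hX : 1 ≤ X) (hY : 3 ≤ Y) :
    ∃ ζ0 : ℝ, 0 < ζ0 ∧ ∀ κ : ℝ, 0 < κ → ∃ ℓ0 : ℝ,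
      ∀ (ℓ G t : ℝ) (f : ℂ → ℂ), ℓ0 ≤ ℓ → UD K ϑ0 ℓ G f →
      Pf κ b (2 * X + 2 * Y + 4) ℓ G f → Mx κ b x ℓ G f → 0 < t →
      x + g ≤ 2 * t * ℓ → b + g ≤ 2 * t * ℓ → 2 * t * ℓ ≤ X →
      ∀ α : ℝ, 2 * t * α ≤ Y → -(ζ0 * ℓ) ≤ α →
      IntegrableOn (fun r : ℝ => Real.exp (-(r ^ 2 / (4 * t)) + α * r) * ‖f r‖) (Ioi 0) ∧
      ∫ r in Ioi (0 : ℝ), Real.exp (-(r ^ 2 / (4 * t)) + α * r) * ‖f r‖ ≤
        G * Real.exp (t * (ℓ + α) ^ 2 + 2 * κ * ℓ) := by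
  refine ⟨g ^ 2 / (4 * X ^ 2), by positivity, ?_⟩
  intro κ hκ
  refine ⟨max (8 * X * (2 * K + 1)) (max ((2 * X + 2 * Y + 4) / κ) 1), ?_⟩
  intro ℓ G t f hℓ hud hpf hmj ht hg2 hg3 hX2 α hα hα2
  have hℓ1 : 8 * X * (2 * K + 1) ≤ ℓ := (le_max_left _ _).trans hℓ
  have hℓ2 : (2 * X + 2 * Y + 4) / κ ≤ ℓ := ((le_max_left _ _).trans (le_max_right _ _)).trans hℓ
  have hℓ3 : 1 ≤ ℓ := ((le_max_right _ _).trans (le_max_right _ _)).trans hℓ
  rw [div_le_iff₀ hκ] at hℓ2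
  have hℓ0 : 0 < ℓ := by linarith
  have hG := hud.hG
  set R : ℝ := 2 * X + 2 * Y + 4 with hR
  set E : ℝ := t * (ℓ + α) ^ 2 with hE
  have hb : ∀ r ∈ Ioi (0 : ℝ), Real.exp (-(r ^ 2 / (4 * t)) + α * r) * ‖f r‖ ≤
      G * Real.exp (E + κ * ℓ + R) * Real.exp (-r) := by
    intro r hr
    rw [mem_Ioi] at hr
    rcases le_or_gt r R with h1 | h1
    · have hbb : ∃ b : ℝ, ‖f r‖ ≤ G * Real.exp (b + κ * ℓ) ∧
          -(r ^ 2 / (4 * t)) + α * r + b ≤ E := by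
        rcases le_or_gt r b with h2 | h2
        · refine ⟨ℓ * phx x r, hmj r hr.le h2, ?_⟩
          have h3 := qx2 (b := b) (ζ := g ^ 2 / (4 * X ^ 2)) (α := α) hx hg (by linarith) ht hℓ0 hX2
            hr.le h2 hg2 hg3 (by positivity) (le_of_eq (by field_simp)) hα2
          have h4 : 0 ≤ g ^ 2 / (4 * X) * ℓ := by positivity
          linarith
        · have h3 := hpf.upp (r : ℂ) (by rw [ofReal_re, abs_of_pos hr]; exact h1)
            (by rw [ofReal_im, abs_zero]; linarith)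
          rw [ofReal_re, abs_of_pos hr, max_eq_left h2.le] at h3
          exact ⟨ℓ * r, h3, Pool.Agent.W363.HF.quad_max ht⟩
      obtain ⟨b, h2, h3⟩ := hbb
      calc Real.exp (-(r ^ 2 / (4 * t)) + α * r) * ‖f r‖
          ≤ Real.exp (-(r ^ 2 / (4 * t)) + α * r) * (G * Real.exp (b + κ * ℓ)) := by
            gcongr
        _ = G * Real.exp (-(r ^ 2 / (4 * t)) + α * r + (b + κ * ℓ)) := by
            rw [Real.exp_add (-(r ^ 2 / (4 * t)) + α * r)]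
            ring
        _ ≤ G * Real.exp (E + κ * ℓ + R + -r) := by
            have : -(r ^ 2 / (4 * t)) + α * r + (b + κ * ℓ) ≤ E + κ * ℓ + R + -r := by
              linarith
            gcongr
        _ = _ := by rw [Real.exp_add (E + κ * ℓ + R), mul_assoc]
    · have h2 := hud.up (r : ℂ)
      rw [ofReal_re, abs_of_pos hr, max_eq_left (by linarith : ϑ0 ≤ r), norm_real,
        Real.norm_eq_abs, sq_abs] at h2
      have h3 : 2 * t * (ℓ + α) ≤ r / 2 := by linarith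
      have hr1 : 1 ≤ r := by linarith
      have h4 : r ^ 2 / 4 ≤ (r - 2 * t * (ℓ + α)) ^ 2 := by
        have : r / 2 ≤ r - 2 * t * (ℓ + α) := by linarith
        nlinarith
      have h5 : r ^ 2 * (2 * K + 1) ≤ (r - 2 * t * (ℓ + α)) ^ 2 / (4 * t) := by
        rw [le_div_iff₀ (by positivity)]
        have h6 : 16 * t * (2 * K + 1) ≤ 1 := by
          have h7 : 2 * t * (8 * X * (2 * K + 1)) ≤ 2 * t * ℓ :=
            mul_le_mul_of_nonneg_left hℓ1 (by positivity)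
          have h8 : 2 * t * (8 * X * (2 * K + 1)) ≤ X := h7.trans hX2
          have h9 : X * (16 * t * (2 * K + 1)) ≤ X * 1 := by linarith
          exact le_of_mul_le_mul_left h9 (by linarith)
        have h10 : r ^ 2 * (2 * K + 1) * (4 * t) = r ^ 2 / 4 * (16 * t * (2 * K + 1)) := by ring
        rw [h10]
        have : r ^ 2 / 4 * (16 * t * (2 * K + 1)) ≤ r ^ 2 / 4 * 1 :=
          mul_le_mul_of_nonneg_left h6 (by positivity)
        linarith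
      have h6 := Pool.Agent.W363.HF.quad_eq (t := t) (L := ℓ) (α := α) (r := r) ht
      calc Real.exp (-(r ^ 2 / (4 * t)) + α * r) * ‖f r‖
          ≤ Real.exp (-(r ^ 2 / (4 * t)) + α * r) *
            (G * Real.exp (ℓ * r + K * (1 + r ^ 2))) := by gcongr
        _ = G * Real.exp (-(r ^ 2 / (4 * t)) + α * r + (ℓ * r + K * (1 + r ^ 2))) := by
            rw [Real.exp_add (-(r ^ 2 / (4 * t)) + α * r)]
            ring
        _ ≤ G * Real.exp (E + κ * ℓ + R + -r) := by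
            have : -(r ^ 2 / (4 * t)) + α * r + (ℓ * r + K * (1 + r ^ 2)) ≤
                E + κ * ℓ + R + -r := by
              have h7 : K * (1 + r ^ 2) ≤ K * (2 * r ^ 2) := by
                apply mul_le_mul_of_nonneg_left _ (by linarith)
                nlinarith
              have h8 : 0 ≤ κ * ℓ := by positivity
              have h9 : r ≤ r ^ 2 := by nlinarith
              have h10 : 0 < R := by linarith
              nlinarith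
            gcongr
        _ = _ := by rw [Real.exp_add (E + κ * ℓ + R), mul_assoc]
  have hint := Pool.Agent.W363.HF.expint.1.const_mul (G * Real.exp (E + κ * ℓ + R))
  have hcont : Continuous fun r : ℝ => Real.exp (-(r ^ 2 / (4 * t)) + α * r) * ‖f r‖ := by
    have h1 : Continuous f := hud.slow.1.continuous
    fun_prop
  have hI : IntegrableOn (fun r : ℝ => Real.exp (-(r ^ 2 / (4 * t)) + α * r) * ‖f r‖) (Ioi 0) := by
    refine hint.mono' hcont.aestronglyMeasurable ?_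
    refine (ae_restrict_mem measurableSet_Ioi).mono fun r hr => ?_
    rw [Real.norm_eq_abs, abs_of_nonneg (by positivity)]
    exact hb r hr
  refine ⟨hI, ?_⟩
  refine (setIntegral_mono_on hI hint measurableSet_Ioi hb).trans ?_
  rw [integral_const_mul, Pool.Agent.W363.HF.expint.2, mul_one]
  have h1 : E + κ * ℓ + R ≤ E + 2 * κ * ℓ := by linarith
  gcongr

/-- lower bound with the majorant -/
theorem jl3 (hS : S_SADL) {K ϑ0 b x g X Y : ℝ} (hK : 1 ≤ K) (_h01 : 1 / 2 ≤ ϑ0) (h02 : ϑ0 ≤ 2)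
    (hx : 0 < x) (hb0 : 0 ≤ b) (hg : 0 < g) (hg1 : g ≤ 1) (hX : 1 ≤ X) (hY : 3 ≤ Y) :
    ∃ ζ0 : ℝ, 0 < ζ0 ∧ ∀ ζ : ℝ, 0 < ζ → ζ ≤ ζ0 →
    ∃ κ0 ℓ0 : ℝ, 0 < κ0 ∧ ∀ (ℓ G t : ℝ) (f : ℂ → ℂ), ℓ0 ≤ ℓ → UD K ϑ0 ℓ G f →
      Pf κ0 b (2 * X + 2 * Y + 4) ℓ G f → Mx κ0 b x ℓ G f → 0 < t →
      x + g ≤ 2 * t * ℓ → b + g ≤ 2 * t * ℓ → 2 * t * ℓ ≤ X →
      ∀ a : ℂ, |a.im| ≤ ζ * ℓ → 2 * t * a.re ≤ Y → -(ζ * ℓ) ≤ a.re →
        G * Real.exp (t * (ℓ + a.re) ^ 2 - ζ ^ 2 * X * ℓ) ≤ ‖J t f a‖ := by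
  have hXp : 0 < X := by linarith
  obtain ⟨g', hg'⟩ : ∃ g' : ℝ, g' = g / 4 := ⟨_, rfl⟩
  have hg'p : 0 < g' := by rw [hg']; positivity
  refine ⟨min (g' / (160 * X)) (g ^ 2 / (4 * X ^ 2)), lt_min (by positivity) (by positivity), ?_⟩
  intro ζ hζ hζ1
  have hζ2 : ζ * (160 * X) ≤ g' :=
    (le_div_iff₀ (by positivity)).1 (hζ1.trans (min_le_left _ _))
  have hζ3 : ζ * X ≤ g ^ 2 / (4 * X) := by
    have h3 : ζ ≤ g ^ 2 / (4 * X ^ 2) := hζ1.trans (min_le_right _ _)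
    have h4 : ζ * X ≤ g ^ 2 / (4 * X ^ 2) * X := mul_le_mul_of_nonneg_right h3 hXp.le
    have h5 : g ^ 2 / (4 * X ^ 2) * X = g ^ 2 / (4 * X) := by field_simp
    linarith only [h4, h5]
  obtain ⟨κ, hκ⟩ : ∃ κ : ℝ, κ = g' ^ 2 / (1600 * X) := ⟨_, rfl⟩
  obtain ⟨δ, hδ⟩ : ∃ δ : ℝ, δ = ζ ^ 2 * X / 2 := ⟨_, rfl⟩
  have hκp : 0 < κ := by rw [hκ]; positivity
  have hδp : 0 < δ := by rw [hδ]; positivity
  have hκc : κ ≤ g ^ 2 / (4 * X) := by
    rw [hκ, hg', div_le_div_iff₀ (by positivity) (by positivity)]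
    have : 0 < g ^ 2 * X := by positivity
    nlinarith only [this]
  obtain ⟨ℓ1, hℓ1⟩ : ∃ ℓ1 : ℝ, ∀ ℓ : ℝ, ℓ1 ≤ ℓ → 2 * ℓ / g' ≤ Real.exp (δ / 8 * ℓ) := by
    have h1 : Tendsto (fun x : ℝ => Real.exp (δ / 8 * x) / x) atTop atTop := by
      have := tendsto_exp_mul_div_rpow_atTop 1 (δ / 8) (by positivity)
      simpa using this
    obtain ⟨t3, ht3⟩ := Filter.eventually_atTop.1 ((h1.eventually_ge_atTop (2 / g')).and
      (eventually_gt_atTop (0 : ℝ)))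
    refine ⟨t3, fun ℓ hℓ => ?_⟩
    obtain ⟨h3, h4⟩ := ht3 ℓ hℓ
    rw [le_div_iff₀ h4] at h3
    calc 2 * ℓ / g' = 2 / g' * ℓ := by ring
      _ ≤ _ := h3
  refine ⟨min (g' / (400000 * X)) (δ * g' / (8 * X)),
    max (max (16 * X * (2 * K + 1)) (8 * (2 * X + 2 * Y + 4) / κ))
      (max (max (8 / δ) (X * (30000 ^ 2 + 400 / g' ^ 2))) ℓ1), ?_, ?_⟩
  · exact lt_min (by positivity) (by positivity)
  intro ℓ G t f hℓ hUD hPf hMj ht h1 h1b h2 a ha1 ha2 ha3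
  have g1 := (le_max_left _ _).trans hℓ
  have g2 := (le_max_right _ _).trans hℓ
  have k1 := (le_max_left _ _).trans g1
  have k2 := (le_max_right _ _).trans g1
  have k3 := (le_max_left _ _).trans ((le_max_left _ _).trans g2)
  have k4 := (le_max_right _ _).trans ((le_max_left _ _).trans g2)
  have k5 := (le_max_right _ _).trans g2
  rw [div_le_iff₀ hκp] at k2
  rw [div_le_iff₀ hδp] at k3
  have hκ01 : min (g' / (400000 * X)) (δ * g' / (8 * X)) * (400000 * X) ≤ g' := by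
    rw [← le_div_iff₀ (by positivity)]
    exact min_le_left _ _
  have hκ02 : min (g' / (400000 * X)) (δ * g' / (8 * X)) * (8 * X) ≤ δ * g' := by
    rw [← le_div_iff₀ (by positivity)]
    exact min_le_right _ _
  have hℓp : 0 < ℓ := by
    have : 0 < 16 * X * (2 * K + 1) := by positivity
    linarith only [k1, this]
  refine Pool.Agent.W816.HF.core2 hS hK h02 hb0 hg'p (by rw [hg']; linarith only [hg1]) hX hY hζ hζ2 hκ hδ
    (lt_min (by positivity) (by positivity)) hκ01 hκ02 hUD hPf ht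
    (by rw [hg']; linarith only [h1b, hb0, hg]) h2 k1 (by linarith only [k2])
    (by linarith only [k3]) k4 (hℓ1 ℓ k5) a ha1 ha2 ?_ (fun r => ℓ * phx x r) ?_
  · have c3 : -(ζ * (2 * t * ℓ)) ≤ 2 * t * a.re := by
      have := mul_le_mul_of_nonneg_left ha3 (by positivity : (0 : ℝ) ≤ 2 * t)
      linarith only [this]
    have c4 : ζ * (2 * t * ℓ) ≤ ζ * X := mul_le_mul_of_nonneg_left h2 hζ.le
    rw [hg'] at hζ2 ⊢
    linarith only [h1b, c3, c4, hζ2, hg]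
  · intro r hr0 hr1
    refine ⟨hMj r hr0 hr1, ?_⟩
    have h3 := qx2 (b := b) (ζ := ζ) (α := a.re) hx hg hXp ht hℓp h2 hr0 hr1 h1 h1b hζ.le hζ3 ha3
    have h4 : κ * ℓ ≤ g ^ 2 / (4 * X) * ℓ := mul_le_mul_of_nonneg_right hκc hℓp.le
    linarith only [h3, h4]

theorem Mx_mono {κ κ' b x ℓ G : ℝ} {f : ℂ → ℂ} (h : Mx κ b x ℓ G f) (hκ : κ ≤ κ') (hℓ : 0 ≤ ℓ)
    (hG : 0 ≤ G) : Mx κ' b x ℓ G f := by
  have h1 : κ * ℓ ≤ κ' * ℓ := mul_le_mul_of_nonneg_right hκ hℓ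
  intro r a b
  refine (h r a b).trans ?_
  exact mul_le_mul_of_nonneg_left (Real.exp_le_exp.2 (by linarith)) hG

open W327.HF in
/-- all zeros of the flow on the line from the size exponent -/
theorem fwd3 (hS : S_SADL) {K ϑ0 b x g X : ℝ} (hK : 1 ≤ K) (hϑ0 : 1 / 2 ≤ ϑ0) (hϑ02 : ϑ0 ≤ 2)
    (hx0 : 0 < x) (hb0 : 0 ≤ b) (hb3 : b ≤ 3) (hg : 0 < g) (hg1 : g ≤ 1) (hX : 1 ≤ X) :
    ∃ κ R ℓ0 : ℝ, 0 < κ ∧ ∀ (ℓ G t : ℝ) (f : ℂ → ℂ), ℓ0 ≤ ℓ →
      UD K ϑ0 ℓ G f → Pf κ b R ℓ G f → Mx κ b x ℓ G f → 0 < t →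
      x + g ≤ 2 * t * ℓ → b + g ≤ 2 * t * ℓ → 2 * t * ℓ ≤ X →
      ∀ y : ℝ, y ≠ 0 → |y| ≤ 2 → heat t f y ≠ 0 := by
  have hX0 : 0 < X := by linarith
  obtain ⟨ζU, hζU, hJU0⟩ := ju3 (K := K) (ϑ0 := ϑ0) (b := b) (x := x) (g := g) (X := X) (Y := 3) hK hϑ0 hϑ02
    hx0 hb3 hg hX le_rfl
  obtain ⟨ζL, hζL, hJL⟩ := jl3 hS (K := K) (ϑ0 := ϑ0) (b := b) (x := x) (g := g) (X := X) (Y := 3) hK hϑ0
    hϑ02 hx0 hb0 hg hg1 hX le_rfl
  obtain ⟨ζ, hζd⟩ : ∃ ζ : ℝ, ζ = min (min ζU ζL) (g / (64 * X)) := ⟨_, rfl⟩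
  have hζ : 0 < ζ := by rw [hζd]; exact lt_min (lt_min hζU hζL) (by positivity)
  have hζ1 : ζ ≤ ζL := by rw [hζd]; exact (min_le_left _ _).trans (min_le_right _ _)
  have hζ2 : ζ ≤ ζU := by rw [hζd]; exact (min_le_left _ _).trans (min_le_left _ _)
  have hζX : ζ * X ≤ g / 64 := by
    have : ζ ≤ g / (64 * X) := by rw [hζd]; exact min_le_right _ _
    rw [le_div_iff₀ (by positivity)] at this
    linarith
  have hζg : ζ ≤ 1 / 64 := by nlinarith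
  obtain ⟨κ0, ℓL, hκ0, hJL'⟩ := hJL ζ hζ hζ1
  obtain ⟨κ, hκd⟩ : ∃ κ : ℝ, κ = min κ0 (ζ * g / 64) := ⟨_, rfl⟩
  have hκ : 0 < κ := by rw [hκd]; exact lt_min hκ0 (by positivity)
  have hκ1 : κ ≤ κ0 := by rw [hκd]; exact min_le_left _ _
  have hκ2 : κ ≤ ζ * g / 64 := by rw [hκd]; exact min_le_right _ _
  obtain ⟨ℓU, hJU⟩ := hJU0 κ hκ
  refine ⟨κ, 2 * X + 2 * 3 + 4, max 1 (max ℓL ℓU), hκ, ?_⟩
  intro ℓ G t f hℓ hUD hPf hMj ht hL1 hLb hL2 x hx hx2 h0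
  have hℓ1 : 1 ≤ ℓ := (le_max_left _ _).trans hℓ
  have hℓL : ℓL ≤ ℓ := ((le_max_left _ _).trans (le_max_right _ _)).trans hℓ
  have hℓU : ℓU ≤ ℓ := ((le_max_right _ _).trans (le_max_right _ _)).trans hℓ
  have hℓ0 : 0 < ℓ := by linarith
  have hG : 0 < G := hUD.hG
  have hPf0 : Pf κ0 b (2 * X + 2 * 3 + 4) ℓ G f := W327.HF.Pf_mono hPf hκ1 hℓ0.le hG.le
  have hMj0 := Mx_mono hMj hκ1 hℓ0.le hG.le
  have hL0 : 0 < 2 * t * ℓ := by positivity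
  have hgL : g ≤ 2 * t * ℓ := by linarith
  -- the bounds for `J`
  have hlow : ∀ a : ℂ, |a.im| ≤ ζ * ℓ → 2 * t * a.re ≤ 3 → -(ζ * ℓ) ≤ a.re →
      G * Real.exp (t * (ℓ + a.re) ^ 2 - ζ ^ 2 * X * ℓ) ≤ ‖J t f a‖ := by
    intro a ha1 ha2 ha3
    exact hJL' ℓ G t f hℓL hUD hPf0 hMj0 ht hL1 hLb hL2 a ha1 ha2 ha3
  have hupp : ∀ α : ℝ, 2 * t * α ≤ 3 → -(ζ * ℓ) ≤ α →
      IntegrableOn (fun r : ℝ => Real.exp (-(r ^ 2 / (4 * t)) + α * r) * ‖f r‖) (Ioi 0) ∧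
      ∫ r in Ioi (0 : ℝ), Real.exp (-(r ^ 2 / (4 * t)) + α * r) * ‖f r‖ ≤
        G * Real.exp (t * (ℓ + α) ^ 2 + 2 * κ * ℓ) := by
    intro α ha1 ha2
    refine hJU ℓ G t f hℓU hUD hPf hMj ht hL1 hLb hL2 α ha1 ?_
    have : ζ * ℓ ≤ ζU * ℓ := mul_le_mul_of_nonneg_right hζ2 hℓ0.le
    linarith
  obtain ⟨ε, hε, hfe⟩ := hUD.fe
  have heq := heat_zero hUD.slow hε hfe ht h0
  obtain ⟨a, had⟩ : ∃ a : ℝ, a = |x| / (2 * t) := ⟨_, rfl⟩
  have ha0 : 0 < a := by rw [had]; exact div_pos (abs_pos.2 hx) (by positivity)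
  have h2ta : 2 * t * a ≤ 2 := by
    have : 2 * t * a = |x| := by rw [had]; field_simp
    rw [this]; exact hx2
  have heq' : ‖J t f (a : ℂ)‖ = ‖J t f (-(a : ℂ))‖ := by
    rcases le_total 0 x with h | h
    · rw [had, abs_of_nonneg h, heq]
      push_cast
      rfl
    · rw [had, abs_of_nonpos h, neg_div]
      push_cast
      rw [neg_neg]
      push_cast at heq
      rw [← heq]
  have hb1 : 2 * t * (ζ * ℓ) ≤ 3 := by
    have : 2 * t * (ζ * ℓ) = ζ * (2 * t * ℓ) := by ring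
    rw [this]
    have h5 : ζ * (2 * t * ℓ) ≤ ζ * X := mul_le_mul_of_nonneg_left hL2 hζ.le
    linarith
  have hzX : ζ ^ 2 * X ≤ ζ * (g / 64) := by
    have : ζ ^ 2 * X = ζ * (ζ * X) := by ring
    rw [this]
    exact mul_le_mul_of_nonneg_left hζX hζ.le
  have hζg0 : 0 < ζ * g := by positivity
  have hLζ : ζ * g ≤ ζ * (2 * t * ℓ) := mul_le_mul_of_nonneg_left hgL hζ.le
  rcases le_or_gt a (ζ * ℓ / 2) with hcase | hcase
  · -- near the line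
    have hball : ∀ z ∈ Metric.ball (0 : ℂ) (ζ * ℓ), |z.re| ≤ ζ * ℓ ∧ |z.im| ≤ ζ * ℓ := by
      intro z hz
      rw [mem_ball_zero_iff] at hz
      exact ⟨(Complex.abs_re_le_norm z).trans hz.le, (Complex.abs_im_le_norm z).trans hz.le⟩
    have hlow' : ∀ z ∈ Metric.ball (0 : ℂ) (ζ * ℓ),
        G * Real.exp (t * (ℓ + z.re) ^ 2 - ζ ^ 2 * X * ℓ) ≤ ‖J t f z‖ := by
      intro z hz
      obtain ⟨b1, b2⟩ := hball z hz
      rw [abs_le] at b1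
      refine hlow z b2 ?_ b1.1
      have : 2 * t * z.re ≤ 2 * t * (ζ * ℓ) := mul_le_mul_of_nonneg_left b1.2 (by positivity)
      linarith
    have hne : ∀ z ∈ Metric.ball (0 : ℂ) (ζ * ℓ), J t f z ≠ 0 := by
      intro z hz
      exact norm_pos_iff.1 (lt_of_lt_of_le (by positivity) (hlow' z hz))
    refine compare (J := J t f) (r := ζ * ℓ) (A := 4 * t * ℓ) (M := (2 * κ + ζ ^ 2 * X) * ℓ) (a := a)
      (by positivity) (by positivity) (fun z _ => J_diff hUD.slow ht z) hne ?_ ha0 hcase ?_ heq'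
    · intro z hz
      have hz' : -z ∈ Metric.ball (0 : ℂ) (ζ * ℓ) := by
        rw [mem_ball_zero_iff] at hz ⊢
        rwa [norm_neg]
      obtain ⟨b1, b2⟩ := hball z hz
      rw [abs_le] at b1
      have q1 := (J_norm_le (t := t) (f := f) z).trans (hupp z.re (by
        have : 2 * t * z.re ≤ 2 * t * (ζ * ℓ) := mul_le_mul_of_nonneg_left b1.2 (by positivity)
        linarith) (by linarith)).2
      have q2 := hlow' (-z) hz'
      rw [Complex.neg_re] at q2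
      calc ‖J t f z‖ ≤ G * Real.exp (t * (ℓ + z.re) ^ 2 + 2 * κ * ℓ) := q1
        _ = Real.exp (4 * t * ℓ * z.re + (2 * κ + ζ ^ 2 * X) * ℓ) *
              (G * Real.exp (t * (ℓ + -z.re) ^ 2 - ζ ^ 2 * X * ℓ)) := by
            rw [mul_left_comm, ← Real.exp_add]
            congr 2; ring
        _ ≤ _ := by gcongr
    · have e : 4 * t * ℓ * (ζ * ℓ) = 2 * (ζ * (2 * t * ℓ)) * ℓ := by ring
      rw [e]
      have e2 : 4 * ((2 * κ + ζ ^ 2 * X) * ℓ) = (4 * (2 * κ + ζ ^ 2 * X)) * ℓ := by ring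
      rw [e2]
      refine mul_lt_mul_of_pos_right ?_ hℓ0
      linarith
  · -- far from the line
    have q1 := hlow (a : ℂ) (by rw [Complex.ofReal_im, abs_zero]; positivity)
      (by rw [Complex.ofReal_re]; linarith) (by
        rw [Complex.ofReal_re]
        have : 0 < ζ * ℓ := by positivity
        linarith)
    rw [Complex.ofReal_re] at q1
    have q2 := hupp (-(ζ * ℓ / 2)) (by
      have : 0 < t * (ζ * ℓ) := by positivity
      linarith) (by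
      have : 0 < ζ * ℓ := by positivity
      linarith)
    have q3 : ‖J t f (-(a : ℂ))‖ ≤
        ∫ r in Ioi (0 : ℝ), Real.exp (-(r ^ 2 / (4 * t)) + -(ζ * ℓ / 2) * r) * ‖f r‖ := by
      refine (J_norm_le _).trans ?_
      refine setIntegral_mono_on ?_ q2.1 measurableSet_Ioi ?_
      · have := (J_int hUD.slow ht (-(a : ℂ))).norm.integrableOn (s := Ioi (0 : ℝ))
        refine this.congr (Eventually.of_forall fun r => ?_)
        simp only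
        rw [norm_mul, Complex.norm_exp, re_arg]
      · intro r hr
        have hr0 : (0 : ℝ) < r := hr
        rw [Complex.neg_re, Complex.ofReal_re]
        gcongr
    rw [← heq'] at q3
    have q4 := (q1.trans q3).trans q2.2
    have q5 := le_of_mul_le_mul_left q4 hG
    rw [Real.exp_le_exp] at q5
    have e1 : t * (ℓ + a) ^ 2 = t * ℓ ^ 2 + (2 * t * ℓ) * a + t * a ^ 2 := by ring
    have e2 : t * (ℓ + -(ζ * ℓ / 2)) ^ 2 ≤ t * ℓ ^ 2 := by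
      have h5 : ζ * ℓ / 2 ≤ ℓ := by nlinarith
      have h6 : 0 ≤ ζ * ℓ / 2 := by positivity
      refine mul_le_mul_of_nonneg_left ?_ ht.le
      apply pow_le_pow_left₀ <;> linarith
    have e3 : 0 ≤ t * a ^ 2 := by positivity
    have e4 : (2 * t * ℓ) * (ζ * ℓ / 2) ≤ (2 * t * ℓ) * a :=
      mul_le_mul_of_nonneg_left hcase.le (by positivity)
    have e5 : (2 * t * ℓ) * (ζ * ℓ / 2) = ζ * (2 * t * ℓ) / 2 * ℓ := by ring
    have e6 : (ζ ^ 2 * X + 2 * κ) * ℓ < ζ * (2 * t * ℓ) / 2 * ℓ := by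
      refine mul_lt_mul_of_pos_right ?_ hℓ0
      linarith
    have e7 : (ζ ^ 2 * X + 2 * κ) * ℓ = ζ ^ 2 * X * ℓ + 2 * κ * ℓ := by ring
    linarith

end Pool.Agent.J4H1.LG
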