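import Pool.Agent.J4H1.LG.Fw1
import Pool.Agent.J4H1.LG.E

/-!
# Project LG: all zeros of the flow on the line from the size and zero-free regions
-/

set_option autoImplicit false

open Complex MeasureTheory Filter Topology Set
open scoped ComplexConjugate

namespace Pool.Agent.J4H1.LG

open Pool.Agent.W169.HF (UD Pf Mj Cnt phx Slow S_SADL S_PROF S_NET)
open Pool.Agent.J4H1.LH
open Pool.Agent.J4H34.HF (Xi)

/-- the size near height `T`, for the function `f` -/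
theorem size_f (hnet : S_NET) {m : ℕ} {X0 : ℝ} {P : ℝ → (Fin m → ℂ) → (ℂ → ℂ) → Prop}
    (hP : Cls m X0 P) {κ κa Ra : ℝ} (hκ : 0 < κ) (hκa : 0 < κa) (hRa : 1 ≤ Ra) :
    ∃ δ R C₀ : ℝ, 0 < δ ∧ 1 ≤ R ∧
      ∀ (N : ℝ) (μ : Fin m → ℂ) (Λ : ℂ → ℂ),
      P N μ Λ → ∀ T : ℝ, C₀ ≤ Real.log (Pool.Agent.J4H34.HF.cond N μ T) →
      (∀ t r : ℝ, |t - T| ≤ R → 0 ≤ r → r ≤ 1 / 2 → ‖Lf μ Λ (1 / 2 + r + t * I)‖ ≤
        Pool.Agent.J4H34.HF.cond N μ t ^ (max (κ - r) 0 ^ 2 / (4 * κ) + δ)) →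
      ∀ u : ℂ, |u.re| ≤ Ra → |u.im| ≤ Ra →
        ‖fT N Λ T u‖ ≤ GT N μ T * Real.exp (lT N μ T * phx κ |u.re| + κa * lT N μ T) := by
  classical
  obtain ⟨K1, K2, hK1, H1, H2⟩ := hP.aut
  obtain ⟨M, κb, R1, ℓb, hM, hκb, hR1, HN⟩ := hnet K1 (3 / 2) κ κa Ra hK1 (by norm_num) (by norm_num) hκ
    hκa hRa
  have hM1 : (1 : ℝ) ≤ M := by exact_mod_cast hM
  obtain ⟨η, hη⟩ : ∃ η : ℝ, η = 1 / (2 * M) := ⟨_, rfl⟩
  have hη0 : 0 < η := by rw [hη]; positivity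
  have hη1 : η ≤ 1 := by rw [hη, div_le_one (by positivity)]; linarith
  obtain ⟨ℓc, HP⟩ := H2 κb η R1 hκb hη0 hη1 hR1
  -- constants
  obtain ⟨W, hW⟩ : ∃ W : ℝ, W = m * Real.log (1 + R1) * (κ + κb) + |K2 η| * (2 + R1 ^ 2) := ⟨_, rfl⟩
  have hlR : 0 ≤ Real.log (1 + R1) := Real.log_nonneg (by linarith)
  have hW0 : 0 ≤ W := by rw [hW]; positivity
  refine ⟨κb / 4, R1, 2 * |ℓb| + 2 * |ℓc| + 4 * W / κb + 1, by positivity, hR1, ?_⟩
  intro N μ Λ hD T hC HB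
  obtain ⟨c, hc⟩ : ∃ c : ℝ, c = Pool.Agent.J4H34.HF.cond N μ T := ⟨_, rfl⟩
  rw [← hc] at hC
  have q1 : 0 ≤ 4 * W / κb := by positivity
  have a2 := abs_nonneg ℓb
  have a3 := abs_nonneg ℓc
  have b2 := le_abs_self ℓb
  have b3 := le_abs_self ℓc
  have hNi := hP.one_le hD
  have hlc : 0 < Real.log c := by linarith
  have hℓc : lT N μ T = Real.log c / 2 := by rw [lT, hc]
  obtain ⟨hud, hgi, hgu⟩ := H1 N μ Λ hD T
  have hG := hud.hG
  obtain ⟨G, hGd⟩ : ∃ G : ℝ, G = GT N μ T := ⟨_, rfl⟩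
  obtain ⟨ℓ, hℓ⟩ : ∃ ℓ : ℝ, ℓ = lT N μ T := ⟨_, rfl⟩
  have hpf := HP N μ Λ hD T (by rw [hℓc]; linarith)
  rw [← hℓ] at hℓc
  have hWℓ : W ≤ κb / 2 * ℓ := by
    have : 4 * W / κb ≤ Real.log c := by linarith
    rw [div_le_iff₀ hκb] at this
    rw [hℓc]
    linarith
  have hsz := HN ℓ G (fT N Λ T) (by rw [hℓc]; linarith) (by rw [hℓ, hGd]; exact hud)
    (by rw [hℓ, hGd, ← hη]; exact hpf) (by
    intro k hk1 hkM v hv
    have hk1' : (1 : ℝ) ≤ k := by exact_mod_cast hk1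
    have hkM' : (k : ℝ) ≤ M := by exact_mod_cast hkM
    obtain ⟨r, hr⟩ : ∃ r : ℝ, r = k / (2 * M) := ⟨_, rfl⟩
    have hrη : η ≤ r := by rw [hη, hr]; gcongr
    have hr2 : r ≤ 1 / 2 := by
      rw [hr, div_le_iff₀ (by positivity)]
      linarith
    have hr0 : 0 ≤ r := by linarith
    have e1 : ((k / (2 * M) : ℝ) : ℂ) = (r : ℂ) := by rw [hr]
    rw [e1, ← hr]
    obtain ⟨u, hu⟩ : ∃ u : ℂ, u = (r : ℂ) + v * I := ⟨_, rfl⟩
    have hure : u.re = r := by rw [hu]; simp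
    have huim : u.im = v := by rw [hu]; simp
    obtain ⟨hg0, hgup⟩ := hgu η hη0 u (by rw [hure]; exact hrη)
    rw [← hu]
    have hu2 : ‖u‖ ^ 2 ≤ 1 + R1 ^ 2 := by
      rw [← Complex.normSq_eq_norm_sq, Complex.normSq_apply, hure, huim]
      have : v * v ≤ R1 ^ 2 := by
        rw [← sq, ← sq_abs]; exact pow_le_pow_left₀ (abs_nonneg _) hv 2
      nlinarith
    have hfac : fT N Λ T u = Lf μ Λ (1 / 2 + T * I + u) * gT N μ T u := by
      rw [Lf_eq (by linarith : 0 < N)]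
      unfold fT
      have : gT N μ T u = _root_.H353.E.gaf N μ (1 / 2 + T * I + u) := rfl
      rw [← this, mul_assoc, inv_mul_cancel₀ hg0, mul_one]
    have hL := HB (T + v) r (by rw [add_sub_cancel_left]; exact hv) hr0 hr2
    have e2 : (1 / 2 + (r : ℂ) + ((T + v : ℝ) : ℂ) * I) = 1 / 2 + T * I + u := by
      rw [hu]; push_cast; ring
    rw [e2] at hL
    obtain ⟨E, hE⟩ : ∃ E : ℝ, E = max (κ - r) 0 ^ 2 / (4 * κ) + κb / 4 := ⟨_, rfl⟩
    have hmx : max (κ - r) 0 ^ 2 / (4 * κ) ≤ κ / 4 := by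
      rw [div_le_iff₀ (by positivity)]
      have h3 : max (κ - r) 0 ≤ κ := max_le (by linarith) hκ.le
      have h4 : max (κ - r) 0 ^ 2 ≤ κ ^ 2 := pow_le_pow_left₀ (le_max_right _ _) h3 2
      nlinarith
    have hE0 : 0 ≤ E := by rw [hE]; positivity
    have hE1 : E ≤ κ + κb := by rw [hE]; linarith
    rw [← hE] at hL
    have hcv := log_cond_shift (μ := μ) hNi T v
    rw [← hc] at hcv
    have hcv0 : 0 < Pool.Agent.J4H34.HF.cond N μ (T + v) := by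
      have := Pool.Agent.J4H34.HF.cond_ge (μ := μ) hNi (T + v)
      linarith
    have hlv : m * Real.log (1 + |v|) ≤ m * Real.log (1 + R1) := by
      apply mul_le_mul_of_nonneg_left _ (Nat.cast_nonneg m)
      exact Real.log_le_log (by positivity) (by linarith)
    have hL2 : ‖Lf μ Λ (1 / 2 + T * I + u)‖ ≤
        Real.exp ((Real.log c + m * Real.log (1 + R1)) * E) := by
      refine hL.trans ?_
      rw [Real.rpow_def_of_pos hcv0]
      apply Real.exp_le_exp.2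
      exact mul_le_mul_of_nonneg_right (by linarith) hE0
    rw [hfac, norm_mul]
    rw [← hGd, ← hℓ, hure] at hgup
    have hK2 : K2 η * (1 + ‖u‖ ^ 2) ≤ |K2 η| * (2 + R1 ^ 2) := by
      calc K2 η * (1 + ‖u‖ ^ 2) ≤ |K2 η| * (1 + ‖u‖ ^ 2) :=
            mul_le_mul_of_nonneg_right (le_abs_self _) (by positivity)
        _ ≤ |K2 η| * (2 + R1 ^ 2) := mul_le_mul_of_nonneg_left (by linarith) (abs_nonneg _)
    calc ‖Lf μ Λ (1 / 2 + T * I + u)‖ * ‖gT N μ T u‖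
        ≤ Real.exp ((Real.log c + m * Real.log (1 + R1)) * E) *
          (G * Real.exp (ℓ * r + K2 η * (1 + ‖u‖ ^ 2))) :=
          mul_le_mul hL2 hgup (norm_nonneg _) (Real.exp_pos _).le
      _ = G * Real.exp ((Real.log c + m * Real.log (1 + R1)) * E +
            (ℓ * r + K2 η * (1 + ‖u‖ ^ 2))) := by
          rw [Real.exp_add ((Real.log c + m * Real.log (1 + R1)) * E)]; ring
      _ ≤ G * Real.exp (ℓ * phx κ r + κb * ℓ) := by
          apply mul_le_mul_of_nonneg_left _ (by rw [hGd]; exact hG.le)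
          apply Real.exp_le_exp.2
          have h14 : phx κ r = r + max (κ - r) 0 ^ 2 / (2 * κ) := rfl
          have h15 : max (κ - r) 0 ^ 2 / (2 * κ) = 2 * (max (κ - r) 0 ^ 2 / (4 * κ)) := by
            field_simp
            ring
          have h16 : m * Real.log (1 + R1) * E ≤ m * Real.log (1 + R1) * (κ + κb) :=
            mul_le_mul_of_nonneg_left hE1 (by positivity)
          rw [h14, h15]
          have h17 : Real.log c * E = ℓ * (2 * (max (κ - r) 0 ^ 2 / (4 * κ))) + κb / 2 * ℓ := by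
            rw [hE, hℓc]; ring
          rw [hW] at hWℓ
          nlinarith)
  intro u hu1 hu2
  rw [← hGd, ← hℓ]
  exact hsz u hu1 hu2

/-- the profile near height `T`, from a zero-free region to the right of `κ` -/
theorem prof_loc (prof : S_PROF) {m : ℕ} {X0 : ℝ} {P : ℝ → (Fin m → ℂ) → (ℂ → ℂ) → Prop}
    (hP : Cls m X0 P) {κ g : ℝ} (hκ : 0 < κ) (hg : 0 < g) (hg1 : g ≤ 1 / 4) :
    ∃ b : ℝ, 0 ≤ b ∧ b ≤ 1 ∧ b ≤ κ + 2 * g ∧ ∀ κs R1 : ℝ, 0 < κs → 1 ≤ R1 → ∃ Rb ℓb : ℝ, 1 ≤ Rb ∧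
      ∀ (N : ℝ) (μ : Fin m → ℂ) (Λ : ℂ → ℂ), P N μ Λ → ∀ T : ℝ, ℓb ≤ lT N μ T →
      (∀ s : ℂ, |s.im - T| ≤ Rb → 1 / 2 + κ + g < s.re → Xi N Λ s ≠ 0) →
      Pf κs b R1 (lT N μ T) (GT N μ T) (fT N Λ T) := by
  obtain ⟨K1, K2, hK1, H1, H2⟩ := hP.aut
  rcases le_or_gt (1 / 2) κ with h | h
  · refine ⟨1 / 2 + g, by linarith, by linarith, by linarith, ?_⟩
    intro κs R1 hκs hR1
    obtain ⟨ℓb, HP⟩ := H2 κs g R1 hκs hg (by linarith) hR1
    exact ⟨1, ℓb, le_rfl, fun N μ Λ hD T hT _ => HP N μ Λ hD T hT⟩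
  · refine ⟨κ + 2 * g, by linarith, by linarith, le_rfl, ?_⟩
    intro κs R1 hκs hR1
    obtain ⟨R, ℓb, hR, HF⟩ := prof K1 (3 / 2) (κ + g) g κs R1 hK1 (by norm_num) (by norm_num) (by linarith)
      (by linarith) hg (by linarith) hκs hR1
    refine ⟨R, ℓb, hR1.trans hR, ?_⟩
    intro N μ Λ hD T hT hzf
    obtain ⟨hud, -, -⟩ := H1 N μ Λ hD T
    have h1 := HF (lT N μ T) (GT N μ T) (fT N Λ T) hT hud (by
      intro u hu1 hu2
      refine hzf (1 / 2 + T * I + u) ?_ ?_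
      · have him : (1 / 2 + (T : ℂ) * I + u).im = T + u.im := by simp
        rw [him, add_sub_cancel_left]
        exact hu2
      · have hre : (1 / 2 + (T : ℂ) * I + u).re = 1 / 2 + u.re := by simp
        rw [hre]
        linarith)
    have e : κ + g + g = κ + 2 * g := by ring
    rw [e] at h1
    exact h1

/-- the size and a zero-free region near height `T` give all zeros of the flow at height `T` on the
line -/
theorem local_allx (hnet : S_NET) (sad : S_SADL) (prof : S_PROF) {m : ℕ} {X0 : ℝ}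
    {P : ℝ → (Fin m → ℂ) → (ℂ → ℂ) → Prop}
    (hP : Cls m X0 P) {κ κ' : ℝ} (hκ : 0 < κ) (hκκ : κ < κ') : ∃ δ R C₀ : ℝ, 0 < δ ∧
      ∀ (N : ℝ) (μ : Fin m → ℂ) (Λ : ℂ → ℂ),
      P N μ Λ → ∀ T : ℝ, C₀ ≤ Real.log (Pool.Agent.J4H34.HF.cond N μ T) →
      (∀ t r : ℝ, |t - T| ≤ R → 0 ≤ r → r ≤ 1 / 2 → ‖Lf μ Λ (1 / 2 + r + t * I)‖ ≤
        Pool.Agent.J4H34.HF.cond N μ t ^ (max (κ - r) 0 ^ 2 / (4 * κ) + δ)) →
      (∀ s : ℂ, |s.im - T| ≤ R → 1 / 2 + κ + δ < s.re → Xi N Λ s ≠ 0) →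
      ∀ (τ : ℝ) (s : ℂ), 0 < τ → τ ≤ 1 → κ' ≤ τ * Real.log (Pool.Agent.J4H34.HF.cond N μ T) → s.im = T →
        Pool.Agent.J4H34.HF.heat τ (Xi N Λ) s = 0 → s.re = 1 / 2 := by
  obtain ⟨g, hg⟩ : ∃ g : ℝ, g = min (κ' - κ) 1 / 4 := ⟨_, rfl⟩
  have hmin : 0 < min (κ' - κ) 1 := lt_min (by linarith) one_pos
  have hg0 : 0 < g := by rw [hg]; positivity
  have hg1 : g ≤ 1 / 4 := by rw [hg]; linarith [min_le_right (κ' - κ) 1]
  have hg2 : 4 * g ≤ κ' - κ := by rw [hg]; linarith [min_le_left (κ' - κ) 1]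
  obtain ⟨b, hb0, hb1, hb2, HPr⟩ := prof_loc prof hP hκ hg0 hg1
  obtain ⟨K1, K2, hK1, H1, H2⟩ := hP.aut
  obtain ⟨κs, Rs, ℓs, hκs, HF⟩ := fwd3 sad (K := K1) (ϑ0 := 3 / 2) (b := b) (x := κ) (g := g) (X := X0) hK1
    (by norm_num) (by norm_num) hκ hb0 (by linarith) hg0 (by linarith) (by linarith [hP.hX0])
  obtain ⟨δ1, R1, C1, hδ1, hR1, HS⟩ := size_f hnet hP (κ := κ) (κa := κs) (Ra := 1) hκ hκs le_rfl
  obtain ⟨Rb, ℓb, hRb, HPf⟩ := HPr κs (max Rs 1) hκs (le_max_right _ _)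
  obtain ⟨C₁, HC⟩ := hP.late
  refine ⟨min δ1 g, max R1 Rb, 2 * |ℓs| + 2 * |ℓb| + |C1| + |C₁| + 1, lt_min hδ1 hg0, ?_⟩
  intro N μ Λ hD T hC HB hzf τ s hτ0 hτ1 hκτ hsT hz
  obtain ⟨c, hc⟩ : ∃ c : ℝ, c = Pool.Agent.J4H34.HF.cond N μ T := ⟨_, rfl⟩
  have hC' := hC
  rw [← hc] at hC hκτ
  have a1 := abs_nonneg ℓs
  have a2 := abs_nonneg ℓb
  have a3 := abs_nonneg C1
  have a4 := abs_nonneg C₁
  have b1 := le_abs_self ℓs
  have b2 := le_abs_self ℓb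
  have b3 := le_abs_self C1
  have b4 := le_abs_self C₁
  have hNi := hP.one_le hD
  have hlc : 0 < Real.log c := by linarith
  have hℓc : lT N μ T = Real.log c / 2 := by rw [lT, hc]
  rcases lt_or_ge X0 (τ * Real.log c) with h2 | h2
  · exact HC N μ Λ hD τ T hτ0 hτ1 (by rw [← hc]; linarith)
        (by rw [← hc]; exact h2.le) s (by rw [hsT]; simp) hz
  obtain ⟨hud, hgi, hgu⟩ := H1 N μ Λ hD T
  have hpf := HPf N μ Λ hD T (by rw [hℓc]; linarith) (by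
    intro s hs1 hs2
    refine hzf s (hs1.trans (le_max_right _ _)) ?_
    have := min_le_right δ1 g
    linarith)
  have hsz := HS N μ Λ hD T (by rw [← hc]; linarith) (by
    intro t r ht hr0 hr
    refine (HB t r (ht.trans (le_max_left _ _)) hr0 hr).trans ?_
    have hc1 := Pool.Agent.J4H34.HF.cond_ge (μ := μ) hNi t
    exact Real.rpow_le_rpow_of_exponent_le hc1 (by linarith [min_le_left δ1 g]))
  by_contra hne
  have hst := hP.strip hD hτ0 hz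
  have hx : s.re - 1 / 2 ≠ 0 := fun h0 => hne (by linarith)
  have h3 := HF (lT N μ T) (GT N μ T) τ (fT N Λ T)
    (by rw [hℓc]; linarith) hud (Pf_mono hpf (le_max_left _ _)) (by
      intro r hr0 hr1
      have h4 := hsz (r : ℂ) (by rw [ofReal_re, abs_of_nonneg hr0]; linarith) (by rw [ofReal_im, abs_zero]; norm_num)
      rw [ofReal_re, abs_of_nonneg hr0] at h4
      exact h4) hτ0 (by rw [hℓc]; linarith) (by rw [hℓc]; linarith) (by rw [hℓc]; linarith) (s.re - 1 / 2) hx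
      (by linarith)
  apply h3
  have e2 : s = (1 / 2 + (T : ℂ) * I) + ((s.re - 1 / 2 : ℝ) : ℂ) := by
    rw [← hsT]
    apply Complex.ext <;> simp
  rw [e2, heat_eq hτ0] at hz
  exact hz

section fam

variable {m : ℕ} {X0 : ℝ} {P : ℝ → (Fin m → ℂ) → (ℂ → ℂ) → Prop} {ι : Type} {N : ι → ℝ}
  {μ : ι → Fin m → ℂ} {Λ : ι → ℂ → ℂ}

/-- the size and zero-free half-planes give all zeros of the flow on the line -/
theorem sizezf_to_allon (hnet : S_NET) (sad : S_SADL) (prof : S_PROF) (hP : Cls m X0 P)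
    (hD : ∀ i, P (N i) (μ i) (Λ i)) {κ κ' : ℝ} (hκ : 0 < κ) (hκκ : κ < κ')
    (h : Size (fun i => Lf (μ i) (Λ i)) (fun i => Pool.Agent.J4H34.HF.cond (N i) (μ i)) κ)
    (hz : ∀ ϑ : ℝ, κ < ϑ → ZeroFree (fun i => Xi (N i) (Λ i))
      (fun i => Pool.Agent.J4H34.HF.cond (N i) (μ i)) ϑ) :
    AllOn (fun i => Xi (N i) (Λ i)) (fun i => Pool.Agent.J4H34.HF.cond (N i) (μ i)) κ' := by
  obtain ⟨δ, R, C₀, hδ, H⟩ := local_allx hnet sad prof hP hκ hκκ
  obtain ⟨B, HB⟩ := h (δ / 2) (by positivity)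
  obtain ⟨C1, HZ⟩ := hz (κ + δ) (by linarith)
  obtain ⟨w, hw⟩ : ∃ w : ℝ, w = m * Real.log (1 + |R|) := ⟨_, rfl⟩
  have hw0 : 0 ≤ w := by
    rw [hw]
    exact mul_nonneg (Nat.cast_nonneg m) (Real.log_nonneg (by linarith [abs_nonneg R]))
  obtain ⟨B', hB'⟩ : ∃ B' : ℝ, B' = max B 1 := ⟨_, rfl⟩
  have hB'1 : 1 ≤ B' := by rw [hB']; exact le_max_right _ _
  have hBB' : B ≤ B' := by rw [hB']; exact le_max_left _ _
  have hlB : 0 ≤ Real.log B' := Real.log_nonneg hB'1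
  refine ⟨|C₀| + |C1| + w + 2 * Real.log B' / δ + 1, ?_⟩
  intro i s τ hC hτ0 hτ1 hκτ hz0
  simp only at hC hκτ hz0
  have q1 : 0 ≤ 2 * Real.log B' / δ := by positivity
  have a1 := abs_nonneg C₀
  have a2 := abs_nonneg C1
  have b1 := le_abs_self C₀
  have b2 := le_abs_self C1
  have hNi := hP.one_le (hD i)
  have hnear : ∀ t : ℝ, |t - s.im| ≤ R → |C1| + 2 * Real.log B' / δ ≤
      Real.log (Pool.Agent.J4H34.HF.cond (N i) (μ i) t) := by
    intro t ht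
    have h6 := log_cond_shift' (μ := μ i) hNi s.im (t - s.im)
    rw [add_sub_cancel] at h6
    have h7 : m * Real.log (1 + |t - s.im|) ≤ w := by
      rw [hw]
      apply mul_le_mul_of_nonneg_left _ (Nat.cast_nonneg m)
      exact Real.log_le_log (by positivity) (by linarith [le_abs_self R])
    linarith
  refine H (N i) (μ i) (Λ i) (hD i) s.im (by linarith) ?_ ?_ τ s hτ0 hτ1 hκτ rfl hz0
  · intro t r ht hr0 hr
    have h1 := HB i t r hr0 hr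
    simp only at h1
    have hc1 := Pool.Agent.J4H34.HF.cond_ge (μ := μ i) hNi t
    have hct : 0 < Pool.Agent.J4H34.HF.cond (N i) (μ i) t := by linarith
    have h2 := hnear t ht
    have h3 : Real.log B' ≤ Real.log (Pool.Agent.J4H34.HF.cond (N i) (μ i) t) * (δ / 2) := by
      have h4 : 2 * Real.log B' / δ ≤ Real.log (Pool.Agent.J4H34.HF.cond (N i) (μ i) t) := by linarith
      rw [div_le_iff₀ hδ] at h4
      linarith
    have h5 : B' ≤ Pool.Agent.J4H34.HF.cond (N i) (μ i) t ^ (δ / 2) := by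
      rw [Real.rpow_def_of_pos hct, ← Real.exp_log (by linarith : 0 < B')]
      exact Real.exp_le_exp.2 h3
    have h6 : 0 ≤ Pool.Agent.J4H34.HF.cond (N i) (μ i) t ^ (max (κ - r) 0 ^ 2 / (4 * κ) + δ / 2) :=
      Real.rpow_nonneg hct.le _
    refine h1.trans ((mul_le_mul_of_nonneg_right (hBB'.trans h5) h6).trans (le_of_eq ?_))
    rw [← Real.rpow_add hct]
    congr 1
    ring
  · intro s' hs1 hs2
    refine HZ i s' ?_ ?_
    · simp only
      have h2 := hnear s'.im hs1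
      linarith
    · linarith

/-- the criterion for all zeros of the flow on the line -/
theorem allon_iff (hA : AllS) (sad : S_SADL) (prof : S_PROF) (hP : Cls m X0 P)
    (hD : ∀ i, P (N i) (μ i) (Λ i)) {κ : ℝ} (hκ : 0 < κ) :
    (∀ κ' : ℝ, κ < κ' → AllOn (fun i => Xi (N i) (Λ i))
      (fun i => Pool.Agent.J4H34.HF.cond (N i) (μ i)) κ') ↔
    Size (fun i => Lf (μ i) (Λ i)) (fun i => Pool.Agent.J4H34.HF.cond (N i) (μ i)) κ ∧
    ∀ ϑ : ℝ, κ < ϑ → ZeroFree (fun i => Xi (N i) (Λ i))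
      (fun i => Pool.Agent.J4H34.HF.cond (N i) (μ i)) ϑ := by
  constructor
  · intro h
    refine ⟨(size_iff hA hP hD hκ).1.2 fun κ' hκ' => ?_, fun ϑ hϑ => ?_⟩
    · exact allon_to_few hP hD (κ := (κ + κ') / 2) (by linarith) (by linarith) (h _ (by linarith))
    · exact allon_to_zf hA hP hD (κ := (κ + ϑ) / 2) (by linarith) (by linarith) (h _ (by linarith))
  · rintro ⟨h1, h2⟩ κ' hκ'
    exact sizezf_to_allon hA.net sad prof hP hD hκ hκ' h1 h2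

/-- for `κ ≥ 1/2` the zero-free half-planes are known -/
theorem allon_iff' (hA : AllS) (sad : S_SADL) (prof : S_PROF) (hP : Cls m X0 P)
    (hD : ∀ i, P (N i) (μ i) (Λ i)) {κ : ℝ} (hκ : 1 / 2 ≤ κ) :
    (∀ κ' : ℝ, κ < κ' → AllOn (fun i => Xi (N i) (Λ i))
      (fun i => Pool.Agent.J4H34.HF.cond (N i) (μ i)) κ') ↔
    Size (fun i => Lf (μ i) (Λ i)) (fun i => Pool.Agent.J4H34.HF.cond (N i) (μ i)) κ := by
  rw [allon_iff hA sad prof hP hD (by linarith : 0 < κ)]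
  refine ⟨fun h => h.1, fun h => ⟨h, fun ϑ hϑ => ⟨0, fun i s _ hs => ?_⟩⟩⟩
  exact hP.re1 (hD i) s (by linarith)

end fam

end Pool.Agent.J4H1.LG
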