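import Pool.Agent.J4H1.LG.E

/-!
# Project LG: the local theorems
-/

set_option autoImplicit false

open Complex MeasureTheory Filter Topology Set
open scoped ComplexConjugate

namespace Pool.Agent.J4H1.LG

open Pool.Agent.W169.HF (UD Pf Mj Cnt phx Slow)
open Pool.Agent.J4H1.LH
open Pool.Agent.J4H34.HF (Xi)

/-- few zeros of the flow far from the line near height `T` give the size at `T` -/
theorem local_size (hA : AllS) {m : ℕ} {X0 : ℝ} {P : ℝ → (Fin m → ℂ) → (ℂ → ℂ) → Prop}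
    (hP : Cls m X0 P) {κ ε0 : ℝ} (hκ : 0 < κ)
    (hε0 : 0 < ε0) : ∃ δ R C₀ : ℝ, 0 < δ ∧ ∀ (N : ℝ) (μ : Fin m → ℂ) (Λ : ℂ → ℂ),
      P N μ Λ → ∀ T : ℝ, C₀ ≤ Real.log (Pool.Agent.J4H34.HF.cond N μ T) →
      Cnt (Pool.Agent.J4H34.HF.heat (κ / Real.log (Pool.Agent.J4H34.HF.cond N μ T)) (Xi N Λ))
        {s : ℂ | δ ≤ |s.re - 1 / 2| ∧ |s.im - T| ≤ R} (δ * Real.log (Pool.Agent.J4H34.HF.cond N μ T)) →
      ∀ r : ℝ, 0 ≤ r → r ≤ 1 / 2 → ‖Lf μ Λ (1 / 2 + r + T * I)‖ ≤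
        Pool.Agent.J4H34.HF.cond N μ T ^ (max (κ - r) 0 ^ 2 / (4 * κ) + ε0) := by
  obtain ⟨K1, K2, hK1, H1, -⟩ := hP.aut
  obtain ⟨a, R, ℓ1, ha, hR, HF⟩ := few_size hA.tcz hA.hup hA.hlo hA.invx K1 (3 / 2) κ (max 1 κ) ε0 hK1
    (by norm_num) (by norm_num) hκ (le_max_left _ _) hε0
  refine ⟨a / 2, R, 2 * |ℓ1| + 4 * K1 / ε0 + κ + 1, by positivity, ?_⟩
  intro N μ Λ hD T hC hcnt r hr0 hr
  obtain ⟨c, hc⟩ : ∃ c : ℝ, c = Pool.Agent.J4H34.HF.cond N μ T := ⟨_, rfl⟩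
  rw [← hc] at hC hcnt ⊢
  have q1 : 0 ≤ 4 * K1 / ε0 := by positivity
  have a1 := abs_nonneg ℓ1
  have b1 := le_abs_self ℓ1
  have hN := hP.one_le hD
  have hc1 : 1 ≤ c := by rw [hc]; exact Pool.Agent.J4H34.HF.cond_ge hN T
  have hlc : 0 < Real.log c := by linarith
  have hℓc : lT N μ T = Real.log c / 2 := by rw [lT, hc]
  obtain ⟨hud, hgi, hgu⟩ := H1 N μ Λ hD T
  obtain ⟨τ, hτ⟩ : ∃ τ : ℝ, τ = κ / Real.log c := ⟨_, rfl⟩
  rw [← hτ] at hcnt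
  have hτ0 : 0 < τ := by rw [hτ]; positivity
  have hτc : τ * Real.log c = κ := by rw [hτ]; field_simp
  have h2tℓ : 2 * τ * lT N μ T = κ := by rw [hℓc, ← hτc]; ring
  have hcnt2 : Cnt (Pool.Agent.W169.HF.heat τ (fT N Λ T))
      {z : ℂ | a ≤ z.re ∧ z.re ≤ R ∧ |z.im| ≤ R} (a * lT N μ T) := by
    have h1 := cnt_of hτ0 (1 / 2 + (T : ℂ) * I) hcnt
    refine Cnt_mono h1 ?_ (by rw [hℓc]; linarith)
    intro z hz
    obtain ⟨h2, h3, h4⟩ := hz
    have hre : (1 / 2 + (T : ℂ) * I + z).re = 1 / 2 + z.re := by simp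
    have him : (1 / 2 + (T : ℂ) * I + z).im = T + z.im := by simp
    simp only [Set.mem_ofPred_eq]
    rw [hre, him, add_sub_cancel_left, add_sub_cancel_left]
    refine ⟨?_, h4⟩
    rw [abs_of_nonneg (by linarith)]
    linarith
  have hE := HF (lT N μ T) (GT N μ T) τ (fT N Λ T) (by rw [hℓc]; linarith) hud hτ0 (by rw [h2tℓ])
    (by rw [h2tℓ]; exact le_max_right _ _) hcnt2 r hr0 (by linarith)
  rw [h2tℓ] at hE
  refine (gen_bd hK1 hN hud hgi hr0 hr hE).trans ?_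
  rw [Real.rpow_def_of_pos (by linarith)]
  apply Real.exp_le_exp.2
  have h14 : phx κ r = r + max (κ - r) 0 ^ 2 / (2 * κ) := rfl
  have h15 : max (κ - r) 0 ^ 2 / (2 * κ) = 2 * (max (κ - r) 0 ^ 2 / (4 * κ)) := by
    field_simp
    ring
  have h16 : 4 * K1 ≤ ε0 * Real.log c := by
    have : 4 * K1 / ε0 ≤ Real.log c := by linarith
    rw [div_le_iff₀ hε0] at this
    linarith
  rw [h14, h15, hℓc]
  nlinarith

/-- the size near height `T` gives few zeros off the line at `T` -/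
theorem local_few (hA : AllS) {m : ℕ} {X0 : ℝ} {P : ℝ → (Fin m → ℂ) → (ℂ → ℂ) → Prop}
    (hP : Cls m X0 P) {κ κ' ε0 : ℝ} (hκ : 0 < κ)
    (hκκ : κ < κ') (hε0 : 0 < ε0) : ∃ δ R C₀ : ℝ, 0 < δ ∧
      ∀ (N : ℝ) (μ : Fin m → ℂ) (Λ : ℂ → ℂ),
      P N μ Λ → ∀ T : ℝ, C₀ ≤ Real.log (Pool.Agent.J4H34.HF.cond N μ T) →
      (∀ t r : ℝ, |t - T| ≤ R → 0 ≤ r → r ≤ 1 / 2 → ‖Lf μ Λ (1 / 2 + r + t * I)‖ ≤
        Pool.Agent.J4H34.HF.cond N μ t ^ (max (κ - r) 0 ^ 2 / (4 * κ) + δ)) →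
      ∀ τ : ℝ, 0 < τ → τ ≤ 1 → κ' ≤ τ * Real.log (Pool.Agent.J4H34.HF.cond N μ T) →
        Cnt (Pool.Agent.J4H34.HF.heat τ (Xi N Λ))
          {s : ℂ | s.re ≠ 1 / 2 ∧ |s.im - T| ≤ 1} (ε0 * Real.log (Pool.Agent.J4H34.HF.cond N μ T)) := by
  classical
  obtain ⟨K1, K2, hK1, H1, H2⟩ := hP.aut
  obtain ⟨κa, Ra, ℓa, hκa, hRa, HO⟩ := hA.off K1 (3 / 2) κ (κ' - κ) X0 ε0 hK1 (by norm_num) (by norm_num) hκ
    (by linarith) (by linarith [hP.hX0]) hε0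
  obtain ⟨M, κb, R1, ℓb, hM, hκb, hR1, HN⟩ := hA.net K1 (3 / 2) κ κa Ra hK1 (by norm_num) (by norm_num) hκ
    hκa hRa
  have hM1 : (1 : ℝ) ≤ M := by exact_mod_cast hM
  obtain ⟨η, hη⟩ : ∃ η : ℝ, η = 1 / (2 * M) := ⟨_, rfl⟩
  have hη0 : 0 < η := by rw [hη]; positivity
  have hη1 : η ≤ 1 := by rw [hη, div_le_one (by positivity)]; linarith
  obtain ⟨ℓc, HP⟩ := H2 κb η R1 hκb hη0 hη1 hR1
  obtain ⟨C₁, HC⟩ := hP.late
  -- constants
  obtain ⟨W, hW⟩ : ∃ W : ℝ, W = m * Real.log (1 + R1) * (κ + κb) + |K2 η| * (2 + R1 ^ 2) := ⟨_, rfl⟩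
  have hlR : 0 ≤ Real.log (1 + R1) := Real.log_nonneg (by linarith)
  have hW0 : 0 ≤ W := by rw [hW]; positivity
  refine ⟨κb / 4, R1, 2 * |ℓa| + 2 * |ℓb| + 2 * |ℓc| + |C₁| + 4 * W / κb + 1, by positivity, ?_⟩
  intro N μ Λ hD T hC HB τ hτ0 hτ1 hκτ
  obtain ⟨c, hc⟩ : ∃ c : ℝ, c = Pool.Agent.J4H34.HF.cond N μ T := ⟨_, rfl⟩
  rw [← hc] at hC hκτ ⊢
  have q1 : 0 ≤ 4 * W / κb := by positivity
  have a1 := abs_nonneg ℓa
  have a2 := abs_nonneg ℓb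
  have a3 := abs_nonneg ℓc
  have a4 := abs_nonneg C₁
  have b1 := le_abs_self ℓa
  have b2 := le_abs_self ℓb
  have b3 := le_abs_self ℓc
  have b4 := le_abs_self C₁
  have hNi := hP.one_le hD
  have hlc : 0 < Real.log c := by linarith
  have hℓc : lT N μ T = Real.log c / 2 := by rw [lT, hc]
  rcases lt_or_ge X0 (τ * Real.log c) with h2 | h2
  · -- late times
    intro S hS
    have hS0 : S = ∅ := by
      rw [Finset.eq_empty_iff_forall_notMem]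
      intro s hs
      obtain ⟨h3, h4, h5⟩ := hS s hs
      exact h4 (HC N μ Λ hD τ T hτ0 hτ1 (by rw [← hc]; linarith)
        (by rw [← hc]; exact h2.le) s h5 h3)
    rw [hS0, Finset.sum_empty]
    positivity
  obtain ⟨hud, hgi, hgu⟩ := H1 N μ Λ hD T
  have hG := hud.hG
  obtain ⟨G, hGd⟩ : ∃ G : ℝ, G = GT N μ T := ⟨_, rfl⟩
  obtain ⟨ℓ, hℓ⟩ : ∃ ℓ : ℝ, ℓ = lT N μ T := ⟨_, rfl⟩
  have hpf := HP N μ Λ hD T (by rw [hℓc]; linarith)
  rw [← hℓ] at hℓc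
  have hWℓ : W ≤ κb / 2 * ℓ := by
    have : 4 * W / κb ≤ Real.log c := by linarith
    rw [div_le_iff₀ hκb] at this
    rw [hℓc]
    linarith
  have hsz := HN ℓ G (fT N Λ T) (by rw [hℓc]; linarith) (by rw [hℓ, hGd]; exact hud)
    (by rw [hℓ, hGd, ← hη]; exact hpf) (by
    intro k hk1 hkM v hv
    have hk1' : (1 : ℝ) ≤ k := by exact_mod_cast hk1
    have hkM' : (k : ℝ) ≤ M := by exact_mod_cast hkM
    obtain ⟨r, hr⟩ : ∃ r : ℝ, r = k / (2 * M) := ⟨_, rfl⟩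
    have hrη : η ≤ r := by rw [hη, hr]; gcongr
    have hr2 : r ≤ 1 / 2 := by
      rw [hr, div_le_iff₀ (by positivity)]
      linarith
    have hr0 : 0 ≤ r := by linarith
    have e1 : ((k / (2 * M) : ℝ) : ℂ) = (r : ℂ) := by rw [hr]
    rw [e1, ← hr]
    obtain ⟨u, hu⟩ : ∃ u : ℂ, u = (r : ℂ) + v * I := ⟨_, rfl⟩
    have hure : u.re = r := by rw [hu]; simp
    have huim : u.im = v := by rw [hu]; simp
    obtain ⟨hg0, hgup⟩ := hgu η hη0 u (by rw [hure]; exact hrη)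
    rw [← hu]
    have hu2 : ‖u‖ ^ 2 ≤ 1 + R1 ^ 2 := by
      rw [← Complex.normSq_eq_norm_sq, Complex.normSq_apply, hure, huim]
      have : v * v ≤ R1 ^ 2 := by
        rw [← sq, ← sq_abs]; exact pow_le_pow_left₀ (abs_nonneg _) hv 2
      nlinarith
    have hfac : fT N Λ T u = Lf μ Λ (1 / 2 + T * I + u) * gT N μ T u := by
      rw [Lf_eq (by linarith : 0 < N)]
      unfold fT
      have : gT N μ T u = _root_.H353.E.gaf N μ (1 / 2 + T * I + u) := rfl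
      rw [← this, mul_assoc, inv_mul_cancel₀ hg0, mul_one]
    have hL := HB (T + v) r (by rw [add_sub_cancel_left]; exact hv) hr0 hr2
    have e2 : (1 / 2 + (r : ℂ) + ((T + v : ℝ) : ℂ) * I) = 1 / 2 + T * I + u := by
      rw [hu]; push_cast; ring
    rw [e2] at hL
    obtain ⟨E, hE⟩ : ∃ E : ℝ, E = max (κ - r) 0 ^ 2 / (4 * κ) + κb / 4 := ⟨_, rfl⟩
    have hmx : max (κ - r) 0 ^ 2 / (4 * κ) ≤ κ / 4 := by
      rw [div_le_iff₀ (by positivity)]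
      have h3 : max (κ - r) 0 ≤ κ := max_le (by linarith) hκ.le
      have h4 : max (κ - r) 0 ^ 2 ≤ κ ^ 2 := pow_le_pow_left₀ (le_max_right _ _) h3 2
      nlinarith
    have hE0 : 0 ≤ E := by rw [hE]; positivity
    have hE1 : E ≤ κ + κb := by rw [hE]; linarith
    rw [← hE] at hL
    have hcv := log_cond_shift (μ := μ) hNi T v
    rw [← hc] at hcv
    have hcv0 : 0 < Pool.Agent.J4H34.HF.cond N μ (T + v) := by
      have := Pool.Agent.J4H34.HF.cond_ge (μ := μ) hNi (T + v)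
      linarith
    have hlv : m * Real.log (1 + |v|) ≤ m * Real.log (1 + R1) := by
      apply mul_le_mul_of_nonneg_left _ (Nat.cast_nonneg m)
      exact Real.log_le_log (by positivity) (by linarith)
    have hL2 : ‖Lf μ Λ (1 / 2 + T * I + u)‖ ≤
        Real.exp ((Real.log c + m * Real.log (1 + R1)) * E) := by
      refine hL.trans ?_
      rw [Real.rpow_def_of_pos hcv0]
      apply Real.exp_le_exp.2
      exact mul_le_mul_of_nonneg_right (by linarith) hE0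
    rw [hfac, norm_mul]
    rw [← hGd, ← hℓ, hure] at hgup
    have hK2 : K2 η * (1 + ‖u‖ ^ 2) ≤ |K2 η| * (2 + R1 ^ 2) := by
      calc K2 η * (1 + ‖u‖ ^ 2) ≤ |K2 η| * (1 + ‖u‖ ^ 2) :=
            mul_le_mul_of_nonneg_right (le_abs_self _) (by positivity)
        _ ≤ |K2 η| * (2 + R1 ^ 2) := mul_le_mul_of_nonneg_left (by linarith) (abs_nonneg _)
    calc ‖Lf μ Λ (1 / 2 + T * I + u)‖ * ‖gT N μ T u‖
        ≤ Real.exp ((Real.log c + m * Real.log (1 + R1)) * E) *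
          (G * Real.exp (ℓ * r + K2 η * (1 + ‖u‖ ^ 2))) :=
          mul_le_mul hL2 hgup (norm_nonneg _) (Real.exp_pos _).le
      _ = G * Real.exp ((Real.log c + m * Real.log (1 + R1)) * E +
            (ℓ * r + K2 η * (1 + ‖u‖ ^ 2))) := by
          rw [Real.exp_add ((Real.log c + m * Real.log (1 + R1)) * E)]; ring
      _ ≤ G * Real.exp (ℓ * phx κ r + κb * ℓ) := by
          apply mul_le_mul_of_nonneg_left _ (by rw [hGd]; exact hG.le)
          apply Real.exp_le_exp.2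
          have h14 : phx κ r = r + max (κ - r) 0 ^ 2 / (2 * κ) := rfl
          have h15 : max (κ - r) 0 ^ 2 / (2 * κ) = 2 * (max (κ - r) 0 ^ 2 / (4 * κ)) := by
            field_simp
            ring
          have h16 : m * Real.log (1 + R1) * E ≤ m * Real.log (1 + R1) * (κ + κb) :=
            mul_le_mul_of_nonneg_left hE1 (by positivity)
          rw [h14, h15]
          have h17 : Real.log c * E = ℓ * (2 * (max (κ - r) 0 ^ 2 / (4 * κ))) + κb / 2 * ℓ := by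
            rw [hE, hℓc]; ring
          rw [hW] at hWℓ
          nlinarith)
  have hcnt := HO ℓ G τ (fT N Λ T) (by rw [hℓc]; linarith) (by rw [hℓ, hGd]; exact hud) hsz hτ0
    (by rw [hℓc]; linarith) (by rw [hℓc]; linarith)
  have h3 := cnt_to hτ0 (F := Xi N Λ) (1 / 2 + (T : ℂ) * I)
    (A := {s : ℂ | s.re ≠ 1 / 2 ∧ |s.im - T| ≤ 1}) hcnt (by
      intro s hs hz
      have hst := hP.strip hD hτ0 hz
      have hre : (s - (1 / 2 + (T : ℂ) * I)).re = s.re - 1 / 2 := by simp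
      have him : (s - (1 / 2 + (T : ℂ) * I)).im = s.im - T := by simp
      simp only [Set.mem_ofPred_eq]
      rw [hre, him]
      refine ⟨fun h0 => hs.1 (by linarith), by linarith, hs.2⟩)
  refine Cnt_mono h3 (fun z hz => hz) ?_
  rw [hℓc]
  nlinarith

end Pool.Agent.J4H1.LG
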