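import Pool.Agent.J4H1.LG.Fw2
import Pool.Agent.J4H1.LG.L

/-!
# Project LG: local consequences of all zeros of the flow on the line
-/

set_option autoImplicit false

open Complex MeasureTheory Filter Topology Set
open scoped ComplexConjugate

namespace Pool.Agent.J4H1.LG

open Pool.Agent.W169.HF (UD Pf Mj Cnt phx Slow)
open Pool.Agent.J4H1.LH
open Pool.Agent.J4H34.HF (Xi)

/-- all zeros of the flow near height `T` on the line: no zeros of `ξ` far to the right at height `T` -/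
theorem local_zf (hA : AllS) {m : ℕ} {X0 : ℝ} {P : ℝ → (Fin m → ℂ) → (ℂ → ℂ) → Prop}
    (hP : Cls m X0 P) {κ ε0 : ℝ} (hκ : 0 < κ) (hε0 : 0 < ε0) : ∃ R C₀ : ℝ,
      ∀ (N : ℝ) (μ : Fin m → ℂ) (Λ : ℂ → ℂ),
      P N μ Λ → ∀ T : ℝ, C₀ ≤ Real.log (Pool.Agent.J4H34.HF.cond N μ T) →
      (∀ s : ℂ, |s.im - T| ≤ R →
        Pool.Agent.J4H34.HF.heat (κ / Real.log (Pool.Agent.J4H34.HF.cond N μ T)) (Xi N Λ) s = 0 →
        s.re = 1 / 2) →
      ∀ s : ℂ, s.im = T → 1 / 2 + κ + ε0 ≤ s.re → Xi N Λ s ≠ 0 := by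
  obtain ⟨K1, K2, hK1, H1, H2⟩ := hP.aut
  obtain ⟨g, hg⟩ : ∃ g : ℝ, g = min κ ε0 := ⟨_, rfl⟩
  have hg0 : 0 < g := by rw [hg]; exact lt_min hκ hε0
  have hg1 : g ≤ κ := by rw [hg]; exact min_le_left _ _
  have hg2 : g ≤ ε0 := by rw [hg]; exact min_le_right _ _
  obtain ⟨R, ℓf, HF⟩ := hA.bwd K1 (3 / 2) g (max κ 1) hK1 (by norm_num) (by norm_num) hg0
    (le_max_right _ _)
  refine ⟨R, 2 * |ℓf| + κ + 1, ?_⟩
  intro N μ Λ hD T hC hall s hsT hs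
  obtain ⟨c, hc⟩ : ∃ c : ℝ, c = Pool.Agent.J4H34.HF.cond N μ T := ⟨_, rfl⟩
  rw [← hc] at hC hall
  have a1 := abs_nonneg ℓf
  have b1 := le_abs_self ℓf
  have hlc : 0 < Real.log c := by linarith
  have hℓc : lT N μ T = Real.log c / 2 := by rw [lT, hc]
  rcases lt_or_ge 1 s.re with h1 | h1
  · exact hP.re1 hD s h1
  obtain ⟨τ, hτ⟩ : ∃ τ : ℝ, τ = κ / Real.log c := ⟨_, rfl⟩
  rw [← hτ] at hall
  have hτ0 : 0 < τ := by rw [hτ]; positivity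
  have hτc : τ * Real.log c = κ := by rw [hτ]; field_simp
  have h2tℓ : 2 * τ * lT N μ T = κ := by rw [hℓc, ← hτc]; ring
  obtain ⟨hud, hgi, hgu⟩ := H1 N μ Λ hD T
  have h3 := HF (lT N μ T) (GT N μ T) τ (fT N Λ T)
    (by rw [hℓc]; linarith) hud hτ0 (by rw [h2tℓ]; exact hg1) (by rw [h2tℓ]; exact le_max_left _ _) (by
      intro u hu1 hu2 hu3
      have h4 : Pool.Agent.J4H34.HF.heat τ (Xi N Λ) (1 / 2 + T * I + u) = 0 := by
        rw [heat_eq hτ0]; exact hu3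
      have him : (1 / 2 + (T : ℂ) * I + u).im = T + u.im := by simp
      have hre : (1 / 2 + (T : ℂ) * I + u).re = 1 / 2 + u.re := by simp
      have h8 := hall (1 / 2 + T * I + u) (by rw [him, add_sub_cancel_left]; exact hu2) h4
      rw [hre] at h8
      linarith) (s.re - 1 / 2) (by rw [h2tℓ]; linarith) (by linarith)
  intro h0
  apply h3
  unfold fT
  have e2 : (1 / 2 + (T : ℂ) * I) + ((s.re - 1 / 2 : ℝ) : ℂ) = s := by
    rw [← hsT]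
    apply Complex.ext <;> simp
  rw [e2]
  exact h0

/-- all zeros of the flow near height `T` on the line: size and zeros at height `T` -/
theorem local_back (hA : AllS) {m : ℕ} {X0 : ℝ} {P : ℝ → (Fin m → ℂ) → (ℂ → ℂ) → Prop}
    (hP : Cls m X0 P) {κ ε0 : ℝ} (hκ : 0 < κ) (hε0 : 0 < ε0) : ∃ R C₀ : ℝ,
      ∀ (N : ℝ) (μ : Fin m → ℂ) (Λ : ℂ → ℂ),
      P N μ Λ → ∀ T : ℝ, C₀ ≤ Real.log (Pool.Agent.J4H34.HF.cond N μ T) →
      (∀ s : ℂ, |s.im - T| ≤ R →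
        Pool.Agent.J4H34.HF.heat (κ / Real.log (Pool.Agent.J4H34.HF.cond N μ T)) (Xi N Λ) s = 0 →
        s.re = 1 / 2) →
      (∀ r : ℝ, 0 ≤ r → r ≤ 1 / 2 → ‖Lf μ Λ (1 / 2 + r + T * I)‖ ≤
        Pool.Agent.J4H34.HF.cond N μ T ^ (max (κ - r) 0 ^ 2 / (4 * κ) + ε0)) ∧
      ∀ s : ℂ, s.im = T → 1 / 2 + κ + ε0 ≤ s.re → Xi N Λ s ≠ 0 := by
  obtain ⟨R1, C1, H1⟩ := local_zf hA hP hκ hε0
  obtain ⟨δ, R2, C2, hδ, H2⟩ := local_size hA hP hκ hε0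
  refine ⟨max R1 R2, max (max C1 C2) 0, ?_⟩
  intro N μ Λ hD T hC hall
  have hC1 : C1 ≤ Real.log (Pool.Agent.J4H34.HF.cond N μ T) :=
    (le_max_left _ _).trans ((le_max_left _ _).trans hC)
  have hC2 : C2 ≤ Real.log (Pool.Agent.J4H34.HF.cond N μ T) :=
    (le_max_right _ _).trans ((le_max_left _ _).trans hC)
  have hC3 : 0 ≤ Real.log (Pool.Agent.J4H34.HF.cond N μ T) := (le_max_right _ _).trans hC
  refine ⟨H2 N μ Λ hD T hC2 ?_, H1 N μ Λ hD T hC1 fun s hs => hall s (hs.trans (le_max_left _ _))⟩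
  intro S hS
  have hS0 : S = ∅ := by
    rw [Finset.eq_empty_iff_forall_notMem]
    intro s hs
    obtain ⟨h3, h4, h5⟩ := hS s hs
    have h6 := hall s (h5.trans (le_max_right _ _)) h3
    rw [h6, sub_self, abs_zero] at h4
    linarith
  rw [hS0, Finset.sum_empty]
  positivity

end Pool.Agent.J4H1.LG
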