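import Pool.Agent.J4H1.LG.Fw1
import Pool.Agent.J4H1.LH.Off4

/-!
# Project LG: simple zeros of the flow
-/

set_option autoImplicit false

open Complex MeasureTheory Filter Topology Set
open scoped ComplexConjugate

namespace Pool.Agent.J4H1.LG

open Pool.Agent.W169.HF (UD Pf phx J heat S_SADL Slow hh)
open W327.HF

/-- the derivative of the half-line integral -/
lemma compare_deriv {J : ℂ → ℂ} {r M A : ℝ} (hr : 0 < r) (hM : 0 < M)
    (hJ : ∀ z ∈ Metric.ball (0 : ℂ) r, DifferentiableAt ℂ J z)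
    (hJ0 : ∀ z ∈ Metric.ball (0 : ℂ) r, J z ≠ 0)
    (hb : ∀ z ∈ Metric.ball (0 : ℂ) r, ‖J z‖ ≤ Real.exp (A * z.re + M) * ‖J (-z)‖)
    (hA : 4 * M < A * r) : 0 < (deriv J 0 / J 0).re := by
  have hneg : ∀ z ∈ Metric.ball (0 : ℂ) r, -z ∈ Metric.ball (0 : ℂ) r := by
    intro z hz
    rw [mem_ball_zero_iff] at hz ⊢
    rwa [norm_neg]
  have h0 : (0 : ℂ) ∈ Metric.ball (0 : ℂ) r := Metric.mem_ball_self hr
  obtain ⟨f, hf, hf0, hfk⟩ := exlog (k := fun z => J z / (J (-z) * cexp (A * z))) hr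
    (by
      intro z hz
      apply DifferentiableAt.differentiableWithinAt
      apply (hJ z hz).div
      · apply DifferentiableAt.mul
        · exact (hJ (-z) (hneg z hz)).comp z differentiableAt_id.neg
        · fun_prop
      · exact mul_ne_zero (hJ0 _ (hneg z hz)) (Complex.exp_ne_zero _))
    (fun z hz => div_ne_zero (hJ0 z hz) (mul_ne_zero (hJ0 _ (hneg z hz)) (Complex.exp_ne_zero _)))
    (by
      have := hJ0 0 (Metric.mem_ball_self hr)
      simp [this])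
  have hre : ∀ z ∈ Metric.ball (0 : ℂ) r, (f z).re ≤ M := by
    intro z hz
    have h1 : ‖J z / (J (-z) * cexp (A * z))‖ ≤ Real.exp M := by
      rw [norm_div, norm_mul, Complex.norm_exp, div_le_iff₀ (mul_pos (norm_pos_iff.2 (hJ0 _ (hneg z hz)))
        (Real.exp_pos _)), Complex.re_ofReal_mul]
      refine (hb z hz).trans (le_of_eq ?_)
      rw [Real.exp_add]
      ring
    rw [hfk z hz, Complex.norm_exp] at h1
    exact Real.exp_le_exp.1 h1
  have hfd : HasDerivAt f (deriv f 0) 0 := (hf.differentiableAt (Metric.isOpen_ball.mem_nhds h0)).hasDerivAt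
  have hbd : ‖deriv f 0‖ ≤ 4 * M / r := by
    refine hfd.le_of_lip' (by positivity) ?_
    filter_upwards [Metric.ball_mem_nhds (0 : ℂ) (by positivity : 0 < r / 2)] with z hz
    rw [mem_ball_zero_iff] at hz
    have hz' : z ∈ Metric.ball (0 : ℂ) r := by rw [mem_ball_zero_iff]; linarith
    have hbc := borelCaratheodory_zero hM hf (fun z hz => hre z hz) hr hz' hf0
    rw [hf0, sub_zero, sub_zero]
    refine hbc.trans ?_
    have hn := norm_nonneg z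
    rw [div_mul_eq_mul_div, div_le_div_iff₀ (by linarith) hr]
    have : 0 ≤ M * ‖z‖ := by positivity
    nlinarith
  -- the identity of derivatives
  have hJd : HasDerivAt J (deriv J 0) 0 := (hJ 0 h0).hasDerivAt
  have hJn : HasDerivAt (fun z => J (-z)) (-deriv J 0) 0 := by
    have h1 : HasDerivAt J (deriv J 0) (-(0 : ℂ)) := by rw [neg_zero]; exact hJd
    have h2 : HasDerivAt (fun z => J (-z)) (deriv J 0 * (-1)) 0 :=
      HasDerivAt.comp (0 : ℂ) h1 (hasDerivAt_neg (0 : ℂ))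
    exact h2.congr_deriv (by ring)
  have hE : HasDerivAt (fun z : ℂ => cexp (A * z + f z)) ((A : ℂ) + deriv f 0) 0 := by
    have h1 : HasDerivAt (fun z : ℂ => (A : ℂ) * z + f z) ((A : ℂ) + deriv f 0) 0 := by
      have h2 : HasDerivAt (fun z : ℂ => (A : ℂ) * z) (A : ℂ) 0 := by
        simpa using (hasDerivAt_id (0 : ℂ)).const_mul (A : ℂ)
      exact h2.add hfd
    have h3 := h1.cexp
    simp only [mul_zero, hf0, add_zero, Complex.exp_zero, one_mul] at h3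
    exact h3
  have hprod : HasDerivAt (fun z => J (-z) * cexp (A * z + f z))
      (-deriv J 0 + J 0 * ((A : ℂ) + deriv f 0)) 0 := by
    have h1 := hJn.fun_mul hE
    simp only [mul_zero, hf0, add_zero, Complex.exp_zero, mul_one, neg_zero] at h1
    exact h1
  have heq : J =ᶠ[𝓝 0] fun z => J (-z) * cexp (A * z + f z) := by
    filter_upwards [Metric.ball_mem_nhds (0 : ℂ) hr] with z hz
    have h1 := hfk z hz
    have h2 := hJ0 _ (hneg z hz)
    have h3 := Complex.exp_ne_zero ((A : ℂ) * z)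
    rw [div_eq_iff (mul_ne_zero h2 h3)] at h1
    rw [h1, Complex.exp_add]
    ring
  have h5 := (hprod.congr_of_eventuallyEq heq).unique hJd
  have hJ00 := hJ0 0 h0
  have h6 : deriv J 0 / J 0 = ((A : ℂ) + deriv f 0) / 2 := by
    rw [div_eq_iff hJ00]
    linear_combination (-1 / 2 : ℂ) * h5
  rw [h6]
  have h7 : (((A : ℂ) + deriv f 0) / 2).re = (A + (deriv f 0).re) / 2 := by
    have : ((A : ℂ) + deriv f 0) / 2 = ((A : ℂ) + deriv f 0) / ((2 : ℝ) : ℂ) := by norm_num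
    rw [this, Complex.div_ofReal_re, add_re, ofReal_re]
  rw [h7]
  have h8 := (Complex.abs_re_le_norm (deriv f 0)).trans hbd
  rw [abs_le] at h8
  have h9 : 4 * M / r < A := by rw [div_lt_iff₀ hr]; exact hA
  linarith [h8.1]

/-- the flow on the real line in terms of the half-line integral -/
lemma heat_rep {f : ℂ → ℂ} (hf : Slow f) {ε : ℂ}
    (hfe : ∀ u : ℂ, f u = ε * conj (f (-conj u))) {t : ℝ} (ht : 0 < t) (x : ℝ) :
    heat t f x = ((1 / Real.sqrt (4 * Real.pi * t) * Real.exp (-(x ^ 2 / (4 * t))) : ℝ) : ℂ) *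
      (J t f ((x / (2 * t) : ℝ) : ℂ) + ε * conj (J t f ((-x / (2 * t) : ℝ) : ℂ))) := by
  have h1 := Pool.Agent.W806.HF.rep (fun s => f (s - 1 / 2)) ε (slow_shift hf) (by
    intro s
    have e : -conj (s - 1 / 2) = 1 - conj s - 1 / 2 := by
      simp only [map_sub, map_div₀, map_one, map_ofNat]
      ring
    have e2 := hfe (s - 1 / 2)
    rw [e] at e2
    exact e2) t 0 x ht
  have h2 : heat t (fun s => f (s - 1 / 2)) (1 / 2 + (x : ℂ) + ((0 : ℝ) : ℂ) * I) = heat t f x := by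
    have e : ∀ v : ℝ, (1 / 2 + (x : ℂ) + ((0 : ℝ) : ℂ) * I + ((2 * Real.sqrt t * v : ℝ) : ℂ) - 1 / 2) =
        (x : ℂ) + ((2 * Real.sqrt t * v : ℝ) : ℂ) := by
      intro v
      push_cast; ring
    unfold heat
    simp only [e]
  have h3 : ∀ y : ℝ, hh t (fun u : ℝ => f (1 / 2 + (u : ℂ) + ((0 : ℝ) : ℂ) * I - 1 / 2)) y =
      J t f ((y / (2 * t) : ℝ) : ℂ) := by
    intro y
    unfold hh J
    refine integral_congr_ae (Eventually.of_forall fun r => ?_)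
    simp only
    congr 1
    · push_cast
      congr 1
      ring
    · congr 1
      push_cast; ring
  rw [h2, h3, h3] at h1
  exact h1

/-- a zero of the flow at `0` is simple -/
lemma heat_simple {f : ℂ → ℂ} (hf : Slow f) {ε : ℂ}
    (hfe : ∀ u : ℂ, f u = ε * conj (f (-conj u))) {t : ℝ} (ht : 0 < t) (h0 : heat t f 0 = 0)
    (hJ0 : J t f 0 ≠ 0) (hre : 0 < (deriv (J t f) 0 / J t f 0).re) : deriv (heat t f) 0 ≠ 0 := by
  obtain ⟨b, hb⟩ : ∃ b : ℂ, b = J t f 0 := ⟨_, rfl⟩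
  obtain ⟨d, hd⟩ : ∃ d : ℂ, d = deriv (J t f) 0 := ⟨_, rfl⟩
  rw [← hb] at hJ0 hre
  rw [← hd] at hre
  have hJd : HasDerivAt (J t f) d 0 := by rw [hd]; exact (J_diff hf ht 0).hasDerivAt
  have hq : 0 < Real.sqrt (4 * Real.pi * t) := Real.sqrt_pos.mpr (by positivity)
  have h2t : (2 * (t : ℂ)) ≠ 0 := by
    have : (t : ℂ) ≠ 0 := by exact_mod_cast ht.ne'
    simpa using this
  -- the value
  have hval : b + ε * conj b = 0 := by
    have h1 := heat_rep hf hfe ht 0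
    rw [Complex.ofReal_zero, h0] at h1
    simp only [zero_div, neg_zero, Complex.ofReal_zero] at h1
    rw [← hb] at h1
    rcases mul_eq_zero.1 h1.symm with h2 | h2
    · exfalso
      have h3 : (1 / Real.sqrt (4 * Real.pi * t) * Real.exp (-((0:ℝ) ^ 2 / (4 * t)))) = 0 := by
        exact_mod_cast h2
      have h4 : 0 < 1 / Real.sqrt (4 * Real.pi * t) * Real.exp (-((0:ℝ) ^ 2 / (4 * t))) := by positivity
      linarith
    · exact h2
  -- derivatives of the two parts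
  have hJr : HasDerivAt (fun x : ℝ => J t f ((x / (2 * t) : ℝ) : ℂ)) (d / (2 * t)) 0 := by
    have h1 : HasDerivAt (fun z : ℂ => z / (2 * (t : ℂ))) (1 / (2 * (t : ℂ))) (((0 : ℝ)) : ℂ) :=
      (hasDerivAt_id _).div_const _
    have h2 : HasDerivAt (J t f) d ((((0 : ℝ)) : ℂ) / (2 * (t : ℂ))) := by
      rw [Complex.ofReal_zero, zero_div]; exact hJd
    have h3 : HasDerivAt (fun z : ℂ => J t f (z / (2 * (t : ℂ)))) (d * (1 / (2 * (t : ℂ)))) (((0 : ℝ)) : ℂ) :=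
      HasDerivAt.comp (h := fun z : ℂ => z / (2 * (t : ℂ))) (((0 : ℝ)) : ℂ) h2 h1
    have h4 := h3.comp_ofReal
    have e : (fun x : ℝ => J t f ((x / (2 * t) : ℝ) : ℂ)) = fun x : ℝ => J t f ((x : ℂ) / (2 * (t : ℂ))) := by
      funext x
      push_cast
      rfl
    rw [e]
    exact h4.congr_deriv (by ring)
  have hJl : HasDerivAt (fun x : ℝ => J t f ((-x / (2 * t) : ℝ) : ℂ)) (-(d / (2 * t))) 0 := by
    have h1 : HasDerivAt (fun z : ℂ => -z / (2 * (t : ℂ))) (-1 / (2 * (t : ℂ))) (((0 : ℝ)) : ℂ) :=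
      (hasDerivAt_neg _).div_const _
    have h2 : HasDerivAt (J t f) d (-(((0 : ℝ)) : ℂ) / (2 * (t : ℂ))) := by
      rw [Complex.ofReal_zero, neg_zero, zero_div]; exact hJd
    have h3 : HasDerivAt (fun z : ℂ => J t f (-z / (2 * (t : ℂ)))) (d * (-1 / (2 * (t : ℂ)))) (((0 : ℝ)) : ℂ) :=
      HasDerivAt.comp (h := fun z : ℂ => -z / (2 * (t : ℂ))) (((0 : ℝ)) : ℂ) h2 h1
    have h4 := h3.comp_ofReal
    have e : (fun x : ℝ => J t f ((-x / (2 * t) : ℝ) : ℂ)) = fun x : ℝ => J t f (-(x : ℂ) / (2 * (t : ℂ))) := by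
      funext x
      push_cast
      rfl
    rw [e]
    exact h4.congr_deriv (by ring)
  have hJc : HasDerivAt (fun x : ℝ => conj (J t f ((-x / (2 * t) : ℝ) : ℂ))) (conj (-(d / (2 * t)))) 0 := by
    have h1 := hJl.star
    exact h1
  have hsum := hJr.add (hJc.const_mul ε)
  have hc : HasDerivAt (fun x : ℝ => ((1 / Real.sqrt (4 * Real.pi * t) * Real.exp (-(x ^ 2 / (4 * t))) : ℝ) : ℂ))
      (((1 / Real.sqrt (4 * Real.pi * t) * (Real.exp (-((0:ℝ) ^ 2 / (4 * t))) * (-((0:ℝ) / (2 * t)))) : ℝ) : ℂ)) 0 :=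
    ((Pool.Agent.J4H34.HF.gder (τ := t) 0).const_mul _).ofReal_comp
  have hprod := hc.fun_mul hsum
  have hder1 : HasDerivAt (fun x : ℝ => heat t f (x : ℂ)) (deriv (heat t f) 0) 0 := by
    have h1 : HasDerivAt (heat t f) (deriv (heat t f) 0) (((0 : ℝ) : ℂ)) := by
      rw [Complex.ofReal_zero]
      exact ((Pool.Agent.J4H1.LH.heat_diff hf t) 0).hasDerivAt
    exact h1.comp_ofReal
  have hfun : (fun x : ℝ => heat t f (x : ℂ)) = fun x : ℝ =>
      ((1 / Real.sqrt (4 * Real.pi * t) * Real.exp (-(x ^ 2 / (4 * t))) : ℝ) : ℂ) *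
      (J t f ((x / (2 * t) : ℝ) : ℂ) + ε * conj (J t f ((-x / (2 * t) : ℝ) : ℂ))) :=
    funext fun x => heat_rep hf hfe ht x
  rw [hfun] at hder1
  intro hzero
  have h1 := hder1.unique hprod
  rw [hzero] at h1
  have hc0 : ((1 / Real.sqrt (4 * Real.pi * t) * Real.exp (-((0:ℝ) ^ 2 / (4 * t))) : ℝ) : ℂ) ≠ 0 := by
    have : (1 / Real.sqrt (4 * Real.pi * t) * Real.exp (-((0:ℝ) ^ 2 / (4 * t)))) ≠ 0 := by positivity
    exact_mod_cast this
  have hv0 : J t f (((0 : ℝ) / (2 * t) : ℝ) : ℂ) + ε * conj (J t f ((-(0 : ℝ) / (2 * t) : ℝ) : ℂ)) = 0 := by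
    rw [neg_zero, zero_div, Complex.ofReal_zero, ← hb]
    exact hval
  rw [Pi.add_apply, hv0, mul_zero, zero_add] at h1
  rcases mul_eq_zero.1 h1.symm with h2 | h2
  · exact hc0 h2
  · -- `d = ε conj d`, `b = - ε conj b`
    have h3 : d = ε * conj d := by
      have e1 : conj (-(d / (2 * (t : ℂ)))) = -(conj d / (2 * t)) := by
        rw [map_neg, map_div₀, map_mul, Complex.conj_ofReal, map_ofNat]
      rw [e1] at h2
      have h4 : (d - ε * conj d) / (2 * t) = 0 := by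
        rw [← h2]; ring
      rcases div_eq_zero_iff.1 h4 with h5 | h5
      · exact sub_eq_zero.1 h5
      · exact absurd h5 h2t
    have h4 : b = -(ε * conj b) := eq_neg_of_add_eq_zero_left hval
    have hbc : conj b ≠ 0 := by
      intro h
      rw [h, mul_zero, neg_zero] at h4
      exact hJ0 h4
    have hε0 : ε ≠ 0 := by
      rintro rfl
      rw [zero_mul, neg_zero] at h4
      exact hJ0 h4
    have h5 : d / b = -conj (d / b) := by
      have h6 : d * conj b = -(conj d * b) := by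
        linear_combination (conj b) * h3 + (conj d) * h4
      rw [map_div₀, eq_neg_iff_add_eq_zero, div_add_div _ _ hJ0 hbc, div_eq_zero_iff]
      left
      linear_combination h6
    have h6 := congrArg Complex.re h5
    rw [Complex.neg_re, Complex.conj_re] at h6
    linarith

/-- a zero of the flow at `0` is simple -/
theorem fwd4 (hS : S_SADL) {K ϑ0 b x g X : ℝ} (hK : 1 ≤ K) (hϑ0 : 1 / 2 ≤ ϑ0) (hϑ02 : ϑ0 ≤ 2)
    (hx0 : 0 < x) (hb0 : 0 ≤ b) (hb3 : b ≤ 3) (hg : 0 < g) (hg1 : g ≤ 1) (hX : 1 ≤ X) :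
    ∃ κ R ℓ0 : ℝ, 0 < κ ∧ ∀ (ℓ G t : ℝ) (f : ℂ → ℂ), ℓ0 ≤ ℓ →
      UD K ϑ0 ℓ G f → Pf κ b R ℓ G f → Mx κ b x ℓ G f → 0 < t →
      x + g ≤ 2 * t * ℓ → b + g ≤ 2 * t * ℓ → 2 * t * ℓ ≤ X →
      heat t f 0 = 0 → deriv (heat t f) 0 ≠ 0 := by
  have hX0 : 0 < X := by linarith
  obtain ⟨ζU, hζU, hJU0⟩ := ju3 (K := K) (ϑ0 := ϑ0) (b := b) (x := x) (g := g) (X := X) (Y := 3) hK hϑ0 hϑ02
    hx0 hb3 hg hX le_rfl
  obtain ⟨ζL, hζL, hJL⟩ := jl3 hS (K := K) (ϑ0 := ϑ0) (b := b) (x := x) (g := g) (X := X) (Y := 3) hK hϑ0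
    hϑ02 hx0 hb0 hg hg1 hX le_rfl
  obtain ⟨ζ, hζd⟩ : ∃ ζ : ℝ, ζ = min (min ζU ζL) (g / (64 * X)) := ⟨_, rfl⟩
  have hζ : 0 < ζ := by rw [hζd]; exact lt_min (lt_min hζU hζL) (by positivity)
  have hζ1 : ζ ≤ ζL := by rw [hζd]; exact (min_le_left _ _).trans (min_le_right _ _)
  have hζ2 : ζ ≤ ζU := by rw [hζd]; exact (min_le_left _ _).trans (min_le_left _ _)
  have hζX : ζ * X ≤ g / 64 := by
    have : ζ ≤ g / (64 * X) := by rw [hζd]; exact min_le_right _ _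
    rw [le_div_iff₀ (by positivity)] at this
    linarith
  have hζg : ζ ≤ 1 / 64 := by nlinarith
  obtain ⟨κ0, ℓL, hκ0, hJL'⟩ := hJL ζ hζ hζ1
  obtain ⟨κ, hκd⟩ : ∃ κ : ℝ, κ = min κ0 (ζ * g / 64) := ⟨_, rfl⟩
  have hκ : 0 < κ := by rw [hκd]; exact lt_min hκ0 (by positivity)
  have hκ1 : κ ≤ κ0 := by rw [hκd]; exact min_le_left _ _
  have hκ2 : κ ≤ ζ * g / 64 := by rw [hκd]; exact min_le_right _ _
  obtain ⟨ℓU, hJU⟩ := hJU0 κ hκ
  refine ⟨κ, 2 * X + 2 * 3 + 4, max 1 (max ℓL ℓU), hκ, ?_⟩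
  intro ℓ G t f hℓ hUD hPf hMj ht hL1 hLb hL2 h0
  have hℓ1 : 1 ≤ ℓ := (le_max_left _ _).trans hℓ
  have hℓL : ℓL ≤ ℓ := ((le_max_left _ _).trans (le_max_right _ _)).trans hℓ
  have hℓU : ℓU ≤ ℓ := ((le_max_right _ _).trans (le_max_right _ _)).trans hℓ
  have hℓ0 : 0 < ℓ := by linarith
  have hG : 0 < G := hUD.hG
  have hPf0 : Pf κ0 b (2 * X + 2 * 3 + 4) ℓ G f := W327.HF.Pf_mono hPf hκ1 hℓ0.le hG.le
  have hMj0 := Mx_mono hMj hκ1 hℓ0.le hG.le
  have hL0 : 0 < 2 * t * ℓ := by positivity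
  have hgL : g ≤ 2 * t * ℓ := by linarith
  -- the bounds for `J`
  have hlow : ∀ a : ℂ, |a.im| ≤ ζ * ℓ → 2 * t * a.re ≤ 3 → -(ζ * ℓ) ≤ a.re →
      G * Real.exp (t * (ℓ + a.re) ^ 2 - ζ ^ 2 * X * ℓ) ≤ ‖J t f a‖ := by
    intro a ha1 ha2 ha3
    exact hJL' ℓ G t f hℓL hUD hPf0 hMj0 ht hL1 hLb hL2 a ha1 ha2 ha3
  have hupp : ∀ α : ℝ, 2 * t * α ≤ 3 → -(ζ * ℓ) ≤ α →
      IntegrableOn (fun r : ℝ => Real.exp (-(r ^ 2 / (4 * t)) + α * r) * ‖f r‖) (Ioi 0) ∧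
      ∫ r in Ioi (0 : ℝ), Real.exp (-(r ^ 2 / (4 * t)) + α * r) * ‖f r‖ ≤
        G * Real.exp (t * (ℓ + α) ^ 2 + 2 * κ * ℓ) := by
    intro α ha1 ha2
    refine hJU ℓ G t f hℓU hUD hPf hMj ht hL1 hLb hL2 α ha1 ?_
    have : ζ * ℓ ≤ ζU * ℓ := mul_le_mul_of_nonneg_right hζ2 hℓ0.le
    linarith
  obtain ⟨ε, hε, hfe⟩ := hUD.fe
  have hb1 : 2 * t * (ζ * ℓ) ≤ 3 := by
    have : 2 * t * (ζ * ℓ) = ζ * (2 * t * ℓ) := by ring
    rw [this]
    have h5 : ζ * (2 * t * ℓ) ≤ ζ * X := mul_le_mul_of_nonneg_left hL2 hζ.le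
    linarith
  have hzX : ζ ^ 2 * X ≤ ζ * (g / 64) := by
    have : ζ ^ 2 * X = ζ * (ζ * X) := by ring
    rw [this]
    exact mul_le_mul_of_nonneg_left hζX hζ.le
  have hζg0 : 0 < ζ * g := by positivity
  have hLζ : ζ * g ≤ ζ * (2 * t * ℓ) := mul_le_mul_of_nonneg_left hgL hζ.le
  have hball : ∀ z ∈ Metric.ball (0 : ℂ) (ζ * ℓ), |z.re| ≤ ζ * ℓ ∧ |z.im| ≤ ζ * ℓ := by
    intro z hz
    rw [mem_ball_zero_iff] at hz
    exact ⟨(Complex.abs_re_le_norm z).trans hz.le, (Complex.abs_im_le_norm z).trans hz.le⟩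
  have hlow' : ∀ z ∈ Metric.ball (0 : ℂ) (ζ * ℓ),
      G * Real.exp (t * (ℓ + z.re) ^ 2 - ζ ^ 2 * X * ℓ) ≤ ‖J t f z‖ := by
    intro z hz
    obtain ⟨b1, b2⟩ := hball z hz
    rw [abs_le] at b1
    refine hlow z b2 ?_ b1.1
    have : 2 * t * z.re ≤ 2 * t * (ζ * ℓ) := mul_le_mul_of_nonneg_left b1.2 (by positivity)
    linarith
  have hne : ∀ z ∈ Metric.ball (0 : ℂ) (ζ * ℓ), J t f z ≠ 0 := by
    intro z hz
    exact norm_pos_iff.1 (lt_of_lt_of_le (by positivity) (hlow' z hz))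
  have hζℓ : 0 < ζ * ℓ := by positivity
  refine heat_simple hUD.slow hfe ht h0 (hne 0 (Metric.mem_ball_self hζℓ)) ?_
  refine compare_deriv (J := J t f) (r := ζ * ℓ) (A := 4 * t * ℓ) (M := (2 * κ + ζ ^ 2 * X) * ℓ)
    hζℓ (by positivity) (fun z _ => J_diff hUD.slow ht z) hne ?_ ?_
  · intro z hz
    have hz' : -z ∈ Metric.ball (0 : ℂ) (ζ * ℓ) := by
      rw [mem_ball_zero_iff] at hz ⊢
      rwa [norm_neg]
    obtain ⟨b1, b2⟩ := hball z hz
    rw [abs_le] at b1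
    have q1 := (J_norm_le (t := t) (f := f) z).trans (hupp z.re (by
      have : 2 * t * z.re ≤ 2 * t * (ζ * ℓ) := mul_le_mul_of_nonneg_left b1.2 (by positivity)
      linarith) (by linarith)).2
    have q2 := hlow' (-z) hz'
    rw [Complex.neg_re] at q2
    calc ‖J t f z‖ ≤ G * Real.exp (t * (ℓ + z.re) ^ 2 + 2 * κ * ℓ) := q1
      _ = Real.exp (4 * t * ℓ * z.re + (2 * κ + ζ ^ 2 * X) * ℓ) *
            (G * Real.exp (t * (ℓ + -z.re) ^ 2 - ζ ^ 2 * X * ℓ)) := by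
          rw [mul_left_comm, ← Real.exp_add]
          congr 2; ring
      _ ≤ _ := by gcongr
  · have e : 4 * t * ℓ * (ζ * ℓ) = 2 * (ζ * (2 * t * ℓ)) * ℓ := by ring
    rw [e]
    have e2 : 4 * ((2 * κ + ζ ^ 2 * X) * ℓ) = (4 * (2 * κ + ζ ^ 2 * X)) * ℓ := by ring
    rw [e2]
    refine mul_lt_mul_of_pos_right ?_ hℓ0
    linarith

end Pool.Agent.J4H1.LG
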