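import Pool.Agent.J4H1.LG.Fw3
import Pool.Agent.J4H1.LG.Fw4

/-!
# Project LG: all zeros of the flow simple and on the line
-/

set_option autoImplicit false

open Complex MeasureTheory Filter Topology Set
open scoped ComplexConjugate

namespace Pool.Agent.J4H1.LG

open Pool.Agent.W169.HF (UD Pf Mj Cnt phx Slow S_SADL S_PROF S_NET)
open Pool.Agent.J4H1.LH
open Pool.Agent.J4H34.HF (Xi)

/-- the class, with simple zeros at late times -/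
structure ClsS (m : ℕ) (X0 : ℝ) (P : ℝ → (Fin m → ℂ) → (ℂ → ℂ) → Prop) : Prop extends Cls m X0 P where
  lateS : ∃ C₀ : ℝ, ∀ (N : ℝ) (μ : Fin m → ℂ) (Λ : ℂ → ℂ), P N μ Λ → ∀ (τ T : ℝ), 0 < τ → τ ≤ 1 →
      C₀ ≤ Real.log (Pool.Agent.J4H34.HF.cond N μ T) → X0 ≤ τ * Real.log (Pool.Agent.J4H34.HF.cond N μ T) →
      ∀ s : ℂ, |s.im - T| ≤ 1 → Pool.Agent.J4H34.HF.heat τ (Xi N Λ) s = 0 →
        deriv (Pool.Agent.J4H34.HF.heat τ (Xi N Λ)) s ≠ 0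

/-- the size and a zero-free region near height `T` give simple zeros of the flow at height `T` -/
theorem local_simp (hnet : S_NET) (sad : S_SADL) (prof : S_PROF) {m : ℕ} {X0 : ℝ}
    {P : ℝ → (Fin m → ℂ) → (ℂ → ℂ) → Prop}
    (hPS : ClsS m X0 P) {κ κ' : ℝ} (hκ : 0 < κ) (hκκ : κ < κ') : ∃ δ R C₀ : ℝ, 0 < δ ∧
      ∀ (N : ℝ) (μ : Fin m → ℂ) (Λ : ℂ → ℂ),
      P N μ Λ → ∀ T : ℝ, C₀ ≤ Real.log (Pool.Agent.J4H34.HF.cond N μ T) →
      (∀ t r : ℝ, |t - T| ≤ R → 0 ≤ r → r ≤ 1 / 2 → ‖Lf μ Λ (1 / 2 + r + t * I)‖ ≤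
        Pool.Agent.J4H34.HF.cond N μ t ^ (max (κ - r) 0 ^ 2 / (4 * κ) + δ)) →
      (∀ s : ℂ, |s.im - T| ≤ R → 1 / 2 + κ + δ < s.re → Xi N Λ s ≠ 0) →
      ∀ (τ : ℝ) (s : ℂ), 0 < τ → τ ≤ 1 → κ' ≤ τ * Real.log (Pool.Agent.J4H34.HF.cond N μ T) → s.im = T →
        Pool.Agent.J4H34.HF.heat τ (Xi N Λ) s = 0 → s.re = 1 / 2 →
          deriv (Pool.Agent.J4H34.HF.heat τ (Xi N Λ)) s ≠ 0 := by
  have hP := hPS.toCls
  obtain ⟨g, hg⟩ : ∃ g : ℝ, g = min (κ' - κ) 1 / 4 := ⟨_, rfl⟩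
  have hmin : 0 < min (κ' - κ) 1 := lt_min (by linarith) one_pos
  have hg0 : 0 < g := by rw [hg]; positivity
  have hg1 : g ≤ 1 / 4 := by rw [hg]; linarith [min_le_right (κ' - κ) 1]
  have hg2 : 4 * g ≤ κ' - κ := by rw [hg]; linarith [min_le_left (κ' - κ) 1]
  obtain ⟨b, hb0, hb1, hb2, HPr⟩ := prof_loc prof hP hκ hg0 hg1
  obtain ⟨K1, K2, hK1, H1, H2⟩ := hP.aut
  obtain ⟨κs, Rs, ℓs, hκs, HF⟩ := fwd4 sad (K := K1) (ϑ0 := 3 / 2) (b := b) (x := κ) (g := g) (X := X0) hK1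
    (by norm_num) (by norm_num) hκ hb0 (by linarith) hg0 (by linarith) (by linarith [hP.hX0])
  obtain ⟨δ1, R1, C1, hδ1, hR1, HS⟩ := size_f hnet hP (κ := κ) (κa := κs) (Ra := 1) hκ hκs le_rfl
  obtain ⟨Rb, ℓb, hRb, HPf⟩ := HPr κs (max Rs 1) hκs (le_max_right _ _)
  obtain ⟨C₁, HC⟩ := hPS.lateS
  refine ⟨min δ1 g, max R1 Rb, 2 * |ℓs| + 2 * |ℓb| + |C1| + |C₁| + 1, lt_min hδ1 hg0, ?_⟩
  intro N μ Λ hD T hC HB hzf τ s hτ0 hτ1 hκτ hsT hz hre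
  obtain ⟨c, hc⟩ : ∃ c : ℝ, c = Pool.Agent.J4H34.HF.cond N μ T := ⟨_, rfl⟩
  have hC' := hC
  rw [← hc] at hC hκτ
  have a1 := abs_nonneg ℓs
  have a2 := abs_nonneg ℓb
  have a3 := abs_nonneg C1
  have a4 := abs_nonneg C₁
  have b1 := le_abs_self ℓs
  have b2 := le_abs_self ℓb
  have b3 := le_abs_self C1
  have b4 := le_abs_self C₁
  have hNi := hP.one_le hD
  have hlc : 0 < Real.log c := by linarith
  have hℓc : lT N μ T = Real.log c / 2 := by rw [lT, hc]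
  rcases lt_or_ge X0 (τ * Real.log c) with h2 | h2
  · exact HC N μ Λ hD τ T hτ0 hτ1 (by rw [← hc]; linarith)
        (by rw [← hc]; exact h2.le) s (by rw [hsT]; simp) hz
  obtain ⟨hud, hgi, hgu⟩ := H1 N μ Λ hD T
  have hpf := HPf N μ Λ hD T (by rw [hℓc]; linarith) (by
    intro s hs1 hs2
    refine hzf s (hs1.trans (le_max_right _ _)) ?_
    have := min_le_right δ1 g
    linarith)
  have hsz := HS N μ Λ hD T (by rw [← hc]; linarith) (by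
    intro t r ht hr0 hr
    refine (HB t r (ht.trans (le_max_left _ _)) hr0 hr).trans ?_
    have hc1 := Pool.Agent.J4H34.HF.cond_ge (μ := μ) hNi t
    exact Real.rpow_le_rpow_of_exponent_le hc1 (by linarith [min_le_left δ1 g]))
  have e2 : s = (1 / 2 + (T : ℂ) * I) + 0 := by
    rw [← hsT]
    apply Complex.ext <;> simp [hre]
  have hz2 : Pool.Agent.W169.HF.heat τ (fT N Λ T) 0 = 0 := by
    rw [e2, heat_eq hτ0] at hz
    exact hz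
  have h3 := HF (lT N μ T) (GT N μ T) τ (fT N Λ T)
    (by rw [hℓc]; linarith) hud (Pf_mono hpf (le_max_left _ _)) (by
      intro r hr0 hr1
      have h4 := hsz (r : ℂ) (by rw [ofReal_re, abs_of_nonneg hr0]; linarith) (by rw [ofReal_im, abs_zero]; norm_num)
      rw [ofReal_re, abs_of_nonneg hr0] at h4
      exact h4) hτ0 (by rw [hℓc]; linarith) (by rw [hℓc]; linarith) (by rw [hℓc]; linarith) hz2
  have h4 : deriv (Pool.Agent.W169.HF.heat τ (fT N Λ T)) 0 =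
      deriv (Pool.Agent.J4H34.HF.heat τ (Xi N Λ)) ((1 / 2 + (T : ℂ) * I) + 0) := by
    have h5 : Pool.Agent.W169.HF.heat τ (fT N Λ T) =
        fun u => Pool.Agent.J4H34.HF.heat τ (Xi N Λ) ((1 / 2 + (T : ℂ) * I) + u) :=
      funext fun u => (heat_eq hτ0 (Xi N Λ) (1 / 2 + (T : ℂ) * I) u).symm
    rw [h5, deriv_comp_const_add]
  rw [h4, ← e2] at h3
  exact h3

/-- the size and a zero-free region near height `T` give: all zeros of the flow at height `T` are simple and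
on the line -/
theorem local_allx' (hnet : S_NET) (sad : S_SADL) (prof : S_PROF) {m : ℕ} {X0 : ℝ}
    {P : ℝ → (Fin m → ℂ) → (ℂ → ℂ) → Prop}
    (hPS : ClsS m X0 P) {κ κ' : ℝ} (hκ : 0 < κ) (hκκ : κ < κ') : ∃ δ R C₀ : ℝ, 0 < δ ∧
      ∀ (N : ℝ) (μ : Fin m → ℂ) (Λ : ℂ → ℂ),
      P N μ Λ → ∀ T : ℝ, C₀ ≤ Real.log (Pool.Agent.J4H34.HF.cond N μ T) →
      (∀ t r : ℝ, |t - T| ≤ R → 0 ≤ r → r ≤ 1 / 2 → ‖Lf μ Λ (1 / 2 + r + t * I)‖ ≤
        Pool.Agent.J4H34.HF.cond N μ t ^ (max (κ - r) 0 ^ 2 / (4 * κ) + δ)) →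
      (∀ s : ℂ, |s.im - T| ≤ R → 1 / 2 + κ + δ < s.re → Xi N Λ s ≠ 0) →
      ∀ (τ : ℝ) (s : ℂ), 0 < τ → τ ≤ 1 → κ' ≤ τ * Real.log (Pool.Agent.J4H34.HF.cond N μ T) → s.im = T →
        Pool.Agent.J4H34.HF.heat τ (Xi N Λ) s = 0 → s.re = 1 / 2 ∧
          deriv (Pool.Agent.J4H34.HF.heat τ (Xi N Λ)) s ≠ 0 := by
  obtain ⟨δ1, R1, C1, hδ1, H1⟩ := local_allx hnet sad prof hPS.toCls hκ hκκ
  obtain ⟨δ2, R2, C2, hδ2, H2⟩ := local_simp hnet sad prof hPS hκ hκκ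
  refine ⟨min δ1 δ2, max R1 R2, max C1 C2, lt_min hδ1 hδ2, ?_⟩
  intro N μ Λ hD T hC HB hzf τ s hτ0 hτ1 hκτ hsT hz
  have hNi := hPS.one_le hD
  have g1 : ∀ (δ R : ℝ), min δ1 δ2 ≤ δ → R ≤ max R1 R2 →
      (∀ t r : ℝ, |t - T| ≤ R → 0 ≤ r → r ≤ 1 / 2 → ‖Lf μ Λ (1 / 2 + r + t * I)‖ ≤
        Pool.Agent.J4H34.HF.cond N μ t ^ (max (κ - r) 0 ^ 2 / (4 * κ) + δ)) ∧
      (∀ s : ℂ, |s.im - T| ≤ R → 1 / 2 + κ + δ < s.re → Xi N Λ s ≠ 0) := by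
    intro δ R hδ hR
    refine ⟨fun t r ht hr0 hr => (HB t r (ht.trans hR) hr0 hr).trans ?_,
      fun s hs1 hs2 => hzf s (hs1.trans hR) (by linarith)⟩
    have hc1 := Pool.Agent.J4H34.HF.cond_ge (μ := μ) hNi t
    exact Real.rpow_le_rpow_of_exponent_le hc1 (by linarith)
  obtain ⟨p1, p2⟩ := g1 δ1 R1 (min_le_left _ _) (le_max_left _ _)
  obtain ⟨q1, q2⟩ := g1 δ2 R2 (min_le_right _ _) (le_max_right _ _)
  have hre := H1 N μ Λ hD T ((le_max_left _ _).trans hC) p1 p2 τ s hτ0 hτ1 hκτ hsT hz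
  exact ⟨hre, H2 N μ Λ hD T ((le_max_right _ _).trans hC) q1 q2 τ s hτ0 hτ1 hκτ hsT hz hre⟩

/-- all zeros simple and on the line, from the time `κ / log C` on -/
def AllS' {ι : Type} (X : ι → ℂ → ℂ) (C : ι → ℝ → ℝ) (κ : ℝ) : Prop :=
  ∃ C₀ : ℝ, ∀ (i : ι) (s : ℂ) (τ : ℝ), C₀ ≤ Real.log (C i s.im) → 0 < τ → τ ≤ 1 →
    κ ≤ τ * Real.log (C i s.im) → Pool.Agent.J4H34.HF.heat τ (X i) s = 0 →
      s.re = 1 / 2 ∧ deriv (Pool.Agent.J4H34.HF.heat τ (X i)) s ≠ 0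

lemma AllS'.on {ι : Type} {X : ι → ℂ → ℂ} {C : ι → ℝ → ℝ} {κ : ℝ} (h : AllS' X C κ) : AllOn X C κ := by
  obtain ⟨C₀, H⟩ := h
  exact ⟨C₀, fun i s τ h1 h2 h3 h4 h5 => (H i s τ h1 h2 h3 h4 h5).1⟩

section fam

variable {m : ℕ} {X0 : ℝ} {P : ℝ → (Fin m → ℂ) → (ℂ → ℂ) → Prop} {ι : Type} {N : ι → ℝ}
  {μ : ι → Fin m → ℂ} {Λ : ι → ℂ → ℂ}

/-- the size and zero-free half-planes give all zeros of the flow simple and on the line -/
theorem sizezf_to_alls (hnet : S_NET) (sad : S_SADL) (prof : S_PROF) (hP : ClsS m X0 P)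
    (hD : ∀ i, P (N i) (μ i) (Λ i)) {κ κ' : ℝ} (hκ : 0 < κ) (hκκ : κ < κ')
    (h : Size (fun i => Lf (μ i) (Λ i)) (fun i => Pool.Agent.J4H34.HF.cond (N i) (μ i)) κ)
    (hz : ∀ ϑ : ℝ, κ < ϑ → ZeroFree (fun i => Xi (N i) (Λ i))
      (fun i => Pool.Agent.J4H34.HF.cond (N i) (μ i)) ϑ) :
    AllS' (fun i => Xi (N i) (Λ i)) (fun i => Pool.Agent.J4H34.HF.cond (N i) (μ i)) κ' := by
  obtain ⟨δ, R, C₀, hδ, H⟩ := local_allx' hnet sad prof hP hκ hκκ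
  obtain ⟨B, HB⟩ := h (δ / 2) (by positivity)
  obtain ⟨C1, HZ⟩ := hz (κ + δ) (by linarith)
  obtain ⟨w, hw⟩ : ∃ w : ℝ, w = m * Real.log (1 + |R|) := ⟨_, rfl⟩
  have hw0 : 0 ≤ w := by
    rw [hw]
    exact mul_nonneg (Nat.cast_nonneg m) (Real.log_nonneg (by linarith [abs_nonneg R]))
  obtain ⟨B', hB'⟩ : ∃ B' : ℝ, B' = max B 1 := ⟨_, rfl⟩
  have hB'1 : 1 ≤ B' := by rw [hB']; exact le_max_right _ _
  have hBB' : B ≤ B' := by rw [hB']; exact le_max_left _ _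
  have hlB : 0 ≤ Real.log B' := Real.log_nonneg hB'1
  refine ⟨|C₀| + |C1| + w + 2 * Real.log B' / δ + 1, ?_⟩
  intro i s τ hC hτ0 hτ1 hκτ hz0
  simp only at hC hκτ hz0
  have q1 : 0 ≤ 2 * Real.log B' / δ := by positivity
  have a1 := abs_nonneg C₀
  have a2 := abs_nonneg C1
  have b1 := le_abs_self C₀
  have b2 := le_abs_self C1
  have hNi := hP.one_le (hD i)
  have hnear : ∀ t : ℝ, |t - s.im| ≤ R → |C1| + 2 * Real.log B' / δ ≤
      Real.log (Pool.Agent.J4H34.HF.cond (N i) (μ i) t) := by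
    intro t ht
    have h6 := log_cond_shift' (μ := μ i) hNi s.im (t - s.im)
    rw [add_sub_cancel] at h6
    have h7 : m * Real.log (1 + |t - s.im|) ≤ w := by
      rw [hw]
      apply mul_le_mul_of_nonneg_left _ (Nat.cast_nonneg m)
      exact Real.log_le_log (by positivity) (by linarith [le_abs_self R])
    linarith
  refine H (N i) (μ i) (Λ i) (hD i) s.im (by linarith) ?_ ?_ τ s hτ0 hτ1 hκτ rfl hz0
  · intro t r ht hr0 hr
    have h1 := HB i t r hr0 hr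
    simp only at h1
    have hc1 := Pool.Agent.J4H34.HF.cond_ge (μ := μ i) hNi t
    have hct : 0 < Pool.Agent.J4H34.HF.cond (N i) (μ i) t := by linarith
    have h2 := hnear t ht
    have h3 : Real.log B' ≤ Real.log (Pool.Agent.J4H34.HF.cond (N i) (μ i) t) * (δ / 2) := by
      have h4 : 2 * Real.log B' / δ ≤ Real.log (Pool.Agent.J4H34.HF.cond (N i) (μ i) t) := by linarith
      rw [div_le_iff₀ hδ] at h4
      linarith
    have h5 : B' ≤ Pool.Agent.J4H34.HF.cond (N i) (μ i) t ^ (δ / 2) := by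
      rw [Real.rpow_def_of_pos hct, ← Real.exp_log (by linarith : 0 < B')]
      exact Real.exp_le_exp.2 h3
    have h6 : 0 ≤ Pool.Agent.J4H34.HF.cond (N i) (μ i) t ^ (max (κ - r) 0 ^ 2 / (4 * κ) + δ / 2) :=
      Real.rpow_nonneg hct.le _
    refine h1.trans ((mul_le_mul_of_nonneg_right (hBB'.trans h5) h6).trans (le_of_eq ?_))
    rw [← Real.rpow_add hct]
    congr 1
    ring
  · intro s' hs1 hs2
    refine HZ i s' ?_ ?_
    · simp only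
      have h2 := hnear s'.im hs1
      linarith
    · linarith

/-- the criterion for all zeros of the flow simple and on the line -/
theorem alls_iff (hA : AllS) (sad : S_SADL) (prof : S_PROF) (hP : ClsS m X0 P)
    (hD : ∀ i, P (N i) (μ i) (Λ i)) {κ : ℝ} (hκ : 0 < κ) :
    (∀ κ' : ℝ, κ < κ' → AllS' (fun i => Xi (N i) (Λ i))
      (fun i => Pool.Agent.J4H34.HF.cond (N i) (μ i)) κ') ↔
    Size (fun i => Lf (μ i) (Λ i)) (fun i => Pool.Agent.J4H34.HF.cond (N i) (μ i)) κ ∧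
    ∀ ϑ : ℝ, κ < ϑ → ZeroFree (fun i => Xi (N i) (Λ i))
      (fun i => Pool.Agent.J4H34.HF.cond (N i) (μ i)) ϑ := by
  constructor
  · intro h
    exact (allon_iff hA sad prof hP.toCls hD hκ).1 fun κ' hκ' => (h κ' hκ').on
  · rintro ⟨h1, h2⟩ κ' hκ'
    exact sizezf_to_alls hA.net sad prof hP hD hκ hκ' h1 h2

end fam

end Pool.Agent.J4H1.LG
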