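import Pool.Agent.J4H1.LH.Fam

/-!
# Project LG: the conductor of the problem
-/

set_option autoImplicit false

open Complex MeasureTheory Filter Topology Set
open scoped ComplexConjugate

namespace Pool.Agent.J4H1.LG

open Pool.Agent.J4H1.LH

variable {m : ℕ}

/-- the analytic conductor `C_π` -/
noncomputable def cpi (N : ℝ) (μ : Fin m → ℂ) : ℝ := N * ∏ j, (1 + ‖μ j‖)

lemma cpi_one {N : ℝ} {μ : Fin m → ℂ} (hN : 1 ≤ N) : 1 ≤ cpi N μ := by
  unfold cpi
  have h1 : 1 ≤ ∏ j, (1 + ‖μ j‖) := by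
    refine Finset.prod_induction _ (fun x => (1 : ℝ) ≤ x) (fun a b ha hb => ?_) le_rfl fun j _ => ?_
    · nlinarith
    · linarith [norm_nonneg (μ j)]
  nlinarith

lemma cond_le {N : ℝ} {μ : Fin m → ℂ} (hm : 1 ≤ m) (hN : 1 ≤ N) (t : ℝ) :
    Pool.Agent.J4H34.HF.cond N μ t ≤ ((1 + |t|) * cpi N μ) ^ m := by
  have h1 := cond_shift (μ := μ) hN 0 t
  rw [zero_add] at h1
  have h2 : Pool.Agent.J4H34.HF.cond N μ 0 = cpi N μ := by
    unfold Pool.Agent.J4H34.HF.cond cpi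
    simp
  rw [h2] at h1
  have h3 := cpi_one (μ := μ) hN
  have h4 : cpi N μ ≤ cpi N μ ^ m := le_self_pow₀ h3 (by omega)
  rw [mul_pow]
  exact h1.trans (mul_le_mul_of_nonneg_left h4 (by positivity))

lemma le_cond {N : ℝ} {μ : Fin m → ℂ} (hN : 1 ≤ N) (hμ : ∑ j, (μ j).im = 0) (hm : 1 ≤ m) (t : ℝ) :
    (1 + |t|) * cpi N μ ≤ Pool.Agent.J4H34.HF.cond N μ t ^ (m + 2) := by
  have hc := Pool.Agent.J4H34.HF.cond_ge (μ := μ) hN t
  obtain ⟨c, hcd⟩ : ∃ c : ℝ, c = Pool.Agent.J4H34.HF.cond N μ t := ⟨_, rfl⟩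
  rw [← hcd] at hc ⊢
  have hp : ∀ j : Fin m, (1 : ℝ) ≤ 1 + ‖(t : ℂ) * I - μ j‖ := fun j => by
    linarith [norm_nonneg ((t : ℂ) * I - μ j)]
  have hprod : ∏ j, (1 + ‖(t : ℂ) * I - μ j‖) ≤ c := by
    rw [hcd]
    unfold Pool.Agent.J4H34.HF.cond
    have h0 : 0 ≤ ∏ j, (1 + ‖(t : ℂ) * I - μ j‖) := Finset.prod_nonneg fun j _ => by linarith [hp j]
    nlinarith
  -- `1 + |t| ≤ c`
  have ht : 1 + |t| ≤ c := by
    obtain ⟨j, hj⟩ : ∃ j : Fin m, |t| ≤ |t - (μ j).im| := by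
      by_contra hcon
      push Not at hcon
      have h1 : ∑ j, (t - (μ j).im) = m * t := by
        rw [Finset.sum_sub_distrib, hμ, Finset.sum_const, Finset.card_univ, Fintype.card_fin, nsmul_eq_mul,
          sub_zero]
      have h2 : |(m : ℝ) * t| ≤ ∑ j, |t - (μ j).im| := by
        rw [← h1]; exact Finset.abs_sum_le_sum_abs _ _
      have h3 : ∑ j, |t - (μ j).im| < ∑ _j : Fin m, |t| := by
        apply Finset.sum_lt_sum_of_nonempty
        · exact ⟨⟨0, by omega⟩, Finset.mem_univ _⟩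
        · intro j _; exact hcon j
      rw [Finset.sum_const, Finset.card_univ, Fintype.card_fin, nsmul_eq_mul] at h3
      rw [abs_mul, abs_of_nonneg (Nat.cast_nonneg m)] at h2
      linarith
    have h4 : |t - (μ j).im| ≤ ‖(t : ℂ) * I - μ j‖ := by
      have := Complex.abs_im_le_norm ((t : ℂ) * I - μ j)
      simpa using this
    have h5 : 1 + ‖(t : ℂ) * I - μ j‖ ≤ ∏ j, (1 + ‖(t : ℂ) * I - μ j‖) := by
      rw [← Finset.mul_prod_erase Finset.univ _ (Finset.mem_univ j)]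
      have h6 : 1 ≤ ∏ k ∈ Finset.univ.erase j, (1 + ‖(t : ℂ) * I - μ k‖) := by
        refine Finset.prod_induction _ (fun x => (1 : ℝ) ≤ x) (fun a b ha hb => ?_) le_rfl fun k _ => hp k
        nlinarith
      nlinarith [hp j]
    linarith
  have hcpi : cpi N μ ≤ c * c ^ m := by
    unfold cpi
    have h1 : ∏ j, (1 + ‖μ j‖) ≤ ∏ j, ((1 + ‖(t : ℂ) * I - μ j‖) * c) := by
      refine Finset.prod_le_prod (fun j _ => by positivity) fun j _ => ?_
      have h2 : ‖μ j‖ ≤ ‖(t : ℂ) * I - μ j‖ + |t| := by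
        have := norm_sub_norm_le (μ j) ((t : ℂ) * I)
        rw [norm_sub_rev] at this
        rw [norm_mul, Complex.norm_I, mul_one, Complex.norm_real, Real.norm_eq_abs] at this
        linarith
      have h3 : 1 + ‖μ j‖ ≤ (1 + ‖(t : ℂ) * I - μ j‖) * (1 + |t|) := by
        have : 0 ≤ ‖(t : ℂ) * I - μ j‖ * |t| := by positivity
        nlinarith
      exact h3.trans (mul_le_mul_of_nonneg_left ht (by linarith [hp j]))
    rw [Finset.prod_mul_distrib, Finset.prod_const, Finset.card_univ, Fintype.card_fin] at h1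
    have h4 := mul_le_mul_of_nonneg_left h1 (by linarith : 0 ≤ N)
    have h5 : N * ((∏ j, (1 + ‖(t : ℂ) * I - μ j‖)) * c ^ m) = c * c ^ m := by
      rw [hcd]; unfold Pool.Agent.J4H34.HF.cond; ring
    linarith
  calc (1 + |t|) * cpi N μ ≤ c * (c * c ^ m) :=
        mul_le_mul ht hcpi (by linarith [cpi_one (μ := μ) hN]) (by linarith)
    _ = c ^ (m + 2) := by ring

/-- the Lindelöf hypothesis in the form of the problem -/
def LindelofQ {ι : Type} (L : ι → ℂ → ℂ) (Cp : ι → ℝ) : Prop :=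
  ∀ ε : ℝ, 0 < ε → ∃ B : ℝ, ∀ (i : ι) (t : ℝ), ‖L i (1 / 2 + t * I)‖ ≤ B * ((1 + |t|) * Cp i) ^ ε

lemma lindelofQ_iff {ι : Type} {L : ι → ℂ → ℂ} {N : ι → ℝ} {μ : ι → Fin m → ℂ} (hm : 1 ≤ m)
    (hN : ∀ i, 1 ≤ N i) (hμ : ∀ i, ∑ j, (μ i j).im = 0) :
    LindelofQ L (fun i => cpi (N i) (μ i)) ↔
      LineBound L (fun i => Pool.Agent.J4H34.HF.cond (N i) (μ i)) 0 := by
  have hm0 : (0 : ℝ) < m := by exact_mod_cast hm
  constructor
  · intro h ε hε
    obtain ⟨B, HB⟩ := h (ε / (m + 2)) (by positivity)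
    refine ⟨|B|, fun i t => (HB i t).trans ?_⟩
    have h1 := le_cond (hN i) (hμ i) hm t
    have h0 : 0 ≤ (1 + |t|) * cpi (N i) (μ i) :=
      mul_nonneg (by positivity) (by linarith [cpi_one (μ := μ i) (hN i)])
    have hc := Pool.Agent.J4H34.HF.cond_ge (μ := μ i) (hN i) t
    have h2 := Real.rpow_le_rpow h0 h1 (by positivity : 0 ≤ ε / ((m : ℝ) + 2))
    have h3 : (Pool.Agent.J4H34.HF.cond (N i) (μ i) t ^ (m + 2)) ^ (ε / ((m : ℝ) + 2)) =
        Pool.Agent.J4H34.HF.cond (N i) (μ i) t ^ (0 + ε) := by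
      rw [← Real.rpow_natCast, ← Real.rpow_mul (by linarith)]
      congr 1
      push_cast
      field_simp
      ring
    rw [h3] at h2
    have h4 := mul_le_mul_of_nonneg_left h2 (abs_nonneg B)
    refine le_trans ?_ h4
    exact mul_le_mul_of_nonneg_right (le_abs_self B) (Real.rpow_nonneg h0 _)
  · intro h ε hε
    obtain ⟨B, HB⟩ := h (ε / m) (by positivity)
    refine ⟨|B|, fun i t => (HB i t).trans ?_⟩
    have h1 := cond_le (μ := μ i) hm (hN i) t
    have hc := Pool.Agent.J4H34.HF.cond_ge (μ := μ i) (hN i) t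
    have h0 : 0 ≤ (1 + |t|) * cpi (N i) (μ i) :=
      mul_nonneg (by positivity) (by linarith [cpi_one (μ := μ i) (hN i)])
    have h2 := Real.rpow_le_rpow (by linarith) h1 (by positivity : 0 ≤ ε / (m : ℝ))
    have h3 : (((1 + |t|) * cpi (N i) (μ i)) ^ m) ^ (ε / (m : ℝ)) =
        ((1 + |t|) * cpi (N i) (μ i)) ^ ε := by
      rw [← Real.rpow_natCast, ← Real.rpow_mul h0]
      congr 1
      field_simp
    rw [h3] at h2
    have e : (0 : ℝ) + ε / m = ε / m := by ring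
    simp only
    rw [e]
    have h4 := mul_le_mul_of_nonneg_left h2 (abs_nonneg B)
    refine le_trans ?_ h4
    exact mul_le_mul_of_nonneg_right (le_abs_self B) (Real.rpow_nonneg (by linarith) _)

end Pool.Agent.J4H1.LG
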