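import Pool.Agent.J4H1.LG.Zeta8

/-!
# Project LG: unconditional size of zeta and all zeros of the flow on the line for `κ > 27/40`
-/

set_option autoImplicit false

open Complex Set MeasureTheory Filter Topology
open scoped ComplexConjugate

namespace Pool.Agent.J4H1.LG

open Pool.Agent.J4H1.LH
open Pool.Agent.J4H1.LG.GF (FF FF_ne FF_diff FF_bound)

/-- the size on a vertical line -/
def LnZ (r a : ℝ) : Prop := ∀ ε : ℝ, 0 < ε → ∃ C T0 : ℝ, ∀ t : ℝ, T0 ≤ t →
  ‖riemannZeta (1 / 2 + r + t * I)‖ ≤ C * t ^ (a + ε)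

/-- three lines for zeta -/
theorem zeta_interp {r0 r1 a0 a1 : ℝ} (hr0 : 0 ≤ r0) (hr : r0 < r1) (hr1 : r1 ≤ 1) (ha0 : |a0| ≤ 1)
    (ha1 : |a1| ≤ 1) (h0 : LnZ r0 a0) (h1 : LnZ r1 a1) {ε : ℝ} (hε : 0 < ε) :
    ∃ T1 : ℝ, 1 ≤ T1 ∧ ∀ t r : ℝ, T1 ≤ t → r0 ≤ r → r ≤ r1 →
      ‖riemannZeta (1 / 2 + r + t * I)‖ ≤ t ^ (a0 + (a1 - a0) * ((r - r0) / (r1 - r0)) + ε) := by
  obtain ⟨κ1, R, hκ1, hR, HR⟩ := Pool.Agent.W320.HF.rect 3 (r1 - r0) ε 1 (by norm_num) (by linarith)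
    (by linarith) hε le_rfl
  obtain ⟨C0, T0, H0⟩ := h0 (κ1 / 2) (by positivity)
  obtain ⟨C1, T1, H1⟩ := h1 (κ1 / 2) (by positivity)
  -- one line
  have key : ∀ (a C T0 : ℝ), |a| ≤ 1 → ∃ T2 : ℝ, ∀ T : ℝ, T2 ≤ T → ∀ (r v : ℝ), 0 ≤ r → r ≤ 1 → |v| ≤ R →
      (T0 ≤ T + v → ‖riemannZeta (1 / 2 + r + ((T + v : ℝ) : ℂ) * I)‖ ≤ C * (T + v) ^ (a + κ1 / 2)) →
      T0 ≤ T + v ∧ ‖FF (1 / 2 + T * I + ((r : ℂ) + v * I))‖ ≤ T * Real.exp (Real.log T * a + κ1 * Real.log T) := by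
    intro a C T0 ha
    obtain ⟨e, he⟩ : ∃ e : ℝ, e = a + κ1 / 2 := ⟨_, rfl⟩
    obtain ⟨D, hD⟩ : ∃ D : ℝ, D = 3 * |C| * 2 ^ |e| + 1 := ⟨_, rfl⟩
    have hD0 : 1 ≤ D := by rw [hD]; have : 0 ≤ 3 * |C| * 2 ^ |e| := by positivity
                           linarith
    refine ⟨max (max (2 * R + 1) (T0 + R)) (max (Real.exp (2 * Real.log D / κ1)) 1), ?_⟩
    intro T hT r v hr0 hr1 hv hz
    have g1 : 2 * R + 1 ≤ T := (le_max_left _ _).trans ((le_max_left _ _).trans hT)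
    have g2 : T0 + R ≤ T := (le_max_right _ _).trans ((le_max_left _ _).trans hT)
    have g3 : Real.exp (2 * Real.log D / κ1) ≤ T := (le_max_left _ _).trans ((le_max_right _ _).trans hT)
    have g4 : 1 ≤ T := (le_max_right _ _).trans ((le_max_right _ _).trans hT)
    have hT0 : 0 < T := by linarith
    rw [abs_le] at hv
    have hlo : T / 2 ≤ T + v := by linarith
    have hup : T + v ≤ 2 * T := by linarith
    have hp : 0 < T + v := by linarith
    have hTv : T0 ≤ T + v := by linarith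
    refine ⟨hTv, ?_⟩
    have h3 := hz hTv
    rw [← he] at h3
    obtain ⟨s, hs⟩ : ∃ s : ℂ, s = 1 / 2 + r + ((T + v : ℝ) : ℂ) * I := ⟨_, rfl⟩
    have e1 : (1 / 2 + (T : ℂ) * I + ((r : ℂ) + v * I)) = s := by rw [hs]; push_cast; ring
    rw [e1]
    rw [← hs] at h3
    have hre : s.re = 1 / 2 + r := by rw [hs]; simp
    have him : s.im = T + v := by rw [hs]; simp
    have hs1 : s ≠ 1 := by
      intro h
      rw [h, one_im] at him
      linarith
    rw [FF_ne hs1, norm_mul]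
    have hn1 : ‖s - 1‖ ≤ 3 * T := by
      refine (Complex.norm_le_abs_re_add_abs_im _).trans ?_
      rw [sub_re, sub_im, hre, him, one_re, one_im, sub_zero, abs_of_pos hp]
      have : |1 / 2 + r - 1| ≤ 1 := by rw [abs_le]; constructor <;> linarith
      linarith
    -- `(T + v) ^ e ≤ 2 ^ |e| T ^ e`
    have h4 : (T + v) ^ e ≤ 2 ^ |e| * T ^ e := by
      have h5 : (T + v) / T ≤ 2 := by rw [div_le_iff₀ hT0]; exact hup
      have h6 : 1 / 2 ≤ (T + v) / T := by rw [le_div_iff₀ hT0]; linarith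
      have h7 : ((T + v) / T) ^ e ≤ 2 ^ |e| := by
        rcases le_total 0 e with h | h
        · rw [abs_of_nonneg h]
          exact Real.rpow_le_rpow (by positivity) h5 h
        · rw [abs_of_nonpos h]
          calc ((T + v) / T) ^ e ≤ (1 / 2) ^ e :=
                Real.rpow_le_rpow_of_nonpos (by norm_num) h6 h
            _ = 2 ^ (-e) := by
                rw [one_div, Real.inv_rpow (by norm_num), Real.rpow_neg (by norm_num)]
      have h8 : (T + v) ^ e = ((T + v) / T) ^ e * T ^ e := by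
        rw [← Real.mul_rpow (by positivity) hT0.le, div_mul_cancel₀ _ hT0.ne']
      rw [h8]
      exact mul_le_mul_of_nonneg_right h7 (Real.rpow_nonneg hT0.le _)
    have hTe : 0 ≤ T ^ e := Real.rpow_nonneg hT0.le _
    have h5 : ‖riemannZeta s‖ ≤ |C| * (2 ^ |e| * T ^ e) :=
      h3.trans (mul_le_mul (le_abs_self C) h4 (Real.rpow_nonneg hp.le _) (abs_nonneg C))
    have h6 : D ≤ T ^ (κ1 / 2) := by
      rw [Real.rpow_def_of_pos hT0, ← Real.exp_log (by linarith : 0 < D)]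
      apply Real.exp_le_exp.2
      have h7 := Real.log_le_log (Real.exp_pos _) g3
      rw [Real.log_exp, div_le_iff₀ hκ1] at h7
      linarith
    calc ‖s - 1‖ * ‖riemannZeta s‖ ≤ (3 * T) * (|C| * (2 ^ |e| * T ^ e)) := by gcongr
      _ = T * ((3 * |C| * 2 ^ |e|) * T ^ e) := by ring
      _ ≤ T * (D * T ^ e) := by
          have : 3 * |C| * 2 ^ |e| ≤ D := by rw [hD]; linarith
          gcongr
      _ ≤ T * (T ^ (κ1 / 2) * T ^ e) := by gcongr
      _ = T * Real.exp (Real.log T * a + κ1 * Real.log T) := by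
          rw [← Real.rpow_add hT0, Real.rpow_def_of_pos hT0, he]
          congr 2
          ring
  obtain ⟨T2, HT2⟩ := key a0 C0 T0 ha0
  obtain ⟨T3, HT3⟩ := key a1 C1 T1 ha1
  refine ⟨max (max T2 T3) (max (2 * R + 4) 48), le_trans (by norm_num) ((le_max_right _ _).trans (le_max_right _ _)), ?_⟩
  intro T r hT hrr0 hrr1
  have g1 : T2 ≤ T := (le_max_left _ _).trans ((le_max_left _ _).trans hT)
  have g2 : T3 ≤ T := (le_max_right _ _).trans ((le_max_left _ _).trans hT)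
  have g3 : 2 * R + 4 ≤ T := (le_max_left _ _).trans ((le_max_right _ _).trans hT)
  have g4 : 48 ≤ T := (le_max_right _ _).trans ((le_max_right _ _).trans hT)
  have hT0 : 0 < T := by linarith
  have hlog : 0 ≤ Real.log T := Real.log_nonneg (by linarith)
  have hw : ∀ u : ℂ, u = ((u.re : ℝ) : ℂ) + ((u.im : ℝ) : ℂ) * I := fun u => (Complex.re_add_im u).symm
  have h3 := HR (Real.log T) r0 a0 a1 T (fun u => FF (1 / 2 + T * I + u)) hlog hT0
    (FF_diff.comp (by fun_prop)) (by linarith) (by linarith) (by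
      intro u hu1 hu2
      rw [hw u, hu1]
      exact (HT2 T g1 r0 u.im hr0 (by linarith) hu2 (H0 _)).2) (by
      intro u hu1 hu2
      have e2 : u.re = r1 := by rw [hu1]; ring
      rw [hw u, e2]
      exact (HT3 T g2 r1 u.im (by linarith) hr1 hu2 (H1 _)).2) (by
      intro u hu1 hu2 hu3
      refine (FF_bound (1 / 2) (by norm_num) _ ?_).trans ?_
      · have : (1 / 2 + (T : ℂ) * I + u).re = 1 / 2 + u.re := by simp
        rw [this]
        linarith
      · have hn : ‖1 / 2 + (T : ℂ) * I + u‖ ≤ 3 * T := by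
          refine (Complex.norm_le_abs_re_add_abs_im _).trans ?_
          have e1 : (1 / 2 + (T : ℂ) * I + u).re = 1 / 2 + u.re := by simp
          have e2 : (1 / 2 + (T : ℂ) * I + u).im = T + u.im := by simp
          rw [e1, e2]
          have h5 : |1 / 2 + u.re| ≤ 2 := by rw [abs_le]; constructor <;> linarith
          have h6 : |T + u.im| ≤ T + R := by
            refine (abs_add_le _ _).trans ?_
            rw [abs_of_pos hT0, hu3]
          linarith
        have e3 : Real.exp (3 * Real.log T) = T ^ 3 := by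
          rw [mul_comm, Real.exp_mul, Real.exp_log hT0]
          norm_cast
        rw [e3]
        have h7 := norm_nonneg (1 / 2 + (T : ℂ) * I + u)
        have h8 : (1 + ‖1 / 2 + (T : ℂ) * I + u‖) ^ 2 ≤ (4 * T) ^ 2 :=
          pow_le_pow_left₀ (by linarith) (by linarith) 2
        have h9 : (48 : ℝ) * T ^ 2 ≤ T * T ^ 3 := by
          have : (48 : ℝ) ≤ T ^ 2 := by nlinarith
          nlinarith [sq_nonneg T]
        linarith) (r : ℂ) (by rw [ofReal_re]; exact hrr0) (by rw [ofReal_re]; linarith)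
    (by rw [ofReal_im, abs_zero]; norm_num)
  simp only [ofReal_re] at h3
  obtain ⟨s, hs⟩ : ∃ s : ℂ, s = 1 / 2 + r + (T : ℂ) * I := ⟨_, rfl⟩
  have e1 : (1 / 2 + (T : ℂ) * I + (r : ℂ)) = s := by rw [hs]; ring
  rw [e1] at h3
  rw [← hs]
  have him : s.im = T := by rw [hs]; simp
  have hs1 : s ≠ 1 := by
    intro h
    rw [h, one_im] at him
    linarith
  rw [FF_ne hs1, norm_mul] at h3
  have hn : T ≤ ‖s - 1‖ := by
    have := Complex.abs_im_le_norm (s - 1)
    rw [sub_im, one_im, sub_zero, him, abs_of_pos hT0] at this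
    exact this
  have h5 : T * ‖riemannZeta s‖ ≤ T * Real.exp (Real.log T * (a0 + (a1 - a0) * ((r - r0) / (r1 - r0))) +
      ε * Real.log T) := (mul_le_mul_of_nonneg_right hn (norm_nonneg _)).trans h3
  have h6 := le_of_mul_le_mul_left h5 hT0
  rw [Real.rpow_def_of_pos hT0]
  refine h6.trans (le_of_eq ?_)
  congr 1
  ring

/-- the line `1/2` -/
lemma lnZ_half : LnZ 0 (1 / 6) := by
  intro ε hε
  obtain ⟨C, T0, -, -, H⟩ := Pool.Agent.J4H1.LG.GF.t_ST ε hε
  refine ⟨C, T0, fun t ht => ?_⟩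
  have h := (H (1 / 2) t ht (by norm_num)).1 le_rfl
  have e : (1 / 2 + ((0 : ℝ) : ℂ) + (t : ℂ) * I) = ((1 / 2 : ℝ) : ℂ) + I * t := by push_cast; ring
  rw [e]
  exact h

/-- the line `5/7` -/
lemma lnZ_57 : LnZ (3 / 14) (1 / 14) := by
  intro ε hε
  obtain ⟨C, T0, -, -, H⟩ := Pool.Agent.J4H1.LG.GF.t_ST ε hε
  refine ⟨C, T0, fun t ht => ?_⟩
  have h := (H (5 / 7) t ht (by norm_num)).2 le_rfl
  have e : (1 / 2 + ((3 / 14 : ℝ) : ℂ) + (t : ℂ) * I) = ((5 / 7 : ℝ) : ℂ) + I * t := by push_cast; ring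
  rw [e]
  exact h

/-- to the right of `1` -/
lemma lnZ_right {η : ℝ} (hη : 0 < η) : LnZ (1 / 2 + η) 0 := by
  intro ε hε
  refine ⟨∑' n : ℕ, 1 / (n : ℝ) ^ (1 + η), 1, fun t ht => ?_⟩
  have hre : (1 / 2 + ((1 / 2 + η : ℝ) : ℂ) + (t : ℂ) * I).re = 1 + η := by
    simp
    ring
  have h1 : ‖riemannZeta (1 / 2 + ((1 / 2 + η : ℝ) : ℂ) + (t : ℂ) * I)‖ ≤ ∑' n : ℕ, 1 / (n : ℝ) ^ (1 + η) := by
    rw [zeta_eq_tsum_one_div_nat_cpow (by rw [hre]; linarith)]
    have hs : Summable fun n : ℕ => 1 / (n : ℝ) ^ (1 + η) :=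
      Real.summable_one_div_nat_rpow.2 (by linarith)
    refine tsum_of_norm_bounded hs.hasSum fun n => ?_
    rcases Nat.eq_zero_or_pos n with h | h
    · subst h
      rw [Nat.cast_zero, Complex.zero_cpow (by
        intro h0
        rw [h0, zero_re] at hre
        linarith)]
      simp
      positivity
    · rw [norm_div, norm_one, Complex.norm_natCast_cpow_of_pos h, hre]
  have h2 : 1 ≤ t ^ (0 + ε) := Real.one_le_rpow ht (by linarith)
  have h3 : 0 ≤ ∑' n : ℕ, 1 / (n : ℝ) ^ (1 + η) := tsum_nonneg fun n => by positivity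
  nlinarith

/-- the unconditional size of zeta -/
theorem sizeZ_uncond : SizeZ (27 / 40) := by
  intro ε hε
  obtain ⟨η, hη⟩ : ∃ η : ℝ, η = min (ε / 2) (1 / 2) := ⟨_, rfl⟩
  have hη0 : 0 < η := by rw [hη]; exact lt_min (by positivity) (by norm_num)
  have hη1 : η ≤ ε / 2 := by rw [hη]; exact min_le_left _ _
  have hη2 : η ≤ 1 / 2 := by rw [hη]; exact min_le_right _ _
  obtain ⟨T1, hT1, H1⟩ := zeta_interp (r0 := 0) (r1 := 3 / 14) (a0 := 1 / 6) (a1 := 1 / 14) le_rfl (by norm_num)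
    (by norm_num) (by rw [abs_le]; norm_num) (by rw [abs_le]; norm_num) lnZ_half lnZ_57 hε
  obtain ⟨T2, hT2, H2⟩ := zeta_interp (r0 := 3 / 14) (r1 := 1 / 2 + η) (a0 := 1 / 14) (a1 := 0) (by norm_num)
    (by linarith) (by linarith) (by rw [abs_le]; norm_num) (by rw [abs_le]; norm_num) lnZ_57
    (lnZ_right hη0) (ε := ε / 2) (by positivity)
  -- large `t`
  have hbig : ∀ t r : ℝ, max T1 T2 ≤ t → 0 ≤ r → r ≤ 1 / 2 → ‖riemannZeta (1 / 2 + r + t * I)‖ ≤
      t ^ (max (27 / 40 - r) 0 ^ 2 / (4 * (27 / 40)) + ε) := by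
    intro t r ht hr0 hr
    have ht1 : T1 ≤ t := (le_max_left _ _).trans ht
    have ht2 : T2 ≤ t := (le_max_right _ _).trans ht
    have h1t : 1 ≤ t := hT1.trans ht1
    rw [max_eq_left (by linarith : (0 : ℝ) ≤ 27 / 40 - r)]
    rcases le_or_gt r (3 / 14) with h | h
    · refine (H1 t r ht1 hr0 h).trans (Real.rpow_le_rpow_of_exponent_le h1t ?_)
      have e : (1 / 6 + (1 / 14 - 1 / 6) * ((r - 0) / (3 / 14 - 0)) : ℝ) = 1 / 6 - 4 * r / 9 := by ring
      rw [e]
      have : (1 / 6 - 4 * r / 9 : ℝ) ≤ (27 / 40 - r) ^ 2 / (4 * (27 / 40)) := by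
        rw [le_div_iff₀ (by norm_num)]
        nlinarith [sq_nonneg (r - 3 / 40)]
      linarith
    · refine (H2 t r ht2 h.le (by linarith)).trans (Real.rpow_le_rpow_of_exponent_le h1t ?_)
      have hden : 0 < 1 / 2 + η - 3 / 14 := by linarith
      have e : (1 / 14 + (0 - 1 / 14) * ((r - 3 / 14) / (1 / 2 + η - 3 / 14)) : ℝ) ≤ (1 - 2 * r) / 8 + η := by
        have e1 : (r - 3 / 14) / (1 / 2 + η - 3 / 14) ≥ (r - 3 / 14) * (7 / 2) - 7 / 2 * η := by
          rw [ge_iff_le, le_div_iff₀ hden]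
          nlinarith [mul_nonneg hη0.le (by linarith : (0 : ℝ) ≤ 1 / 2 - r), mul_pos hη0 hη0]
        linarith
      have h3 : ((1 - 2 * r) / 8 : ℝ) ≤ (27 / 40 - r) ^ 2 / (4 * (27 / 40)) := by
        rw [le_div_iff₀ (by norm_num)]
        nlinarith [sq_nonneg (r - 27 / 80)]
      linarith
  -- bounded `t`
  obtain ⟨T, hT⟩ : ∃ T : ℝ, T = max T1 T2 := ⟨_, rfl⟩
  rw [← hT] at hbig
  have hTge : 1 ≤ T := by rw [hT]; exact hT1.trans (le_max_left _ _)
  obtain ⟨M, hM0, hM⟩ : ∃ M : ℝ, 0 ≤ M ∧ ∀ t r : ℝ, 1 ≤ |t| → |t| ≤ T → 0 ≤ r → r ≤ 1 / 2 →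
      ‖riemannZeta (1 / 2 + r + t * I)‖ ≤ M := by
    obtain ⟨M, hM⟩ := (isCompact_closedBall (0 : ℂ) (2 + T)).exists_bound_of_continuousOn
      FF_diff.continuous.continuousOn
    refine ⟨max M 0, le_max_right _ _, fun t r ht1 ht2 hr0 hr => ?_⟩
    obtain ⟨s, hs⟩ : ∃ s : ℂ, s = 1 / 2 + r + (t : ℂ) * I := ⟨_, rfl⟩
    have hre : s.re = 1 / 2 + r := by rw [hs]; simp
    have him : s.im = t := by rw [hs]; simp
    rw [← hs]
    have hs1 : s ≠ 1 := by
      intro h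
      rw [← him, h, one_im, abs_zero] at ht1
      linarith
    have h3 := hM s (by
      rw [Metric.mem_closedBall, dist_zero_right]
      refine (Complex.norm_le_abs_re_add_abs_im _).trans ?_
      rw [hre, him, abs_of_nonneg (by linarith)]
      linarith)
    rw [FF_ne hs1, norm_mul] at h3
    have hn : 1 ≤ ‖s - 1‖ := by
      have := Complex.abs_im_le_norm (s - 1)
      rw [sub_im, one_im, sub_zero, him] at this
      linarith
    have h4 := norm_nonneg (riemannZeta s)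
    refine le_trans ?_ (le_max_left _ _)
    nlinarith
  refine ⟨M + 1, fun t r ht hr0 hr => ?_⟩
  have he0 : 0 ≤ max (27 / 40 - r) 0 ^ 2 / (4 * (27 / 40)) + ε := by positivity
  have h1 : 1 ≤ |t| ^ (max (27 / 40 - r) 0 ^ 2 / (4 * (27 / 40)) + ε) := Real.one_le_rpow ht he0
  rcases le_or_gt |t| T with h | h
  · refine (hM t r ht h hr0 hr).trans ?_
    nlinarith
  · have h2 : ‖riemannZeta (1 / 2 + r + t * I)‖ = ‖riemannZeta (1 / 2 + r + (|t| : ℝ) * I)‖ := by
      rcases le_total 0 t with h3 | h3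
      · rw [abs_of_nonneg h3]
      · have h4 := Pool.Agent.J4H1.LG.GF.conj_line (1 / 2 + r) (|t|)
        rw [abs_of_nonpos h3] at h4 ⊢
        rw [neg_neg] at h4
        push_cast at h4 ⊢
        exact h4
    rw [h2]
    refine (hbig |t| r h.le hr0 hr).trans ?_
    nlinarith

/-- all zeros of the flow of zeta are on the line for `κ > 27/40` -/
theorem zeta_allon_uncond {κ : ℝ} (hκ : 27 / 40 < κ) : AllOn XZ CT κ :=
  (zeta_allon_iff' (by norm_num)).2 sizeZ_uncond κ hκ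

end Pool.Agent.J4H1.LG
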