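import Pool.Agent.J4H1.LG.Fw5
import Pool.Agent.J4H1.LG.Zeta9

/-!
# Project LG: simple zeros at late times for the two classes
-/

set_option autoImplicit false

open Complex Set MeasureTheory Filter Topology
open scoped ComplexConjugate

namespace Pool.Agent.J4H1.LG

open H353.E H353.F
open Pool.Agent.J4H1.LH
open Pool.Agent.J4H1.JP (XX m4 m4_re XX_fe XX_sharp XX_half diff_XX XX_eq)
open Pool.Agent.J4H34.HF
open Pool.Agent.W169.HF (S_PROF)

/-- a zero on the line is simple if the real-line integral is -/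
lemma simple_of_hf {F : ℂ → ℂ} (hXd : Differentiable ℂ F) (hgr : GrC F) {τ : ℝ} (hτ : 0 < τ) {s : ℂ}
    (hre : s.re = 1 / 2) (hz : heat τ F s = 0)
    (hsimple : Hf (fun v : ℝ => F (1 / 2 + s.im * I + v)) τ 0 = 0 →
        Hf1 (fun v : ℝ => F (1 / 2 + s.im * I + v)) τ 0 ≠ 0) : deriv (heat τ F) s ≠ 0 := by
  set c : ℂ := 1 / 2 + s.im * I with hc
  have hcs : s = c := by
    apply Complex.ext
    · rw [hre, hc]; simp
    · rw [hc]; simp
  have hlocal := fun x : ℝ => heat_local (f := F) hτ c x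
  set g : ℝ → ℂ := fun v => F (c + v) with hg
  have hgc : Continuous g := hXd.continuous.comp (by fun_prop)
  have hgg : Gr g := by
    intro e he
    obtain ⟨K', hK'0, hK'⟩ := grc_shift hgr c e he
    refine ⟨K', fun v => ?_⟩
    have h1 := hK' (v : ℂ)
    rwa [Complex.norm_real, Real.norm_eq_abs, sq_abs] at h1
  have hq : 0 < Real.sqrt (4 * Real.pi * τ) := Real.sqrt_pos.mpr (by positivity)
  have hH0 : Hf g τ 0 = 0 := by
    have h1 := hlocal 0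
    rw [Complex.ofReal_zero, add_zero, ← hcs, hz] at h1
    rcases mul_eq_zero.mp h1.symm with h2 | h2
    · exfalso
      have h3 : (Real.sqrt (4 * Real.pi * τ))⁻¹ * Real.exp (-((0:ℝ) ^ 2 / (4 * τ))) = 0 := by
        exact_mod_cast h2
      have h4 : 0 < (Real.sqrt (4 * Real.pi * τ))⁻¹ * Real.exp (-((0:ℝ) ^ 2 / (4 * τ))) := by
        positivity
      linarith
    · exact h2
  have hH1 := hsimple hH0
  -- derivative along the real direction
  have hder1 : HasDerivAt (fun x : ℝ => heat τ F (c + x)) (deriv (heat τ F) c) 0 := by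
    have h1 : HasDerivAt (heat τ F) (deriv (heat τ F) c) (c + ((0 : ℝ) : ℂ)) := by
      rw [Complex.ofReal_zero, add_zero]
      exact ((Pool.Agent.J4H34.HF.heat_diff hXd hgr hτ) c).hasDerivAt
    exact (HasDerivAt.comp_const_add c ((0 : ℝ) : ℂ) h1).comp_ofReal
  have hder2 : HasDerivAt (fun x : ℝ => heat τ F (c + x))
      ((((Real.sqrt (4 * Real.pi * τ))⁻¹ : ℝ) : ℂ) * (Hf1 g τ 0 / (2 * τ))) 0 := by
    have h1 : HasDerivAt (fun x : ℝ => (((Real.sqrt (4 * Real.pi * τ))⁻¹ *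
        Real.exp (-(x ^ 2 / (4 * τ))) : ℝ) : ℂ)) ((((Real.sqrt (4 * Real.pi * τ))⁻¹ *
        (Real.exp (-((0:ℝ) ^ 2 / (4 * τ))) * (-((0:ℝ) / (2 * τ)))) : ℝ) : ℂ)) 0 :=
      ((gder (τ := τ) 0).const_mul _).ofReal_comp
    have h2 := h1.fun_mul (Hf_der hgc hgg hτ 0)
    have e : (fun x : ℝ => heat τ F (c + x)) = fun x : ℝ => (((Real.sqrt (4 * Real.pi * τ))⁻¹ *
        Real.exp (-(x ^ 2 / (4 * τ))) : ℝ) : ℂ) * Hf g τ x := funext hlocal
    rw [e]
    refine h2.congr_deriv ?_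
    rw [hH0]
    norm_num
  rw [hcs]
  intro h0
  have h1 := hder1.unique hder2
  rw [h0] at h1
  have h2 : (((Real.sqrt (4 * Real.pi * τ))⁻¹ : ℝ) : ℂ) ≠ 0 := by
    exact_mod_cast (inv_pos.mpr hq).ne'
  have h3 : (2 * (τ : ℂ)) ≠ 0 := by
    have : (τ : ℂ) ≠ 0 := by exact_mod_cast hτ.ne'
    simpa using this
  rcases mul_eq_zero.mp h1.symm with h | h
  · exact h2 h
  · rcases div_eq_zero_iff.mp h with h | h
    · exact hH1 h
    · exact h3 h

/-- the zeros of the flow of zeta at height `t` are simple when `τ log C(t) ≥ 1 + η` -/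
theorem flow_zeta_simple {η : ℝ} (hη : 0 < η) (hη1 : η ≤ 1) : ∃ C₀ : ℝ, 1 ≤ C₀ ∧ ∀ (τ : ℝ) (s : ℂ), 0 < τ →
    τ ≤ 1 → C₀ ≤ Real.log (cond 1 m4 s.im) → 1 + η ≤ τ * Real.log (cond 1 m4 s.im) →
    heat τ XX s = 0 → s.re = 1 / 2 → deriv (heat τ XX) s ≠ 0 := by
  obtain ⟨C, A, hC, hA, hHL⟩ := hl_zeta hη hη1
  obtain ⟨ℓ₀, hloc⟩ := local_main C A hC hA hη hη1
  refine ⟨max (max 1 ℓ₀) ((2 * (C + A) + 1) ^ 2), (le_max_left _ _).trans (le_max_left _ _), fun τ => ?_⟩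
  intro s hτ hτ1 hℓC hτℓ hz hre
  refine simple_of_hf diff_XX grc_XX hτ hre hz ?_
  obtain ⟨ℓ, hℓ⟩ : ∃ ℓ : ℝ, ℓ = Real.log (cond 1 m4 s.im) := ⟨_, rfl⟩
  rw [← hℓ] at hℓC hτℓ
  have h1 : 1 ≤ ℓ := ((le_max_left _ _).trans (le_max_left _ _)).trans hℓC
  have h2 : ℓ₀ ≤ ℓ := ((le_max_right _ _).trans (le_max_left _ _)).trans hℓC
  have h3 : (2 * (C + A) + 1) ^ 2 ≤ ℓ := (le_max_right _ _).trans hℓC
  have h4 : 2 * (C + A) + 1 ≤ Real.sqrt ℓ := Real.le_sqrt_of_sq_le h3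
  have h5 : 1 ≤ Real.sqrt ℓ := Real.one_le_sqrt.2 h1
  have h6 : Real.sqrt ℓ * Real.sqrt ℓ = ℓ := Real.mul_self_sqrt (by linarith)
  have hbig : C + A * Real.sqrt ℓ ≤ ℓ / 2 := by nlinarith
  obtain ⟨p, hp⟩ := hHL s.im ℓ hℓ h1 hbig
  exact (hloc _ p _ _ _ ℓ τ 1 hp norm_one (fun v => by
    rw [XX_fe]
    congr 3
    push_cast
    rw [map_add, map_add, map_mul, Complex.conj_I, Complex.conj_ofReal, map_neg, Complex.conj_ofReal,
      map_div₀, map_one, map_ofNat]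
    ring) h2 hτ hτ1 hτℓ le_rfl le_rfl le_rfl).2

theorem clsS_zeta : ClsS 1 2 PZ := by
  refine { toCls := clsZ, lateS := ?_ }
  obtain ⟨C₁, hC₁, H⟩ := flow_zeta_simple (η := 1 / 4) (by norm_num) (by norm_num)
  obtain ⟨C₂, H2⟩ := late_zeta
  refine ⟨max (4 * (C₁ + (1 : ℕ) * Real.log 2)) C₂, ?_⟩
  rintro N μ Λ ⟨rfl, rfl, rfl⟩ τ T h0 h1 h2 h3 s hs hz
  rw [Xi_one] at hz ⊢
  have h2' := (le_max_left _ _).trans h2
  have h4 := log_cond_shift' (μ := m4) le_rfl T (s.im - T)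
  rw [add_sub_cancel] at h4
  have h5 : ((1 : ℕ) : ℝ) * Real.log (1 + |s.im - T|) ≤ (1 : ℕ) * Real.log 2 := by
    apply mul_le_mul_of_nonneg_left _ (Nat.cast_nonneg 1)
    exact Real.log_le_log (by positivity) (by linarith)
  have hl2 : 0 ≤ Real.log 2 := Real.log_nonneg (by norm_num)
  push_cast at h2' h4 h5
  refine H τ s h0 h1 (by linarith) ?_ hz (H2 τ T h0 h1 ((le_max_right _ _).trans h2) h3 s hs hz)
  have h6 : τ * (Real.log (cond 1 m4 T) - Real.log 2) ≤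
      τ * Real.log (cond 1 m4 s.im) := mul_le_mul_of_nonneg_left (by linarith) h0.le
  have h7 : τ * Real.log 2 ≤ τ * (Real.log (cond 1 m4 T) / 4) :=
    mul_le_mul_of_nonneg_left (by linarith) h0.le
  nlinarith

theorem clsS_dr {m : ℕ} {K : ℝ} (hm : 1 ≤ m) (hK : 0 ≤ K) : ClsS m 2 (PD (m := m) K) := by
  refine { toCls := cls_dr hm hK, lateS := ?_ }
  obtain ⟨C₁, hC₁, H⟩ := Pool.Agent.J4H34.HF.flow_local m hm hK (η := 1 / 4) (by norm_num) (by norm_num)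
  refine ⟨4 * (C₁ + m * Real.log 2), ?_⟩
  rintro N μ Λ ⟨α, ε, d⟩ τ T h0 h1 h2 h3 s hs hz
  refine (H N μ α ε Λ d τ s h0 h1 ?_ hz).2
  have h4 := log_cond_shift' (μ := μ) d.dat.one_le T (s.im - T)
  rw [add_sub_cancel] at h4
  have h5 : m * Real.log (1 + |s.im - T|) ≤ m * Real.log 2 := by
    apply mul_le_mul_of_nonneg_left _ (Nat.cast_nonneg m)
    exact Real.log_le_log (by positivity) (by linarith)
  have h6 : τ * (Real.log (Pool.Agent.J4H34.HF.cond N μ T) - m * Real.log 2) ≤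
      τ * Real.log (Pool.Agent.J4H34.HF.cond N μ s.im) := mul_le_mul_of_nonneg_left (by linarith) h0.le
  have h7 : τ * (C₁ + m * Real.log 2) ≤ τ * (Real.log (Pool.Agent.J4H34.HF.cond N μ T) / 4) :=
    mul_le_mul_of_nonneg_left (by linarith) h0.le
  nlinarith

end Pool.Agent.J4H1.LG
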