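import Pool.Agent.J4H1.LG.Cls
import Pool.Agent.J4H1.JP.Ze
import Pool.Agent.J4H8.DN.X
import Pool.Agent.J4H8.LH.Aut

/-!
# Project LG: the Riemann zeta function, unconditional data
-/

set_option autoImplicit false

open Complex Filter Topology Set
open scoped ComplexConjugate

namespace Pool.Agent.J4H1.LG

open H353.E H353.F
open Pool.Agent.J4H1.LH
open Pool.Agent.J4H8.LH
open Pool.Agent.J4H1.JP (XX m4 m4_re XX_fe XX_sharp XX_half diff_XX)
open Pool.Agent.W169.HF (UD Pf Slow)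

lemma Xi_one (Λ : ℂ → ℂ) : Pool.Agent.J4H34.HF.Xi 1 Λ = Λ := by
  funext s
  unfold Pool.Agent.J4H34.HF.Xi
  simp

lemma slow_XX : Slow XX := by
  have h := slow_shift Pool.Agent.J4H8.DN.slow_Xi (-(1 / 2))
  have e : (fun u : ℂ => Pool.Agent.J4H1.JP.Xi (-(1 / 2) + u)) = XX := by
    funext s
    unfold XX
    congr 1
    ring
  rw [e] at h
  exact h

lemma fT_fe1 (T : ℝ) (u : ℂ) : fT 1 XX T u = 1 * conj (fT 1 XX T (-conj u)) := by
  refine fT_fe (ε := 1) (fun s => ?_) T u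
  rw [Xi_one]
  exact XX_fe s

/-- the unconditional data of the zeta function -/
lemma ud_zeta : ∃ K1 : ℝ, 1000 ≤ K1 ∧ ∀ T : ℝ,
      UD K1 (3 / 2) (lT 1 m4 T) (GT 1 m4 T) (fT 1 XX T) := by
  obtain ⟨B, hB, S⟩ := XX_sharp (η := 1) one_pos le_rfl
  refine ⟨1000 + B, by linarith, fun T => ?_⟩
  have hm : 1 ≤ 1 := le_rfl
  have hN : (1 : ℝ) ≤ 1 := le_rfl
  have hμ := m4_re
  have hGT := GT_pos hm hN hμ T
  have hℓ := lT_nonneg (μ := m4) hN T
  have hB0 : 0 < B := by linarith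
  have hBe : ∀ x : ℝ, B ≤ Real.exp (B * (1 + x ^ 2)) := fun x => by
    have h1 := Real.add_one_le_exp (B * (1 + x ^ 2))
    nlinarith [sq_nonneg x]
  have hfe' : ∀ u, fT 1 XX T u = 1 * conj (fT 1 XX T (-conj u)) := fT_fe1 T
  have hfX : ∀ u, fT 1 XX T u = XX (1 / 2 + T * I + u) := fun u => by
    unfold fT
    rw [Xi_one]
  -- the right half plane
  have hup : ∀ u : ℂ, 0 ≤ u.re → ‖fT 1 XX T u‖ ≤
      GT 1 m4 T * Real.exp (lT 1 m4 T * max |u.re| (3 / 2) + (1000 + B) * (1 + ‖u‖ ^ 2)) := by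
    intro u hu
    rw [abs_of_nonneg hu]
    rcases le_total (3 / 2) u.re with h | h
    · rw [max_eq_left h]
      have h1 := S.hi (1 / 2 + T * I + u) (by rw [half_re]; linarith)
      have h2 := (gT_cmp hm hN hμ T (u := u) (by linarith)).2
      rw [← hfX] at h1
      calc ‖fT 1 XX T u‖ ≤ B * ‖gT 1 m4 T u‖ := h1
        _ ≤ Real.exp (B * (1 + ‖u‖ ^ 2)) *
            (GT 1 m4 T * Real.exp (lT 1 m4 T * u.re + 90 * (1 : ℕ) * (1 + ‖u‖ ^ 2))) :=
            mul_le_mul (hBe _) h2 (norm_nonneg _) (Real.exp_pos _).le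
        _ = GT 1 m4 T * Real.exp (B * (1 + ‖u‖ ^ 2) +
            (lT 1 m4 T * u.re + 90 * (1 : ℕ) * (1 + ‖u‖ ^ 2))) := by
            rw [Real.exp_add (B * (1 + ‖u‖ ^ 2))]; ring
        _ ≤ _ := by
            refine mul_le_mul_of_nonneg_left (Real.exp_le_exp.2 ?_) hGT.le
            push_cast
            nlinarith [sq_nonneg ‖u‖]
    · rw [max_eq_right h]
      have h1 := S.strip (1 / 2 + T * I + u) (by rw [half_re]; linarith) (by rw [half_re]; linarith)
      obtain ⟨w, hw⟩ : ∃ w : ℂ, w = ((3 / 2 : ℝ) : ℂ) + (u.im : ℂ) * I := ⟨_, rfl⟩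
      have hwre : w.re = 3 / 2 := by rw [hw]; simp
      have hwim : w.im = u.im := by rw [hw]; simp
      have e1 : (((1 + 1 : ℝ) : ℂ) + ((1 / 2 + (T : ℂ) * I + u).im : ℂ) * I) =
          1 / 2 + T * I + w := by
        rw [half_im, hw]
        push_cast
        ring
      rw [e1, ← hfX] at h1
      have h2 := (gT_cmp hm hN hμ T (u := w) (by rw [hwre]; norm_num)).2
      have hwn : ‖w‖ ^ 2 ≤ 9 / 4 + ‖u‖ ^ 2 := by
        rw [Complex.sq_norm, Complex.sq_norm, Complex.normSq_apply, Complex.normSq_apply, hwre, hwim]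
        nlinarith [mul_self_nonneg u.re]
      rw [hwre] at h2
      calc ‖fT 1 XX T u‖ ≤ B * ‖gT 1 m4 T w‖ := h1
        _ ≤ Real.exp (B * (1 + ‖u‖ ^ 2)) *
            (GT 1 m4 T * Real.exp (lT 1 m4 T * (3 / 2) + 90 * (1 : ℕ) * (1 + ‖w‖ ^ 2))) :=
            mul_le_mul (hBe _) h2 (norm_nonneg _) (Real.exp_pos _).le
        _ = GT 1 m4 T * Real.exp (B * (1 + ‖u‖ ^ 2) +
            (lT 1 m4 T * (3 / 2) + 90 * (1 : ℕ) * (1 + ‖w‖ ^ 2))) := by
            rw [Real.exp_add (B * (1 + ‖u‖ ^ 2))]; ring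
        _ ≤ _ := by
            refine mul_le_mul_of_nonneg_left (Real.exp_le_exp.2 ?_) hGT.le
            push_cast
            nlinarith [sq_nonneg ‖u‖]
  refine
    { slow := ?_
      fe := ⟨1, norm_one, hfe'⟩
      hG := hGT
      up := fun u => ?_
      lo := fun u hu => ?_ }
  · have h1 := slow_shift slow_XX (1 / 2 + T * I)
    have e : (fun u : ℂ => XX (1 / 2 + T * I + u)) = fT 1 XX T := by
      funext u; exact (hfX u).symm
    rw [e] at h1
    exact h1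
  · rcases le_total 0 u.re with h | h
    · exact hup u h
    · have h1 := hup (-conj u) (by simp; linarith)
      have e1 : ‖fT 1 XX T u‖ = ‖fT 1 XX T (-conj u)‖ := by
        rw [hfe' u, norm_mul, norm_one, one_mul, Complex.norm_conj]
      have e2 : |(-conj u).re| = |u.re| := by simp
      have e3 : ‖-conj u‖ = ‖u‖ := by rw [norm_neg, Complex.norm_conj]
      rw [e1]
      rwa [e2, e3] at h1
  · have h1 := S.lo (1 / 2 + T * I + u) (by rw [half_re]; linarith)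
    rw [← hfX] at h1
    have h2 := (gT_cmp hm hN hμ T (u := u) (by linarith)).1
    have h3 : GT 1 m4 T * Real.exp (lT 1 m4 T * u.re - 90 * (1 : ℕ) * (1 + ‖u‖ ^ 2)) ≤
        Real.exp (B * (1 + ‖u‖ ^ 2)) * ‖fT 1 XX T u‖ :=
      (h2.trans h1).trans (mul_le_mul_of_nonneg_right (hBe _) (norm_nonneg _))
    have h4 : GT 1 m4 T * Real.exp (lT 1 m4 T * u.re - 90 * (1 : ℕ) * (1 + ‖u‖ ^ 2) - B * (1 + ‖u‖ ^ 2)) ≤
        ‖fT 1 XX T u‖ := by
      rw [Real.exp_sub _ (B * (1 + ‖u‖ ^ 2)), mul_div_assoc', div_le_iff₀ (Real.exp_pos _),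
        mul_comm ‖_‖]
      exact h3
    refine le_trans ?_ h4
    refine mul_le_mul_of_nonneg_left (Real.exp_le_exp.2 ?_) hGT.le
    push_cast
    nlinarith [sq_nonneg ‖u‖]

end Pool.Agent.J4H1.LG
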