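import Pool.Agent.J4H1.LG.Zeta1

/-!
# Project LG: the Riemann zeta function, the remaining data
-/

set_option autoImplicit false

open Complex Filter Topology Set
open scoped ComplexConjugate

namespace Pool.Agent.J4H1.LG

open H353.E H353.F
open Pool.Agent.J4H1.LH
open Pool.Agent.J4H8.LH
open Pool.Agent.J4H1.JP (XX m4 m4_re XX_fe XX_sharp XX_half diff_XX)
open Pool.Agent.W169.HF (UD Pf Slow S_PROF)
open Pool.Agent.J4H34.HF (GrC ZS)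

lemma XX_ne {s : ℂ} (hs : 1 ≤ s.re) : XX s ≠ 0 := by
  unfold XX
  apply Pool.Agent.J4H1.JP.Xi_ne
  have : (s - 1 / 2 : ℂ).re = s.re - 1 / 2 := by simp
  rw [this]
  exact le_trans (by linarith) (le_abs_self _)

lemma grc_XX : GrC XX := by
  intro e he
  obtain ⟨K, hK, h⟩ := slow_XX.2 e he
  exact ⟨K, hK.le, h⟩

/-- the zeros of the flow are in the critical strip -/
lemma strip_zeta {τ : ℝ} (hτ : 0 < τ) {s : ℂ} (hs : Pool.Agent.J4H34.HF.heat τ XX s = 0) :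
    |s.re - 1 / 2| ≤ 1 / 2 := by
  have hZ : ZS (1 / 2) XX := by
    refine ⟨diff_XX, ⟨1, XX_fe⟩, grc_XX, fun z hz => ?_⟩
    by_contra hcon
    push Not at hcon
    exact XX_ne (by linarith) hz
  have hne : ∃ z, XX z ≠ 0 := ⟨2, XX_ne (by simp)⟩
  have h1 := Pool.Agent.J4H34.HF.heat_ne diff_XX grc_XX hne hτ
  have h2 := hZ.heat hτ h1
  have h3 := h2.zer s hs
  have hfe2 := Pool.Agent.J4H34.HF.heat_fe (f := XX) XX_fe (τ := τ)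
  have h4 : Pool.Agent.J4H34.HF.heat τ XX (1 - conj s) = 0 := by
    have h5 := hfe2 s
    rw [hs, one_mul] at h5
    exact (map_eq_zero _).mp h5.symm
  have h5 := h2.zer _ h4
  rw [sub_re, Complex.conj_re, one_re] at h5
  rw [abs_le]
  constructor <;> linarith

/-- the gamma factor and the profile -/
lemma aut_zeta (hpr : S_PROF) : ∃ (K1 : ℝ) (K2 : ℝ → ℝ), 1 ≤ K1 ∧
    (∀ T : ℝ,
      UD K1 (3 / 2) (lT 1 m4 T) (GT 1 m4 T) (fT 1 XX T) ∧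
      (∀ u : ℂ, 0 ≤ u.re → ‖(gT 1 m4 T u)⁻¹‖ ≤
        (GT 1 m4 T)⁻¹ * Real.exp (-(lT 1 m4 T * u.re) + K1 * (1 + ‖u‖ ^ 2))) ∧
      (∀ ρ : ℝ, 0 < ρ → ∀ u : ℂ, ρ ≤ u.re → gT 1 m4 T u ≠ 0 ∧
        ‖gT 1 m4 T u‖ ≤ GT 1 m4 T * Real.exp (lT 1 m4 T * u.re + K2 ρ * (1 + ‖u‖ ^ 2)))) ∧
    (∀ κ η R : ℝ, 0 < κ → 0 < η → η ≤ 1 → 1 ≤ R → ∃ ℓ0 : ℝ, ∀ T : ℝ,
        ℓ0 ≤ lT 1 m4 T → Pf κ (1 / 2 + η) R (lT 1 m4 T) (GT 1 m4 T) (fT 1 XX T)) := by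
  obtain ⟨K1, hK1, hUD⟩ := ud_zeta
  refine ⟨K1, fun ρ => 1000 * (1 : ℕ) + 2 * (1 : ℕ) / ρ, by linarith, fun T => ⟨hUD T, fun u hu => ?_,
    fun ρ hρ u hu => gT_up le_rfl le_rfl m4_re T hρ hu⟩, fun κ η R hκ hη hη1 hR => ?_⟩
  · refine (gT_inv le_rfl le_rfl m4_re T hu).trans ?_
    have hGT := GT_pos le_rfl le_rfl m4_re T
    refine mul_le_mul_of_nonneg_left (Real.exp_le_exp.2 ?_) (by positivity)
    have : 1000 * ((1 : ℕ) : ℝ) * (1 + ‖u‖ ^ 2) ≤ K1 * (1 + ‖u‖ ^ 2) := by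
      push_cast
      gcongr
      linarith
    linarith
  · obtain ⟨R', ℓ0, -, H⟩ := hpr K1 (3 / 2) (1 / 2) η κ R (by linarith) (by norm_num) (by norm_num)
      (by norm_num) (by norm_num) hη hη1 hκ hR
    refine ⟨ℓ0, fun T hT => H _ _ _ hT (hUD T) fun u hu _ => ?_⟩
    unfold fT
    rw [Xi_one]
    apply XX_ne
    rw [half_re]
    linarith

end Pool.Agent.J4H1.LG
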