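import Pool.Agent.J4H1.LG.Zeta2
import Pool.Agent.J4H34.HF.H10

/-!
# Project LG: the flow of the Riemann zeta function, late times
-/

set_option autoImplicit false

open Complex Set MeasureTheory Filter Topology
open scoped ComplexConjugate

namespace Pool.Agent.J4H1.LG

open H353.E H353.F
open Pool.Agent.J4H1.JP (XX m4 m4_re XX_fe XX_sharp XX_half diff_XX XX_eq)
open Pool.Agent.J4H34.HF

/-- the parameters of zeta -/
def a1 : Fin 1 → ℕ → ℂ := fun _ _ => 1

lemma rs_a1 {σ : ℝ} (h1 : 1 < σ) (h2 : σ ≤ 2) : RSb a1 σ (24 / (σ - 1)) :=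
  rsb_one (fun _ _ => by simp [a1]) h1 h2

lemma euler_a1 {s : ℂ} (hs : 1 < s.re) : euler a1 s = riemannZeta s := by
  unfold euler a1
  rw [← riemannZeta_eulerProduct_tprod hs]
  simp

lemma LL_diff1 : DifferentiableOn ℂ (LL a1) {s : ℂ | 1 < s.re} := by
  intro z hz
  have hz' : 1 < z.re := hz
  set σ : ℝ := (1 + min z.re 2) / 2 with hσ
  have h1 : 1 < min z.re 2 := lt_min hz' (by norm_num)
  have h2 : min z.re 2 ≤ z.re := min_le_left _ _
  have h3 : min z.re 2 ≤ 2 := min_le_right _ _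
  have hσ1 : 1 < σ := by linarith
  have hd := LL_diff hσ1 (rs_a1 hσ1 (by linarith))
  have hσz : σ < z.re := by linarith
  exact (hd.differentiableAt ((isOpen_lt continuous_const continuous_re).mem_nhds hσz)).differentiableWithinAt

/-- the rational factor -/
noncomputable def rat (s : ℂ) : ℂ := 2 * Real.pi ^ 2 * ((s - 1) / (s + 2))

lemma XX_exp {z : ℂ} (hz : 1 < z.re) : XX z = gaf 1 m4 z * (rat z * cexp (LL a1 z)) := by
  have hU : IsOpen {s : ℂ | 1 < s.re} := isOpen_lt continuous_const continuous_re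
  have hgd : DifferentiableOn ℂ (fun z => gaf 1 m4 z * (rat z * cexp (LL a1 z))) {s : ℂ | 1 < s.re} := by
    intro w hw
    have hw' : 1 < w.re := hw
    have h1 : DifferentiableAt ℂ (gaf 1 m4) w := ((gaf_GP (m := 1) le_rfl (N := 1) le_rfl m4_re).der w hw'.le).differentiableAt
    have h2 := (LL_diff1.differentiableAt (hU.mem_nhds hw)).cexp
    have h3 : DifferentiableAt ℂ rat w := by
      unfold rat
      refine (DifferentiableAt.div (by fun_prop) (by fun_prop) fun h => ?_).const_mul _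
      have := congrArg Complex.re h
      rw [add_re, re_ofNat, zero_re] at this
      linarith
    exact (h1.mul (h3.mul h2)).differentiableWithinAt
  have hA1 : AnalyticOnNhd ℂ XX {s : ℂ | 1 < s.re} := fun x _ => diff_XX.analyticAt x
  have hA2 := hgd.analyticOnNhd hU
  have hev : XX =ᶠ[𝓝 (2 : ℂ)] fun z => gaf 1 m4 z * (rat z * cexp (LL a1 z)) := by
    have hmem : {z : ℂ | 3 / 2 < z.re} ∈ 𝓝 (2 : ℂ) :=
      (isOpen_lt continuous_const continuous_re).mem_nhds (by
        show (3 : ℝ) / 2 < (2 : ℂ).re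
        norm_num)
    filter_upwards [hmem] with w hw
    have hw' : 3 / 2 < w.re := hw
    have hw1 : w ≠ 1 := by
      rintro rfl
      norm_num at hw'
    rw [XX_eq (by linarith) hw1, ← euler_a1 (by linarith), exp_LL (σ := 3 / 2) (by norm_num)
      (rs_a1 (by norm_num) (by norm_num)) (fun j p hp => by
        have : (1 : ℝ) ≤ p := by exact_mod_cast hp.one_le
        simp only [a1, norm_one]
        exact Real.one_le_sqrt.2 this) hw' hw'.le]
    unfold rat
    ring
  exact hA1.eqOn_of_preconnected_of_eventuallyEq hA2 (convex_halfSpace_re_gt 1).isPreconnected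
    (by show (1 : ℝ) < (2 : ℂ).re; norm_num) hev hz

lemma LL_bd1 {η₂ : ℝ} (hη : 0 < η₂) (hη1 : η₂ ≤ 1) : ∃ A₀ : ℝ, 0 ≤ A₀ ∧
    ∀ s : ℂ, 1 + η₂ ≤ s.re → ‖LL a1 s‖ ≤ A₀ * (2 : ℝ) ^ (-(s.re - (1 + η₂))) := by
  have hσ : 1 < 1 + η₂ := by linarith
  exact ⟨_, tsum_nonneg fun x => by positivity, fun s hs => (lt_summable hσ (rs_a1 hσ (by linarith)) hs).2⟩

end Pool.Agent.J4H1.LG
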