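import Pool.Agent.J4H1.LG.Zeta3

/-!
# Project LG: the flow of the Riemann zeta function, the local data
-/

set_option autoImplicit false

open Complex Set MeasureTheory Filter Topology
open scoped ComplexConjugate

namespace Pool.Agent.J4H1.LG

open H353.E H353.F
open Pool.Agent.J4H1.JP (XX m4 m4_re XX_fe XX_sharp XX_half diff_XX XX_eq)
open Pool.Agent.J4H34.HF

/-- the logarithmic derivative of the rational factor -/
noncomputable def ql (s : ℂ) : ℂ := 1 / (s - 1) - 1 / (s + 2)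

lemma rat_der {s : ℂ} (h1 : s - 1 ≠ 0) (h2 : s + 2 ≠ 0) : HasDerivAt rat (rat s * ql s) s := by
  have h3 : HasDerivAt (fun s : ℂ => (s - 1) / (s + 2)) ((1 * (s + 2) - (s - 1) * 1) / (s + 2) ^ 2) s :=
    ((hasDerivAt_id s).sub_const 1).div ((hasDerivAt_id s).add_const 2) h2
  have h4 := h3.const_mul (2 * (Real.pi : ℂ) ^ 2)
  refine h4.congr_deriv ?_
  unfold rat ql
  field_simp

lemma ql_der {s : ℂ} (h1 : s - 1 ≠ 0) (h2 : s + 2 ≠ 0) :
    HasDerivAt ql (-(1 / (s - 1) ^ 2) + 1 / (s + 2) ^ 2) s := by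
  have h3 : HasDerivAt (fun s : ℂ => 1 / (s - 1)) (-(1 / (s - 1) ^ 2)) s := by
    have := (((hasDerivAt_id s).sub_const 1).inv h1)
    simp only [one_div]
    refine this.congr_deriv ?_
    simp only [id]
    field_simp
  have h4 : HasDerivAt (fun s : ℂ => 1 / (s + 2)) (-(1 / (s + 2) ^ 2)) s := by
    have := (((hasDerivAt_id s).add_const 2).inv h2)
    simp only [one_div]
    refine this.congr_deriv ?_
    simp only [id]
    field_simp
  refine (h3.sub h4).congr_deriv ?_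
  ring

/-- the local data -/
lemma hl_zeta {η : ℝ} (hη : 0 < η) (hη1 : η ≤ 1) :
    ∃ C A : ℝ, 0 ≤ C ∧ 0 ≤ A ∧ ∀ t ℓ : ℝ, ℓ = Real.log (cond 1 m4 t) → 1 ≤ ℓ →
      C + A * Real.sqrt ℓ ≤ ℓ / 2 →
      ∃ p : ℝ → ℂ, HL (fun v : ℝ => XX (1 / 2 + t * I + v)) p (1 / 2 + η / 100) C
        (A * Real.sqrt ℓ) (ℓ / 2 - C - A * Real.sqrt ℓ) := by
  obtain ⟨η₂, hη₂⟩ : ∃ η₂ : ℝ, η₂ = η / 400 := ⟨_, rfl⟩
  have hη₂0 : 0 < η₂ := by rw [hη₂]; positivity
  have hη₂1 : η₂ ≤ 1 / 400 := by rw [hη₂]; linarith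
  obtain ⟨B₀, hB₀, hLL⟩ := LL_bd1 hη₂0 (by linarith)
  obtain ⟨B, hB, S⟩ := XX_sharp (η := η / 100) (by positivity) (by linarith)
  obtain ⟨C, hC⟩ : ∃ C : ℝ, C = 6 + 20000 / η ^ 2 := ⟨_, rfl⟩
  have hCη : 0 ≤ 20000 / η ^ 2 := by positivity
  have hC1 : 1 ≤ C := by rw [hC]; linarith
  obtain ⟨A, hA⟩ : ∃ A : ℝ, A = 4 * B₀ / η₂ + 8 * B₀ / η₂ ^ 2 + 2 * B := ⟨_, rfl⟩
  have hA0 : 0 ≤ A := by rw [hA]; positivity
  refine ⟨C, A, by linarith, hA0, fun t ℓ hℓ hℓ1 hbig => ?_⟩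
  have gp := gaf_GP (m := 1) le_rfl (N := 1) le_rfl m4_re
  obtain ⟨c, hc⟩ : ∃ c : ℂ, c = 1 / 2 + t * I := ⟨_, rfl⟩
  have hcre : c.re = 1 / 2 := by simp [hc]
  have hcim : c.im = t := by simp [hc]
  have hcv : ∀ v : ℝ, (c + v).re = 1 / 2 + v := fun v => by rw [add_re, hcre, ofReal_re]
  have hcvi : ∀ v : ℝ, (c + v).im = t := fun v => by rw [add_im, hcim, ofReal_im, add_zero]
  have hsq1 : 1 ≤ Real.sqrt ℓ := Real.one_le_sqrt.mpr hℓ1
  obtain ⟨Q, hQ⟩ : ∃ Q : ℝ, Q = A * Real.sqrt ℓ := ⟨_, rfl⟩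
  rw [← hQ] at hbig ⊢
  rw [← hc]
  have hAQ : A ≤ Q := by rw [hQ]; nlinarith
  have hU : IsOpen {s : ℂ | 1 < s.re} := isOpen_lt continuous_const continuous_re
  -- the logarithm and its derivatives
  have hL0 : ∀ s : ℂ, 1 + η₂ < s.re → ‖LL a1 s‖ ≤ B₀ * (2 : ℝ) ^ (-(s.re - (1 + η₂))) := fun s hs =>
    hLL s hs.le
  have hLd1 : DifferentiableOn ℂ (LL a1) {s : ℂ | 1 + η₂ < s.re} := LL_diff1.mono fun s hs => by
    have : 1 + η₂ < s.re := hs
    show 1 < s.re
    linarith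
  have hL1 : ∀ s : ℂ, 1 + η₂ + η₂ < s.re →
      ‖deriv (LL a1) s‖ ≤ (2 * B₀ / η₂) * (2 : ℝ) ^ (-(s.re - (1 + η₂))) := fun s hs =>
    cauchy_dec hLd1 hL0 hη₂0 (by linarith) hB₀ hs
  have hLd2 : DifferentiableOn ℂ (deriv (LL a1)) {s : ℂ | 1 + η₂ + η₂ < s.re} := by
    refine (hLd1.deriv (isOpen_lt continuous_const continuous_re)).mono fun s hs => ?_
    have : 1 + η₂ + η₂ < s.re := hs
    show 1 + η₂ < s.re
    linarith
  have hL2 : ∀ s : ℂ, 1 + η₂ + η₂ + η₂ < s.re →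
      ‖deriv (deriv (LL a1)) s‖ ≤ (2 * (2 * B₀ / η₂) / η₂) * (2 : ℝ) ^ (-(s.re - (1 + η₂))) :=
    fun s hs => cauchy_dec hLd2 hL1 hη₂0 (by linarith) (by positivity) hs
  -- on the line
  have ha : ∀ v : ℝ, 1 / 2 + η / 100 ≤ v → 1 + η₂ + η₂ + η₂ < (c + v).re := fun v hv => by
    rw [hcv, hη₂]
    linarith
  have hdec : ∀ v : ℝ, 1 / 2 + η / 100 ≤ v →
      (2 : ℝ) ^ (-((c + v).re - (1 + η₂))) ≤ 2 * Real.exp (-(v / 2)) := fun v hv => by
    rw [hcv]
    exact two_pow_le (by linarith) (by linarith)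
  have hA1Q : 4 * B₀ / η₂ ≤ Q := by
    have h1 : 0 ≤ 8 * B₀ / η₂ ^ 2 := by positivity
    linarith
  have hA2Q : 8 * B₀ / η₂ ^ 2 ≤ Q := by
    have h1 : 0 ≤ 4 * B₀ / η₂ := by positivity
    linarith
  have hA3Q : 2 * B ≤ Q := by
    have h1 : 0 ≤ 4 * B₀ / η₂ := by positivity
    have h2 : 0 ≤ 8 * B₀ / η₂ ^ 2 := by positivity
    linarith
  have hd1 : ∀ v : ℝ, 1 / 2 + η / 100 ≤ v → ‖deriv (LL a1) (c + v)‖ ≤ Q * Real.exp (-(v / 2)) :=
    fun v hv => by
      have h1 := hL1 (c + v) (by linarith [ha v hv])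
      have h2 := hdec v hv
      calc ‖deriv (LL a1) (c + v)‖ ≤ (2 * B₀ / η₂) * (2 * Real.exp (-(v / 2))) := by
            refine h1.trans ?_
            gcongr
        _ = 4 * B₀ / η₂ * Real.exp (-(v / 2)) := by ring
        _ ≤ Q * Real.exp (-(v / 2)) := by gcongr
  have hd2 : ∀ v : ℝ, 1 / 2 + η / 100 ≤ v →
      ‖deriv (deriv (LL a1)) (c + v)‖ ≤ Q * Real.exp (-(v / 2)) := fun v hv => by
    have h1 := hL2 (c + v) (ha v hv)
    have h2 := hdec v hv
    calc ‖deriv (deriv (LL a1)) (c + v)‖ ≤ (2 * (2 * B₀ / η₂) / η₂) * (2 * Real.exp (-(v / 2))) := by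
          refine h1.trans ?_
          gcongr
      _ = 8 * B₀ / η₂ ^ 2 * Real.exp (-(v / 2)) := by
          field_simp
          ring
      _ ≤ Q * Real.exp (-(v / 2)) := by gcongr
  -- the rational factor
  have hη2 : η ^ 2 ≤ η := by nlinarith
  have hv1 : ∀ v : ℝ, 1 / 2 + η / 100 ≤ v → v - 1 / 2 ≤ ‖c + v - 1‖ := fun v hv => by
    have := re_le_norm (c + v - 1)
    rw [sub_re, hcv, one_re] at this
    linarith
  have hv2 : ∀ v : ℝ, 1 / 2 + η / 100 ≤ v → v ≤ ‖c + v + 2‖ := fun v hv => by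
    have := re_le_norm (c + v + 2)
    rw [add_re, hcv, re_ofNat] at this
    linarith
  have hn1 : ∀ v : ℝ, 1 / 2 + η / 100 ≤ v → c + v - 1 ≠ 0 := fun v hv h => by
    have := hv1 v hv
    rw [h, norm_zero] at this
    have : 0 < η / 100 := by positivity
    linarith
  have hn2 : ∀ v : ℝ, 1 / 2 + η / 100 ≤ v → c + v + 2 ≠ 0 := fun v hv h => by
    have := hv2 v hv
    rw [h, norm_zero] at this
    have : 0 < η / 100 := by positivity
    linarith
  have hq1 : ∀ v : ℝ, 1 / 2 + η / 100 ≤ v → ‖ql (c + v)‖ ≤ 200 / η := fun v hv => by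
    unfold ql
    refine (norm_sub_le _ _).trans ?_
    rw [norm_div, norm_div, norm_one]
    have h1 := hv1 v hv
    have h2 := hv2 v hv
    have h3 : η / 100 ≤ ‖c + v - 1‖ := by linarith
    have h4 : η / 100 ≤ ‖c + v + 2‖ := by linarith
    have h5 : 1 / ‖c + v - 1‖ ≤ 1 / (η / 100) := one_div_le_one_div_of_le (by positivity) h3
    have h6 : 1 / ‖c + v + 2‖ ≤ 1 / (η / 100) := one_div_le_one_div_of_le (by positivity) h4
    have h7 : 1 / (η / 100) + 1 / (η / 100) = 200 / η := by field_simp; norm_num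
    linarith
  have hη200 : 200 / η ≤ 20000 / η ^ 2 := by
    rw [div_le_div_iff₀ hη (by positivity)]
    nlinarith
  have hq2 : ∀ v : ℝ, 1 / 2 + η / 100 ≤ v →
      ‖-(1 / (c + v - 1) ^ 2) + 1 / (c + v + 2) ^ 2‖ ≤ 20000 / η ^ 2 / v := fun v hv => by
    refine (norm_add_le _ _).trans ?_
    rw [norm_neg, norm_div, norm_div, norm_one, norm_pow, norm_pow]
    have h1 := hv1 v hv
    have h2 := hv2 v hv
    have hη100 : 0 < η / 100 := by positivity
    have hv0 : 0 < v := by linarith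
    -- `(v - 1/2) ≥ (η/100) v`
    have h3 : η / 100 * v ≤ v - 1 / 2 := by nlinarith
    have h4 : η / 100 ≤ v - 1 / 2 := by linarith
    have h5 : (η / 100) ^ 2 * v ≤ ‖c + v - 1‖ ^ 2 := by
      calc (η / 100) ^ 2 * v = (η / 100) * (η / 100 * v) := by ring
        _ ≤ (v - 1 / 2) * (v - 1 / 2) := mul_le_mul h4 h3 (by positivity) (by linarith)
        _ ≤ ‖c + v - 1‖ * ‖c + v - 1‖ := by gcongr <;> linarith
        _ = _ := by ring
    have h6 : (η / 100) ^ 2 * v ≤ ‖c + v + 2‖ ^ 2 := by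
      calc (η / 100) ^ 2 * v = (η / 100) * (η / 100 * v) := by ring
        _ ≤ v * v := by gcongr <;> nlinarith
        _ ≤ ‖c + v + 2‖ * ‖c + v + 2‖ := by gcongr
        _ = _ := by ring
    have h7 : 0 < (η / 100) ^ 2 * v := by positivity
    have h8 : 1 / ‖c + v - 1‖ ^ 2 ≤ 1 / ((η / 100) ^ 2 * v) := one_div_le_one_div_of_le h7 h5
    have h9 : 1 / ‖c + v + 2‖ ^ 2 ≤ 1 / ((η / 100) ^ 2 * v) := one_div_le_one_div_of_le h7 h6
    have h10 : 1 / ((η / 100) ^ 2 * v) + 1 / ((η / 100) ^ 2 * v) = 20000 / η ^ 2 / v := by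
      field_simp
      norm_num
    linarith
  -- derivative along the line
  have hline : ∀ {F : ℂ → ℂ} {D : ℂ} {v : ℝ}, HasDerivAt F D (c + v) →
      HasDerivAt (fun v : ℝ => F (c + v)) D v := fun {F D v} h =>
    (HasDerivAt.comp_const_add c (v : ℂ) h).comp_ofReal
  have hXder : ∀ v : ℝ, 1 / 2 + η / 100 ≤ v → HasDerivAt XX (XX (c + v) *
      (gaD 1 m4 (c + v) + ql (c + v) + deriv (LL a1) (c + v))) (c + v) := fun v hv => by
    have hz : 1 < (c + v).re := by linarith [ha v hv]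
    have h1 := gp.der (c + v) hz.le
    have h2 := (LL_diff1.differentiableAt (hU.mem_nhds hz)).hasDerivAt.cexp
    have h3 := h1.mul ((rat_der (hn1 v hv) (hn2 v hv)).mul h2)
    have hev : XX =ᶠ[𝓝 (c + v)] fun z => gaf 1 m4 z * (rat z * cexp (LL a1 z)) := by
      filter_upwards [hU.mem_nhds hz] with w hw
      exact XX_exp hw
    refine (h3.congr_of_eventuallyEq hev).congr_deriv ?_
    rw [XX_exp hz]
    simp only [Pi.mul_apply]
    ring
  refine ⟨fun v => gaD 1 m4 (c + v) + ql (c + v) + deriv (LL a1) (c + v), ?_⟩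
  refine
    { cont := diff_XX.continuous.comp (by fun_prop)
      grow := fun e he => ?_
      der := fun v hv => ?_
      ne := fun v hv => ?_
      dp := fun v hv => ?_
      im := fun v hv => ?_
      re := fun v hv => ?_
      left := fun v hv0 hv => ?_
      ha := by linarith
      hC := by linarith
      hQ := by linarith
      hq := by linarith }
  · obtain ⟨K', hK'0, hK'⟩ := grc_shift grc_XX c e he
    refine ⟨K', fun v => ?_⟩
    have h1 := hK' (v : ℂ)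
    rwa [Complex.norm_real, Real.norm_eq_abs, sq_abs] at h1
  · exact hline (hXder v hv)
  · show XX (c + v) ≠ 0
    exact XX_ne (by rw [hcv]; linarith)
  · obtain ⟨dd, hdd1, hdd2⟩ := gp.dD (c + v) (by linarith [ha v hv])
    have h2 : HasDerivAt (deriv (LL a1)) (deriv (deriv (LL a1)) (c + v)) (c + v) := by
      refine (hLd2.differentiableAt ?_).hasDerivAt
      refine (isOpen_lt continuous_const continuous_re).mem_nhds ?_
      show 1 + η₂ + η₂ < (c + v).re
      linarith [ha v hv]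
    have h3 := ql_der (hn1 v hv) (hn2 v hv)
    refine ⟨dd + (-(1 / (c + v - 1) ^ 2) + 1 / (c + v + 2) ^ 2) + deriv (deriv (LL a1)) (c + v),
      hline ((hdd1.add h3).add h2), ?_⟩
    refine (norm_add_le _ _).trans (add_le_add ?_ (hd2 v hv))
    refine (norm_add_le _ _).trans ?_
    have h4 := hq2 v hv
    have h5 : ‖dd‖ ≤ 6 / v := by
      refine hdd2.trans ?_
      rw [hcv]
      have hv0 : 0 < v := by linarith
      push_cast
      rw [mul_one]
      exact div_le_div_of_nonneg_left (by norm_num) hv0 (by linarith)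
    have h6 : C / v = 6 / v + 20000 / η ^ 2 / v := by rw [hC, add_div]
    linarith
  · rw [add_im, add_im]
    refine (abs_add_le _ _).trans (add_le_add ?_ ((Complex.abs_im_le_norm _).trans (hd1 v hv)))
    refine (abs_add_le _ _).trans ?_
    have h1 := gp.im (c + v) (by linarith [ha v hv])
    have h2 := (Complex.abs_im_le_norm _).trans (hq1 v hv)
    push_cast at h1
    rw [hC]
    linarith
  · rw [add_re, add_re]
    have h1 := gaD_re_ge (m := 1) (N := 1) le_rfl m4_re (s := c + v) (by linarith [ha v hv])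
    rw [hcvi, ← hℓ] at h1
    have h2 := (abs_le.mp ((Complex.abs_re_le_norm _).trans (hd1 v hv))).1
    have h3 : Q * Real.exp (-(v / 2)) ≤ Q * 1 := by
      have : Real.exp (-(v / 2)) ≤ 1 := by
        rw [Real.exp_le_one_iff]
        linarith
      have : 0 ≤ Q := by linarith
      gcongr
    have h4 := (abs_le.mp ((Complex.abs_re_le_norm _).trans (hq1 v hv))).1
    push_cast at h1
    rw [hC]
    linarith
  · -- the bound in the strip
    have h1 := S.strip (c + v) (by rw [hcv]; linarith) (by rw [hcv]; linarith)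
    rw [hcvi] at h1
    have e1 : ((1 + η / 100 : ℝ) : ℂ) + t * I = c + ((1 / 2 + η / 100 : ℝ) : ℂ) := by
      rw [hc]
      push_cast
      ring
    rw [e1] at h1
    have h2 := S.lo (c + ((1 / 2 + η / 100 : ℝ) : ℂ)) (by rw [hcv]; linarith)
    have hBe : B ≤ Real.exp B := by linarith [Real.add_one_le_exp B]
    show ‖XX (c + v)‖ ≤ _
    calc ‖XX (c + v)‖ ≤ B * (B * ‖XX (c + ((1 / 2 + η / 100 : ℝ) : ℂ))‖) := by
          refine h1.trans ?_
          gcongr
      _ ≤ Real.exp B * (Real.exp B * ‖XX (c + ((1 / 2 + η / 100 : ℝ) : ℂ))‖) := by gcongr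
      _ = Real.exp (2 * B) * ‖XX (c + ((1 / 2 + η / 100 : ℝ) : ℂ))‖ := by
          rw [two_mul, Real.exp_add]; ring
      _ ≤ Real.exp Q * ‖XX (c + ((1 / 2 + η / 100 : ℝ) : ℂ))‖ := by gcongr

end Pool.Agent.J4H1.LG
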