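import Pool.Agent.J4H1.LG.Zeta5
import Pool.Agent.J4H1.LG.Cmp

/-!
# Project LG: the size of the Riemann zeta function
-/

set_option autoImplicit false

open Complex Set MeasureTheory Filter Topology
open scoped ComplexConjugate

namespace Pool.Agent.J4H1.LG

open Pool.Agent.J4H1.LH
open Pool.Agent.J4H1.JP (XX m4 m4_re diff_XX)
open Pool.Agent.J4H34.HF (cond)

/-- the size of zeta -/
def SizeZ (κ : ℝ) : Prop := ∀ ε : ℝ, 0 < ε → ∃ B : ℝ, ∀ t r : ℝ, 1 ≤ |t| → 0 ≤ r → r ≤ 1 / 2 →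
  ‖riemannZeta (1 / 2 + r + t * I)‖ ≤ B * |t| ^ (max (κ - r) 0 ^ 2 / (4 * κ) + ε)

/-- the size of zeta on the line -/
def LineZ (θ : ℝ) : Prop := ∀ ε : ℝ, 0 < ε → ∃ B : ℝ, ∀ t : ℝ,
  ‖riemannZeta (1 / 2 + t * I)‖ ≤ B * (1 + |t|) ^ (θ + ε)

/-- the regularised zeta function -/
noncomputable def LZ : Unit → ℂ → ℂ := fun _ => Lf m4 XX

/-- its conductor -/
noncomputable def CZ : Unit → ℝ → ℝ := fun _ => cond 1 m4

lemma CZ_eq (i : Unit) (t : ℝ) : CZ i t = 1 + ‖(t : ℂ) * I + 4‖ := by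
  unfold CZ Pool.Agent.J4H34.HF.cond m4
  simp

lemma CZ_lo (i : Unit) (t : ℝ) : 1 + |t| ≤ CZ i t := by
  rw [CZ_eq]
  have h := Complex.abs_im_le_norm ((t : ℂ) * I + 4)
  have e : ((t : ℂ) * I + 4).im = t := by simp
  rw [e] at h
  linarith

lemma CZ_up (i : Unit) (t : ℝ) : CZ i t ≤ 5 * (1 + |t|) := by
  rw [CZ_eq]
  have h := norm_add_le ((t : ℂ) * I) 4
  rw [norm_mul, norm_I, mul_one, Complex.norm_real, Real.norm_eq_abs] at h
  have h4 : ‖(4 : ℂ)‖ = 4 := by norm_num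
  rw [h4] at h
  have := abs_nonneg t
  linarith

lemma log_lo (i : Unit) (t : ℝ) : Real.log (1 + |t|) ≤ Real.log (CZ i t) :=
  Real.log_le_log (by positivity) (CZ_lo i t)

lemma log_up (i : Unit) (t : ℝ) : Real.log (CZ i t) ≤ Real.log (1 + |t|) + Real.log 5 := by
  have h0 : 0 < 1 + |t| := by positivity
  have h := Real.log_le_log (by linarith [CZ_lo i t]) (CZ_up i t)
  rw [Real.log_mul (by norm_num) h0.ne'] at h
  linarith

lemma log5 : 0 ≤ Real.log 5 := Real.log_nonneg (by norm_num)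

lemma Lf_zeta {s : ℂ} (h : 0 < s.re) (h1 : s ≠ 1) :
    Lf m4 XX s = 2 * Real.pi ^ 2 * ((s - 1) / (s + 2)) * riemannZeta s := by
  have hs0 : s ≠ 0 := by
    rintro rfl
    simp at h
  have hs2 : s + 2 ≠ 0 := by
    intro h2
    have := congrArg Complex.re h2
    rw [add_re, re_ofNat, zero_re] at this
    linarith
  have hpi : (Real.pi : ℂ) ≠ 0 := by exact_mod_cast Real.pi_ne_zero
  have hG : Gammaℝ s ≠ 0 := Gammaℝ_ne_zero_of_re_pos h
  have e : 1 / 2 + (s - 1 / 2) = s := by ring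
  have h3 := Pool.Agent.J4H6.JP.Xi_mul (z := s - 1 / 2) (by rw [e]; exact hs0) (by rw [e]; exact h1)
  rw [e] at h3
  have h4 : XX s = s * (s - 1) * completedRiemannZeta s / 2 := by
    unfold XX
    rw [← h3]
    ring
  have h5 : riemannZeta s = completedRiemannZeta s / Gammaℝ s := riemannZeta_def_of_ne_zero hs0
  have e2 : Gammaℝ (s + 4) = Gammaℝ s * s / 2 / Real.pi * (s + 2) / 2 / Real.pi := by
    rw [← Gammaℝ_add_two hs0, ← Gammaℝ_add_two hs2]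
    congr 1
    ring
  unfold Lf m4
  simp only [Finset.univ_unique, Finset.prod_singleton, sub_neg_eq_add]
  rw [h4, h5, e2]
  field_simp

lemma pi_bd : 18 ≤ 2 * Real.pi ^ 2 ∧ 2 * Real.pi ^ 2 ≤ 20 := by
  have h1 := Real.pi_gt_three
  have h2 := Real.pi_lt_d2
  constructor <;> nlinarith

/-- comparison with zeta -/
lemma Lf_cmp {r t : ℝ} (hr0 : 0 ≤ r) (hr : r ≤ 1 / 2) (h : 1 ≤ |t| ∨ r = 0) :
    ‖LZ () (1 / 2 + r + t * I)‖ ≤ 20 * ‖riemannZeta (1 / 2 + r + t * I)‖ ∧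
    ‖riemannZeta (1 / 2 + r + t * I)‖ ≤ ‖LZ () (1 / 2 + r + t * I)‖ := by
  obtain ⟨s, hs⟩ : ∃ s : ℂ, s = 1 / 2 + r + t * I := ⟨_, rfl⟩
  have hre : s.re = 1 / 2 + r := by rw [hs]; simp
  have him : s.im = t := by rw [hs]; simp
  rw [← hs]
  have hs1 : s ≠ 1 := by
    intro h1
    rcases h with h2 | h2
    · rw [← him, h1, one_im, abs_zero] at h2
      linarith
    · rw [h1, one_re] at hre
      linarith
  have hL : LZ () s = 2 * Real.pi ^ 2 * ((s - 1) / (s + 2)) * riemannZeta s :=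
    Lf_zeta (by rw [hre]; linarith) hs1
  have hn : ‖LZ () s‖ = 2 * Real.pi ^ 2 * (‖s - 1‖ / ‖s + 2‖) * ‖riemannZeta s‖ := by
    rw [hL, norm_mul, norm_mul, norm_div, norm_mul, norm_pow, Complex.norm_real, Real.norm_eq_abs,
      abs_of_pos Real.pi_pos]
    norm_num
  obtain ⟨p1, p2⟩ := pi_bd
  have hz := norm_nonneg (riemannZeta s)
  have h1sq : ‖s - 1‖ ^ 2 = (r - 1 / 2) ^ 2 + t ^ 2 := by
    rw [Complex.sq_norm, Complex.normSq_apply, sub_re, sub_im, hre, him, one_re, one_im]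
    ring
  have h2sq : ‖s + 2‖ ^ 2 = (r + 5 / 2) ^ 2 + t ^ 2 := by
    rw [Complex.sq_norm, Complex.normSq_apply, add_re, add_im, hre, him, re_ofNat, im_ofNat]
    ring
  have hp2 : 0 < ‖s + 2‖ := by
    by_contra hcon
    have h0 : ‖s + 2‖ = 0 := le_antisymm (not_lt.1 hcon) (norm_nonneg _)
    rw [h0] at h2sq
    nlinarith [sq_nonneg t]
  have hle : ‖s - 1‖ ≤ ‖s + 2‖ := by
    apply abs_le_of_sq_le_sq' _ hp2.le |>.2
    rw [h1sq, h2sq]
    nlinarith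
  have hge : ‖s + 2‖ ≤ 5 * ‖s - 1‖ := by
    apply abs_le_of_sq_le_sq' _ (by positivity) |>.2
    rw [mul_pow, h1sq, h2sq]
    rcases h with h2 | h2
    · have : 1 ≤ t ^ 2 := by
        rw [← sq_abs]
        nlinarith
      nlinarith
    · rw [h2]
      nlinarith [sq_nonneg t]
  have hq1 : ‖s - 1‖ / ‖s + 2‖ ≤ 1 := (div_le_one hp2).2 hle
  have hq2 : 1 / 5 ≤ ‖s - 1‖ / ‖s + 2‖ := by
    rw [div_le_div_iff₀ (by norm_num) hp2]
    linarith
  rw [hn]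
  constructor
  · have h3 : 2 * Real.pi ^ 2 * (‖s - 1‖ / ‖s + 2‖) ≤ 20 * 1 := by gcongr
    have := mul_le_mul_of_nonneg_right h3 hz
    linarith
  · have h3 : 18 * (1 / 5) ≤ 2 * Real.pi ^ 2 * (‖s - 1‖ / ‖s + 2‖) := by gcongr
    nlinarith

lemma cmp_bd : ∃ M : ℝ, 0 ≤ M ∧ ∀ r t : ℝ, 0 ≤ r → r ≤ 1 / 2 → |t| ≤ 1 → ‖LZ () (1 / 2 + r + t * I)‖ ≤ M := by
  have hc : Continuous (LZ ()) := (Lf_diff diff_XX).continuous
  obtain ⟨M, hM⟩ := (isCompact_closedBall (0 : ℂ) 2).exists_bound_of_continuousOn hc.continuousOn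
  refine ⟨max M 0, le_max_right _ _, fun r t h1 h2 h3 => (hM _ ?_).trans (le_max_left _ _)⟩
  rw [Metric.mem_closedBall, dist_zero_right]
  refine (Complex.norm_le_abs_re_add_abs_im _).trans ?_
  have hre : (1 / 2 + (r : ℂ) + t * I).re = 1 / 2 + r := by simp
  have him : (1 / 2 + (r : ℂ) + t * I).im = t := by simp
  rw [hre, him, abs_of_nonneg (by linarith)]
  linarith

lemma sizeZ_iff {κ : ℝ} (hκ : 0 < κ) : SizeZ κ ↔ Size LZ CZ κ := by
  have hE0 : ∀ ε r : ℝ, 0 < ε → 0 ≤ max (κ - r) 0 ^ 2 / (4 * κ) + ε := fun ε r hε => by positivity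
  constructor
  · intro h ε hε
    obtain ⟨B, HB⟩ := h ε hε
    obtain ⟨M, hM0, hM⟩ := cmp_bd
    refine ⟨20 * |B| + M, fun i t r hr0 hr => ?_⟩
    have hC := CZ_lo i t
    have hC1 : 1 ≤ CZ i t := by linarith [abs_nonneg t]
    obtain ⟨e, he⟩ : ∃ e : ℝ, e = max (κ - r) 0 ^ 2 / (4 * κ) + ε := ⟨_, rfl⟩
    have he0 : 0 ≤ e := by rw [he]; exact hE0 ε r hε
    have hCe : 1 ≤ CZ i t ^ e := Real.one_le_rpow hC1 he0
    rw [← he]
    have hi : LZ i = LZ () := rfl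
    rw [hi]
    rcases le_total |t| 1 with ht | ht
    · refine (hM r t hr0 hr ht).trans ?_
      have : 0 ≤ 20 * |B| := by positivity
      nlinarith
    · have h1 := (Lf_cmp hr0 hr (Or.inl ht)).1
      have h2 := HB t r ht hr0 hr
      rw [← he] at h2
      have h3 : |t| ^ e ≤ CZ i t ^ e := Real.rpow_le_rpow (abs_nonneg t) (by linarith) he0
      have h4 : B * |t| ^ e ≤ |B| * CZ i t ^ e :=
        mul_le_mul (le_abs_self B) h3 (Real.rpow_nonneg (abs_nonneg t) _) (abs_nonneg B)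
      have h5 : 0 ≤ M * CZ i t ^ e := by positivity
      linarith
  · intro h ε hε
    obtain ⟨B, HB⟩ := h ε hε
    refine ⟨|B| * 10 ^ (κ / 4 + ε), fun t r ht hr0 hr => ?_⟩
    obtain ⟨e, he⟩ : ∃ e : ℝ, e = max (κ - r) 0 ^ 2 / (4 * κ) + ε := ⟨_, rfl⟩
    have he0 : 0 ≤ e := by rw [he]; exact hE0 ε r hε
    have he1 : e ≤ κ / 4 + ε := by
      rw [he]
      have h3 : max (κ - r) 0 ≤ κ := max_le (by linarith) hκ.le
      have h4 : max (κ - r) 0 ^ 2 ≤ κ ^ 2 := pow_le_pow_left₀ (le_max_right _ _) h3 2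
      have h5 : max (κ - r) 0 ^ 2 / (4 * κ) ≤ κ / 4 := by
        rw [div_le_iff₀ (by positivity)]
        nlinarith
      linarith
    rw [← he]
    have h1 := (Lf_cmp hr0 hr (Or.inl ht)).2
    have h2 := HB () t r hr0 hr
    rw [← he] at h2
    have h3 : CZ () t ≤ 10 * |t| := by
      have := CZ_up () t
      linarith
    have hC1 : 0 ≤ CZ () t := by linarith [CZ_lo () t, abs_nonneg t]
    have h4 : CZ () t ^ e ≤ (10 * |t|) ^ e := Real.rpow_le_rpow hC1 h3 he0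
    rw [Real.mul_rpow (by norm_num) (abs_nonneg t)] at h4
    have h5 : (10 : ℝ) ^ e ≤ 10 ^ (κ / 4 + ε) := Real.rpow_le_rpow_of_exponent_le (by norm_num) he1
    have h6 : 0 ≤ |t| ^ e := Real.rpow_nonneg (abs_nonneg t) _
    calc ‖riemannZeta (1 / 2 + r + t * I)‖ ≤ B * CZ () t ^ e := h1.trans h2
      _ ≤ |B| * CZ () t ^ e := mul_le_mul_of_nonneg_right (le_abs_self B) (Real.rpow_nonneg hC1 _)
      _ ≤ |B| * (10 ^ (κ / 4 + ε) * |t| ^ e) := by
          apply mul_le_mul_of_nonneg_left _ (abs_nonneg B)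
          exact h4.trans (mul_le_mul_of_nonneg_right h5 h6)
      _ = _ := by ring

lemma lineZ_iff {θ : ℝ} (hθ : 0 ≤ θ) : LineZ θ ↔ LineBound LZ CZ θ := by
  have e0 : ∀ t : ℝ, (1 / 2 + (t : ℂ) * I) = 1 / 2 + ((0 : ℝ) : ℂ) + t * I := fun t => by
    push_cast; ring
  constructor
  · intro h ε hε
    obtain ⟨B, HB⟩ := h ε hε
    refine ⟨20 * |B|, fun i t => ?_⟩
    have hC := CZ_lo i t
    obtain ⟨e, he⟩ : ∃ e : ℝ, e = θ + ε := ⟨_, rfl⟩
    have he0 : 0 ≤ e := by rw [he]; positivity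
    rw [← he]
    have hi : LZ i = LZ () := rfl
    rw [hi]
    have h1 := (Lf_cmp (t := t) le_rfl (by norm_num) (Or.inr rfl)).1
    rw [← e0] at h1
    have h2 := HB t
    rw [← he] at h2
    have ht0 : 0 ≤ 1 + |t| := by positivity
    have h3 : (1 + |t|) ^ e ≤ CZ i t ^ e := Real.rpow_le_rpow ht0 hC he0
    have h4 : B * (1 + |t|) ^ e ≤ |B| * CZ i t ^ e :=
      mul_le_mul (le_abs_self B) h3 (Real.rpow_nonneg ht0 _) (abs_nonneg B)
    linarith
  · intro h ε hε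
    obtain ⟨B, HB⟩ := h ε hε
    refine ⟨|B| * 5 ^ (θ + ε), fun t => ?_⟩
    obtain ⟨e, he⟩ : ∃ e : ℝ, e = θ + ε := ⟨_, rfl⟩
    have he0 : 0 ≤ e := by rw [he]; positivity
    rw [← he]
    have h1 := (Lf_cmp (t := t) le_rfl (by norm_num) (Or.inr rfl)).2
    rw [← e0] at h1
    have h2 := HB () t
    rw [← he] at h2
    have ht0 : 0 ≤ 1 + |t| := by positivity
    have hC1 : 0 ≤ CZ () t := by linarith [CZ_lo () t, abs_nonneg t]
    have h4 : CZ () t ^ e ≤ (5 * (1 + |t|)) ^ e := Real.rpow_le_rpow hC1 (CZ_up () t) he0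
    rw [Real.mul_rpow (by norm_num) ht0] at h4
    calc ‖riemannZeta (1 / 2 + t * I)‖ ≤ B * CZ () t ^ e := h1.trans h2
      _ ≤ |B| * CZ () t ^ e := mul_le_mul_of_nonneg_right (le_abs_self B) (Real.rpow_nonneg hC1 _)
      _ ≤ |B| * (5 ^ e * (1 + |t|) ^ e) := mul_le_mul_of_nonneg_left h4 (abs_nonneg B)
      _ = _ := by ring

end Pool.Agent.J4H1.LG
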