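import Pool.Agent.J4H1.LG.Zeta6
import Pool.Agent.J4H1.LG.AsmG

/-!
# Project LG: the theorem for the Riemann zeta function
-/

set_option autoImplicit false

open Complex Set MeasureTheory Filter Topology
open scoped ComplexConjugate

namespace Pool.Agent.J4H1.LG

open Pool.Agent.J4H1.LH
open Pool.Agent.J4H1.JP (XX m4 m4_re diff_XX)
open Pool.Agent.J4H34.HF (Xi)

/-- xi, as a family -/
noncomputable def XZ : Unit → ℂ → ℂ := fun _ => XX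

/-- the simple conductor -/
noncomputable def CT : Unit → ℝ → ℝ := fun _ t => 1 + |t|

lemma XZ_eq : (fun i : Unit => Xi ((fun _ : Unit => (1 : ℝ)) i) ((fun _ : Unit => XX) i)) = XZ := by
  funext i
  exact Xi_one XX

lemma hDZ : ∀ i : Unit, PZ ((fun _ : Unit => (1 : ℝ)) i) ((fun _ : Unit => m4) i) ((fun _ : Unit => XX) i) :=
  fun _ => ⟨rfl, rfl, rfl⟩

lemma few_all {κ δ : ℝ} : (∀ κ' : ℝ, κ < κ' → Few XZ CZ κ' δ) ↔ ∀ κ' : ℝ, κ < κ' → Few XZ CT κ' δ := by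
  constructor
  · intro h κ' hκ'
    exact few_down log5 log_lo log_up (h κ' hκ')
  · intro h κ' hκ'
    exact few_up log5 log_lo log_up (κ := (κ + κ') / 2) (by linarith) (h _ (by linarith))

lemma few_all2 {κ : ℝ} : (∀ κ' : ℝ, κ < κ' → ∀ δ : ℝ, 0 < δ → Few XZ CZ κ' δ) ↔
    ∀ κ' : ℝ, κ < κ' → ∀ δ : ℝ, 0 < δ → Few XZ CT κ' δ := by
  constructor
  · intro h κ' hκ' δ hδ
    exact few_down log5 log_lo log_up (h κ' hκ' δ hδ)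
  · intro h κ' hκ' δ hδ
    exact few_up log5 log_lo log_up (κ := (κ + κ') / 2) (by linarith) (h _ (by linarith) δ hδ)

theorem zeta_size {κ : ℝ} (hκ : 0 < κ) : (SizeZ κ ↔ ∀ κ' : ℝ, κ < κ' → Few XZ CT κ' 0) ∧
    (SizeZ κ ↔ ∀ κ' : ℝ, κ < κ' → ∀ δ : ℝ, 0 < δ → Few XZ CT κ' δ) := by
  have h := size_iff allS clsZ hDZ hκ
  rw [XZ_eq] at h
  rw [sizeZ_iff hκ, ← few_all, ← few_all2]
  exact h

theorem zeta_line : (LineZ 0 ↔ ∀ κ : ℝ, 0 < κ → Few XZ CT κ 0) ∧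
    (LineZ 0 ↔ ∀ κ : ℝ, 0 < κ → ∀ δ : ℝ, 0 < δ → Few XZ CT κ δ) := by
  have h := lindelof_iff allS clsZ hDZ
  rw [XZ_eq] at h
  rw [lineZ_iff le_rfl, ← few_all, ← few_all2]
  exact h

theorem zeta_allon {θ κ : ℝ} (hθ : 0 ≤ θ) (hθ1 : θ ≤ 1 / 4) (hκ : 1 < κ * (2 - 4 * θ)) (h : LineZ θ) :
    AllOn XZ CT κ := by
  have h1 := line_to_allon allS.rect allS.fwd2 clsZ hDZ hθ hθ1 ((lineZ_iff hθ).1 h) hκ
  rw [XZ_eq] at h1
  exact allon_down log_lo h1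

theorem zeta_zf {ϑ κ : ℝ} (hϑ : 0 ≤ ϑ) (hϑ1 : ϑ ≤ 1 / 2) (hκ : 2 * ϑ < κ) (h : ZeroFree XZ CT ϑ) :
    AllOn XZ CT κ := by
  have h0 : ZeroFree XZ CZ ϑ := zf_up log_up h
  have h1 : ZeroFree (fun i : Unit => Xi ((fun _ : Unit => (1 : ℝ)) i) ((fun _ : Unit => XX) i)) CZ ϑ := by
    rw [XZ_eq]; exact h0
  have h2 := zf_to_allon allS clsZ hDZ hϑ hϑ1 hκ h1
  rw [XZ_eq] at h2
  exact allon_down log_lo h2

theorem zeta_zf' {κ ϑ : ℝ} (hϑ : 0 < ϑ) (hκ : κ < ϑ) (h : AllOn XZ CT κ) : ZeroFree XZ CT ϑ := by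
  obtain ⟨κ1, hκ1⟩ : ∃ κ1 : ℝ, κ1 = (κ + ϑ) / 2 := ⟨_, rfl⟩
  have h0 : AllOn XZ CZ κ1 := allon_up log5 log_up (by linarith) h
  have h1 : AllOn (fun i : Unit => Xi ((fun _ : Unit => (1 : ℝ)) i) ((fun _ : Unit => XX) i)) CZ κ1 := by
    rw [XZ_eq]; exact h0
  have h2 := allon_to_zf allS clsZ hDZ (κ := κ1) (κ' := ϑ) (by linarith) hϑ h1
  rw [XZ_eq] at h2
  exact zf_down log_lo h2

/-- unconditional -/
theorem zeta_one {κ : ℝ} (hκ : 1 < κ) : AllOn XZ CT κ := by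
  have h0 : 0 < min (κ - 1) 1 := lt_min (by linarith) one_pos
  obtain ⟨C₀, hC₀, H⟩ := flow_zeta h0 (min_le_right _ _)
  have h1 : min (κ - 1) 1 ≤ κ - 1 := min_le_left _ _
  refine ⟨C₀, fun i s τ hC hτ0 hτ1 hκτ hz => ?_⟩
  have h3 := log_lo i s.im
  have h5 : τ * Real.log (1 + |s.im|) ≤ τ * Real.log (CZ i s.im) := mul_le_mul_of_nonneg_left h3 hτ0.le
  have hC' : C₀ ≤ Real.log (1 + |s.im|) := hC
  have hκ' : κ ≤ τ * Real.log (1 + |s.im|) := hκτ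
  exact H τ s hτ0 hτ1 (hC'.trans h3) (le_trans (by linarith) (hκ'.trans h5)) hz

end Pool.Agent.J4H1.LG
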