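import Pool.Agent.J4H1.LG.Zeta7
import Pool.Agent.J4H1.LG.Fw2
import Pool.Agent.J4H1.LG.ST

/-!
# Project LG: all zeros of the flow of zeta on the line
-/

set_option autoImplicit false

open Complex Set MeasureTheory Filter Topology
open scoped ComplexConjugate

namespace Pool.Agent.J4H1.LG

open Pool.Agent.J4H1.LH
open Pool.Agent.J4H1.JP (XX m4 m4_re diff_XX)
open Pool.Agent.J4H34.HF (Xi)

theorem sad : Pool.Agent.W169.HF.S_SADL := Pool.Agent.J4H8.DT.t_sadl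

/-- the criterion for zeta -/
theorem zeta_allon_iff {κ : ℝ} (hκ : 0 < κ) : (∀ κ' : ℝ, κ < κ' → AllOn XZ CT κ') ↔
    SizeZ κ ∧ ∀ ϑ : ℝ, κ < ϑ → ZeroFree XZ CT ϑ := by
  have h := allon_iff allS sad prof clsZ hDZ hκ
  rw [XZ_eq] at h
  have e1 : (∀ κ' : ℝ, κ < κ' → AllOn XZ CT κ') ↔ ∀ κ' : ℝ, κ < κ' → AllOn XZ CZ κ' := by
    constructor
    · intro h κ' hκ'
      exact allon_up (κ := (κ + κ') / 2) log5 log_up (by linarith) (h _ (by linarith))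
    · intro h κ' hκ'
      exact allon_down log_lo (h κ' hκ')
  have e2 : (∀ ϑ : ℝ, κ < ϑ → ZeroFree XZ CT ϑ) ↔ ∀ ϑ : ℝ, κ < ϑ → ZeroFree XZ CZ ϑ := by
    constructor
    · intro h ϑ hϑ
      exact zf_up log_up (h ϑ hϑ)
    · intro h ϑ hϑ
      exact zf_down log_lo (h ϑ hϑ)
  rw [e1, e2, sizeZ_iff hκ]
  exact h

/-- for `κ ≥ 1/2` -/
theorem zeta_allon_iff' {κ : ℝ} (hκ : 1 / 2 ≤ κ) : (∀ κ' : ℝ, κ < κ' → AllOn XZ CT κ') ↔ SizeZ κ := by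
  rw [zeta_allon_iff (by linarith : 0 < κ)]
  refine ⟨fun h => h.1, fun h => ⟨h, fun ϑ hϑ => ⟨0, fun i s _ hs => ?_⟩⟩⟩
  have := clsZ.re1 (hDZ i) s (by linarith)
  rwa [Xi_one] at this

end Pool.Agent.J4H1.LG
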